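import Pool.Agent.H935.FF.Smooth

/-!
Algebra of the surfaces `S² = a x² + b y² + c`, `T² = a' x² + b' y² + c'`.
-/

set_option autoImplicit false
set_option linter.unusedSimpArgs false

open MvPolynomial

namespace Pool.Agent.H935.FF

/-- Polynomials in the first two variables. -/
noncomputable def emb : MvPolynomial (Fin 2) ℂ →ₐ[ℂ] MvPolynomial (Fin 4) ℂ :=
  rename ![(0 : Fin 4), 1]

lemma aeval_emb {S : Type} [CommRing S] [Algebra ℂ S] (w : Fin 4 → S)
    (q : MvPolynomial (Fin 2) ℂ) : aeval w (emb q) = aeval ![w 0, w 1] q := by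
  unfold emb
  rw [aeval_rename]
  congr 2
  funext i
  fin_cases i <;> rfl

lemma emb_X0 : emb (X 0) = X 0 := by simp [emb]

lemma emb_X1 : emb (X 1) = X 1 := by simp [emb]

section nf

variable (a b c a' b' c' : ℂ)

/-- Normal form modulo the two equations. -/
lemma normal_form (p : MvPolynomial (Fin 4) ℂ) : ∃ p0 p1 p2 p3 : MvPolynomial (Fin 2) ℂ,
    p - (emb p0 + emb p1 * X 2 + emb p2 * X 3 + emb p3 * (X 2 * X 3)) ∈
      Ideal.span {F1 a b c, F2 a' b' c'} := by
  set I := Ideal.span {F1 a b c, F2 a' b' c'} with hI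
  have hF1 : F1 a b c ∈ I := Ideal.subset_span (by simp)
  have hF2 : F2 a' b' c' ∈ I := Ideal.subset_span (by simp)
  have eP : emb (C a * X 0 ^ 2 + C b * X 1 ^ 2 + C c) =
      C a * X 0 ^ 2 + C b * X 1 ^ 2 + C c := by
    simp [emb, algHom_C]
  have eQ : emb (C a' * X 0 ^ 2 + C b' * X 1 ^ 2 + C c') =
      C a' * X 0 ^ 2 + C b' * X 1 ^ 2 + C c' := by
    simp [emb, algHom_C]
  induction p using MvPolynomial.induction_on with
  | C z =>
    refine ⟨C z, 0, 0, 0, ?_⟩
    have : emb (C z) = C z := by simp [emb]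
    simp [this]
  | add p q hp hq =>
    obtain ⟨p0, p1, p2, p3, h⟩ := hp
    obtain ⟨q0, q1, q2, q3, h'⟩ := hq
    refine ⟨p0 + q0, p1 + q1, p2 + q2, p3 + q3, ?_⟩
    have := I.add_mem h h'
    simp only [map_add]
    convert this using 1
    ring
  | mul_X p i hp =>
    obtain ⟨p0, p1, p2, p3, h⟩ := hp
    have h' := I.mul_mem_right (X i) h
    fin_cases i
    · refine ⟨p0 * X 0, p1 * X 0, p2 * X 0, p3 * X 0, ?_⟩
      simp only [map_mul, emb_X0]
      convert h' using 1
      simp only [Fin.zero_eta]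
      ring
    · refine ⟨p0 * X 1, p1 * X 1, p2 * X 1, p3 * X 1, ?_⟩
      simp only [map_mul, emb_X1]
      convert h' using 1
      simp only [Fin.mk_one]
      ring
    · refine ⟨p1 * (C a * X 0 ^ 2 + C b * X 1 ^ 2 + C c), p0,
        p3 * (C a * X 0 ^ 2 + C b * X 1 ^ 2 + C c), p2, ?_⟩
      have h2 := I.mul_mem_left (emb p1 + emb p3 * X 3) hF1
      have := I.add_mem h' h2
      rw [map_mul, map_mul, eP]
      convert this using 1
      simp only [F1, Fin.reduceFinMk]
      ring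
    · refine ⟨p2 * (C a' * X 0 ^ 2 + C b' * X 1 ^ 2 + C c'),
        p3 * (C a' * X 0 ^ 2 + C b' * X 1 ^ 2 + C c'), p0, p1, ?_⟩
      have h2 := I.mul_mem_left (emb p2 + emb p3 * X 2) hF2
      have := I.add_mem h' h2
      rw [map_mul, map_mul, eQ]
      convert this using 1
      simp only [F2, Fin.reduceFinMk]
      ring

/-- Independence of `1, S, T, ST` over the polynomials in `x, y`. -/
def Indep {S : Type} [CommRing S] [Algebra ℂ S] (w : Fin 4 → S) : Prop :=
  ∀ p0 p1 p2 p3 : MvPolynomial (Fin 2) ℂ,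
    aeval ![w 0, w 1] p0 + aeval ![w 0, w 1] p1 * w 2 + aeval ![w 0, w 1] p2 * w 3 +
      aeval ![w 0, w 1] p3 * (w 2 * w 3) = 0 → p0 = 0 ∧ p1 = 0 ∧ p2 = 0 ∧ p3 = 0

lemma ker_eq {S : Type} [CommRing S] [Algebra ℂ S] (w : Fin 4 → S) (hind : Indep w)
    (e1 : w 2 ^ 2 = algebraMap ℂ S a * w 0 ^ 2 + algebraMap ℂ S b * w 1 ^ 2 +
        algebraMap ℂ S c)
    (e2 : w 3 ^ 2 = algebraMap ℂ S a' * w 0 ^ 2 + algebraMap ℂ S b' * w 1 ^ 2 +
        algebraMap ℂ S c') (p : MvPolynomial (Fin 4) ℂ) :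
    aeval w p = 0 ↔ p ∈ Ideal.span {F1 a b c, F2 a' b' c'} := by
  have hle : Ideal.span {F1 a b c, F2 a' b' c'} ≤ RingHom.ker (aeval w : _ →ₐ[ℂ] S) := by
    rw [Ideal.span_le]
    rintro z (rfl | rfl)
    · change aeval w _ = 0
      simp only [F1, map_sub, map_add, map_mul, map_pow, aeval_X, algHom_C]
      linear_combination e1
    · change aeval w _ = 0
      simp only [F2, map_sub, map_add, map_mul, map_pow, aeval_X, algHom_C]
      linear_combination e2
  constructor
  · intro h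
    obtain ⟨p0, p1, p2, p3, h'⟩ := normal_form a b c a' b' c' p
    have h2 : aeval w (p - (emb p0 + emb p1 * X 2 + emb p2 * X 3 + emb p3 * (X 2 * X 3))) = 0 :=
      hle h'
    simp only [map_sub, map_add, map_mul, aeval_emb, aeval_X, h] at h2
    obtain ⟨rfl, rfl, rfl, rfl⟩ := hind p0 p1 p2 p3 (by linear_combination -h2)
    simpa using h'
  · intro h
    exact hle h

end nf

end Pool.Agent.H935.FF
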