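import Mathlib

/-!
Automorphisms of `ℂ` which permute the elements of a transcendence basis.
-/

set_option autoImplicit false

open Cardinal

namespace Pool.Agent.H935.FF

/-- Every permutation of a transcendence basis of `ℂ` over `ℤ` extends to an automorphism. -/
lemma exists_aut (s : Set ℂ) (hs : IsTranscendenceBasis ℤ ((↑) : s → ℂ)) (e : Equiv.Perm s) :
    ∃ θ : ℂ ≃+* ℂ, ∀ x : s, θ x = e x := by
  let v : s → ℂ := (↑)
  let _ := IsAlgClosed.isAlgClosure_of_transcendence_basis v hs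
  let e' : Algebra.adjoin ℤ (Set.range v) ≃+* Algebra.adjoin ℤ (Set.range v) :=
    hs.1.aevalEquiv.symm.toRingEquiv.trans
      (((MvPolynomial.renameEquiv ℤ e).toRingEquiv).trans hs.1.aevalEquiv.toRingEquiv)
  refine ⟨IsAlgClosure.equivOfEquiv ℂ ℂ e', fun x => ?_⟩
  have hx : (x : ℂ) = algebraMap (Algebra.adjoin ℤ (Set.range v)) ℂ
      (hs.1.aevalEquiv (MvPolynomial.X x)) := by
    rw [AlgebraicIndependent.algebraMap_aevalEquiv, MvPolynomial.aeval_X]
  rw [hx, IsAlgClosure.equivOfEquiv_algebraMap]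
  have h2 : e' (hs.1.aevalEquiv (MvPolynomial.X x)) = hs.1.aevalEquiv (MvPolynomial.X (e x)) := by
    change hs.1.aevalEquiv (MvPolynomial.rename e
      (hs.1.aevalEquiv.symm (hs.1.aevalEquiv (MvPolynomial.X x)))) = _
    rw [AlgEquiv.symm_apply_apply, MvPolynomial.rename_X]
  rw [h2, AlgebraicIndependent.algebraMap_aevalEquiv, MvPolynomial.aeval_X]

/-- There is a transcendence basis of `ℂ` indexed by `ℝ`. -/
lemma exists_real_basis : ∃ b : ℝ → ℂ, Function.Injective b ∧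
    ∀ e : Equiv.Perm ℝ, ∃ θ : ℂ ≃+* ℂ, ∀ x : ℝ, θ (b x) = b (e x) := by
  obtain ⟨s, hs⟩ := exists_isTranscendenceBasis ℤ ℂ
  have hC : ℵ₀ < #ℂ := by
    rw [Cardinal.mk_complex]
    exact Cardinal.aleph0_lt_continuum
  have h1 := IsAlgClosed.cardinal_eq_cardinal_transcendence_basis_of_aleph0_lt _ hs
    (le_of_eq mk_int) hC
  have h2 : #ℝ = #s := by
    rw [Cardinal.lift_id, Cardinal.lift_id] at h1
    rw [← h1, Cardinal.mk_complex, Cardinal.mk_real]
  obtain ⟨f⟩ := Cardinal.eq.1 h2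
  refine ⟨fun x => f x, fun x y h => f.injective (Subtype.ext h), fun e => ?_⟩
  obtain ⟨θ, hθ⟩ := exists_aut s hs ((f.symm.trans e).trans f)
  refine ⟨θ, fun x => ?_⟩
  rw [hθ]
  simp

end Pool.Agent.H935.FF
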