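import Pool.Graph.R_seed8.Helper165.Defs
import Pool.Graph.R_seed8.TH215.TM.Cats

/-!
Definitions: Fano varieties over `ℂ`, Fano hosts, deformation equivalence and the Fano function.
-/

set_option autoImplicit false

open CategoryTheory Limits AlgebraicGeometry TopologicalSpace Pretriangulated
open Pool.Agent.Helper165 Pool.Agent.TH215.TM

namespace Pool.Agent.H935.FF

/-- The scheme `Spec ℂ`. -/
noncomputable abbrev SpecC : Scheme.{0} := Spec (CommRingCat.of ℂ)

/-- The map `ℂ → Γ(X, ⊤)` given by the structure morphism of a scheme over `ℂ`. -/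
noncomputable def strMap {X : Scheme.{0}} (π : X ⟶ SpecC) : ℂ →+* Γ(X, ⊤) :=
  ((Scheme.ΓSpecIso (CommRingCat.of ℂ)).inv ≫ π.appTop).hom

/-- The endomorphism `φ` of the sheaf of modules `M` is the multiplication by the global
function `a`: on an open subset `U` it is the multiplication by the restriction of `a` to `U`. -/
def IsMul {X : Scheme.{0}} (a : Γ(X, ⊤)) {M : X.Modules} (φ : M ⟶ M) : Prop :=
  ∀ (U : X.Opens) (m : Γ(M, U)),
    (φ.app U).hom m = X.presheaf.map (homOfLE (le_top : U ≤ ⊤)).op a • m

section derived

attribute [local instance] HasDerivedCategory.standard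

/-- The endomorphism `ψ` of the object `E` of `D^b(coh X)` is the multiplication by the global
function `a`: it is the class of the endomorphism of a complex of sheaves of modules which is the
multiplication by `a` in each degree. -/
def IsMulD {X : Scheme.{0}} (a : Γ(X, ⊤)) {E : DbCoh X} (ψ : E ⟶ E) : Prop :=
  ∃ (K : CochainComplex X.Modules ℤ) (e : DerivedCategory.Q.obj K ≅ E.obj) (φ : K ⟶ K),
    (∀ i, IsMul a (φ.f i)) ∧ (isDbCoh X).ι.map ψ = e.inv ≫ DerivedCategory.Q.map φ ≫ e.hom

/-- The functor `F : D^b(coh Y) ⥤ D^b(coh X)` is `ℂ`-linear: for every complex number `c` and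
every object `E`, it sends the multiplication by `c` on `E` to the multiplication by `c` on
`F(E)`. As `c f` is the composite of `f` and the multiplication by `c`, this says that
`F (c f) = c (F f)` for all morphisms `f`. -/
def IsLinearOver {Y X : Scheme.{0}} (πY : Y ⟶ SpecC) (πX : X ⟶ SpecC)
    (F : DbCoh Y ⥤ DbCoh X) : Prop :=
  ∀ (c : ℂ) (E : DbCoh Y) (ψ : E ⟶ E), IsMulD (strMap πY c) ψ → IsMulD (strMap πX c) (F.map ψ)

/-- The functor `F : D^b(coh Y) ⥤ D^b(coh X)` is exact: it commutes with the shifts and sends
distinguished triangles to distinguished triangles. Triangles in `D^b(coh X)` are distinguished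
when they are distinguished in the derived category of sheaves of modules. -/
def IsExact {Y X : Scheme.{0}} (F : DbCoh Y ⥤ DbCoh X) : Prop :=
  ∃ _ : F.CommShift ℤ, ∀ T : Triangle (DbCoh Y),
    (isDbCoh Y).ι.mapTriangle.obj T ∈ distTriang (DerivedCategory Y.Modules) →
    (F ⋙ (isDbCoh X).ι).mapTriangle.obj T ∈ distTriang (DerivedCategory X.Modules)

/-- There is a fully faithful exact `ℂ`-linear functor `D^b(coh Y) ⥤ D^b(coh X)`. -/
def Embeds (Y X : Over SpecC) : Prop :=
  ∃ F : DbCoh Y.left ⥤ DbCoh X.left, F.Full ∧ F.Faithful ∧ IsExact F ∧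
    IsLinearOver Y.hom X.hom F

/-- There is a fully faithful exact functor `D^b(coh Y) ⥤ D^b(coh X)`, not necessarily
`ℂ`-linear. -/
def EmbedsNonlinear (Y X : Over SpecC) : Prop :=
  ∃ F : DbCoh Y.left ⥤ DbCoh X.left, F.Full ∧ F.Faithful ∧ IsExact F

end derived

section fano

variable {K M : Type*} [Field K] [AddCommGroup M] [Module K M] (d : K → M) (n : ℕ)

/-- Let `d : K → M` be a map from a field to a vector space (in practice the universal derivation
of the function field of an `n`-dimensional variety). For a rational `n`-form `η` and `h` in `K`,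
the rational `n`-form `h η` generates the `n`-forms regular on the local ring `O`. This implies
that `η` is not zero. -/
def GeneratesWith (η : ⋀[K]^n M) (O : Set K) (h : K) : Prop := IsGenerator d n O (h • η)

/-- For a nonzero rational `n`-form `η` and a rational function `g`, the rational section
`g η^{-m}` of the `m`-th power of the anticanonical sheaf is regular at the point with local ring
`O`: if `h η` generates the `n`-forms regular on `O`, then `g η^{-m} = g h^m (h η)^{-m}` where
`g h^m` is in `O`. -/
def SecRegular (η : ⋀[K]^n M) (m : ℕ) (g : K) (O : Set K) : Prop :=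
  ∃ h : K, GeneratesWith d n η O h ∧ g * h ^ m ∈ O

/-- The rational section `g η^{-m}` of the `m`-th power of the anticanonical sheaf is regular and
does not vanish at the point with local ring `O`. -/
def SecNonvanishing (η : ⋀[K]^n M) (m : ℕ) (g : K) (O : Set K) : Prop :=
  ∃ h : K, GeneratesWith d n η O h ∧ g * h ^ m ∈ O ∧ ∃ b ∈ O, g * h ^ m * b = 1

/-- Ampleness of the anticanonical sheaf of `X` in terms of the local rings `O y` of `X` in its
function field `K`: for each point `x` there are `m ≥ 1` and a global section of the `m`-th power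
of the anticanonical sheaf whose nonvanishing locus is an affine open subset containing `x`.
Sections of this power are written as `g η^{-m}` for a fixed rational `n`-form `η`, with `g` a
rational function. -/
def AmpleInverse {X : Scheme.{0}} (O : X → Set K) : Prop :=
  ∃ η : ⋀[K]^n M, ∀ x : X, ∃ m : ℕ, 0 < m ∧
    ∃ g : K, (∀ y : X, SecRegular d n η m g (O y)) ∧
      ∃ U : X.Opens, IsAffineOpen U ∧ x ∈ U ∧ ∀ y : X, y ∈ U ↔ SecNonvanishing d n η m g (O y)

end fano

/-- The anticanonical sheaf of the `n`-dimensional smooth variety `X` over `ℂ` is ample: see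
`AmpleInverse`, applied to the function field of `X`, its universal derivation over `ℂ`, and the
local rings of `X`. -/
def AntiAmple (n : ℕ) {X : Scheme.{0}} [IsIntegral X] (π : X ⟶ SpecC) : Prop :=
  letI : Algebra ℂ X.functionField := (constants π).toAlgebra
  AmpleInverse (differential ℂ X.functionField) n fun y : X => localRing (𝟙 X) y

/-- `X` is an irreducible Fano variety of dimension `n` over `ℂ`: it is integral, smooth of
relative dimension `n` and proper over `ℂ`, and its anticanonical sheaf is ample (in particular
`X` is projective). -/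
def IsFano (n : ℕ) (X : Over SpecC) : Prop :=
  ∃ _ : IsIntegral X.left, SmoothOfRelativeDimension n X.hom ∧ IsProper X.hom ∧ AntiAmple n X.hom

/-- `X` is the fibre of `p : E ⟶ B` at the `ℂ`-point `b` of `B`. -/
def IsFibre {E B : Scheme.{0}} (p : E ⟶ B) (b : SpecC ⟶ B) (X : Over SpecC) : Prop :=
  ∃ j : X.left ⟶ E, IsPullback j X.hom p b

/-- `X₁` and `X₂` are fibres of one smooth proper family with connected base of locally finite
type over `ℂ`, all of whose fibres are irreducible Fano varieties of dimension `n`. (Such a family
is projective locally on the base, by the relative anticanonical sheaf.) -/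
def DeformStep (n : ℕ) (X₁ X₂ : Over SpecC) : Prop :=
  ∃ (B E : Scheme.{0}) (q : B ⟶ SpecC) (p : E ⟶ B), ConnectedSpace B ∧ LocallyOfFiniteType q ∧
    SmoothOfRelativeDimension n p ∧ IsProper p ∧
    (∀ (b : SpecC ⟶ B) (X : Over SpecC), b ≫ q = 𝟙 SpecC → IsFibre p b X → IsFano n X) ∧
    ∃ b₁ b₂ : SpecC ⟶ B, b₁ ≫ q = 𝟙 SpecC ∧ b₂ ≫ q = 𝟙 SpecC ∧ IsFibre p b₁ X₁ ∧
      IsFibre p b₂ X₂

/-- The number of classes, for the equivalence relation generated by `DeformStep n`, which contain
an irreducible Fano variety `X` of dimension `n` with the property `H X`. -/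
noncomputable def countClasses (n : ℕ) (H : Over SpecC → Prop) : Cardinal :=
  Cardinal.mk {c : Quot (DeformStep n) // ∃ X, IsFano n X ∧ H X ∧ Quot.mk _ X = c}

/-- The Fano function `κ_Y`: the number of irreducible Fano hosts of `Y` of dimension `n`, up to
deformation equivalence. -/
noncomputable def fanoFunction (Y : Over SpecC) (n : ℕ) : Cardinal := countClasses n (Embeds Y)

/-- The Fano function `κ_Y` when hosts are defined by exact functors which need not be
`ℂ`-linear. -/
noncomputable def fanoFunctionNonlinear (Y : Over SpecC) (n : ℕ) : Cardinal :=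
  countClasses n (EmbedsNonlinear Y)

end Pool.Agent.H935.FF
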