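import Pool.Agent.H935.FF.Semi
import Pool.Agent.H935.FF.Aut

/-!
A continuum of pairwise non-isomorphic conjugate del Pezzo surfaces.
-/

set_option autoImplicit false

open AlgebraicGeometry CategoryTheory TopologicalSpace
open Pool.Agent.Helper165

namespace Pool.Agent.H935.FF

lemma comp_aux {X : Scheme.{0}} (f : X ⟶ X) (π : X ⟶ SpecC) (σ τ : ℂ ≃+* ℂ)
    (h : f ≫ π ≫ specAut τ = π ≫ specAut σ) : f ≫ π = π ≫ specAut (τ.symm.trans σ) := by
  have h2 := congrArg (fun f => f ≫ specAut τ.symm) h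
  simp only [Category.assoc] at h2
  rwa [specAut_symm, Category.comp_id, specAut_comp] at h2

lemma exists_semi (X : Over SpecC) (σ τ : ℂ ≃+* ℂ) (i : twist σ X ≅ twist τ X) :
    ∃ e : X.left ≅ X.left, e.hom ≫ X.hom = X.hom ≫ specAut (τ.symm.trans σ) := by
  let f : X.left ⟶ X.left := i.hom.left
  let g : X.left ⟶ X.left := i.inv.left
  have h : f ≫ X.hom ≫ specAut τ = X.hom ≫ specAut σ := Over.w i.hom
  have h1 : f ≫ g = 𝟙 X.left := congrArg (fun k => k.left) i.hom_inv_id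
  have h2 : g ≫ f = 𝟙 X.left := congrArg (fun k => k.left) i.inv_hom_id
  exact ⟨⟨f, g, h1, h2⟩, comp_aux f X.hom σ τ h⟩

/-- An isomorphism between two conjugates of the surface `S_t`. -/
theorem conj_iso (t : ℂ) (ht0 : t ≠ 0) (ht1 : t ≠ 1) (ht2 : t ≠ 2) (σ τ : ℂ ≃+* ℂ)
    (h : Nonempty (twist σ (SO t) ≅ twist τ (SO t))) :
    t ∈ Subfield.closure {σ (τ.symm t)} := by
  obtain ⟨i⟩ := h
  obtain ⟨e, he⟩ := exists_semi (SO t) σ τ i
  exact semi t ht0 ht1 ht2 (τ.symm.trans σ) e he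

/-- The union of the fixed points of an automorphism is a subfield. -/
lemma closure_fixed (θ : ℂ ≃+* ℂ) (s x : ℂ) (hs : θ s = s) (hx : x ∈ Subfield.closure {s}) :
    θ x = x := by
  have h1 : Subfield.closure {s} ≤
      (RingHom.eqLocusField (θ : ℂ →+* ℂ) (RingHom.id ℂ)) := by
    rw [Subfield.closure_le]
    rintro _ rfl
    exact hs
  exact h1 hx

/-- There is a family of pairwise non-isomorphic del Pezzo surfaces, indexed by `ℝ`, which are
conjugate under automorphisms of `ℂ`. -/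
theorem exists_family : ∃ (t : ℂ) (σ : ℝ → (ℂ ≃+* ℂ)), IsFano 2 (SO t) ∧
    ∀ x y, x ≠ y → ¬Nonempty (twist (σ x) (SO t) ≅ twist (σ y) (SO t)) := by
  obtain ⟨b, hb, hθ⟩ := exists_real_basis
  choose θ hθ' using hθ
  have h01 : θ (Equiv.swap 0 1) (b 0) = b 1 := by
    rw [hθ', Equiv.swap_apply_left]
  have hne : b 1 ≠ b 0 := fun h => by
    have := hb h
    norm_num at this
  have ht0 : b 0 ≠ 0 := by
    intro h
    rw [h, map_zero] at h01
    exact hne (by rw [← h01, h])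
  have ht1 : b 0 ≠ 1 := by
    intro h
    rw [h, map_one] at h01
    exact hne (by rw [← h01, h])
  have ht2 : b 0 ≠ 2 := by
    intro h
    rw [h, map_ofNat] at h01
    exact hne (by rw [← h01, h])
  refine ⟨b 0, fun x => θ (Equiv.swap 0 x), SS_fano (b 0) ht0 ht1 ht2, ?_⟩
  intro x y hxy hiso
  have h1 := conj_iso (b 0) ht0 ht1 ht2 _ _ hiso
  have h2 : (θ (Equiv.swap 0 y)).symm (b 0) = b y := by
    rw [RingEquiv.symm_apply_eq, hθ', Equiv.swap_apply_right]
  rw [h2, hθ'] at h1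
  have h3 : Equiv.swap 0 x y ≠ 0 := by
    intro h
    have h4 : Equiv.swap 0 x y = Equiv.swap 0 x x := by rw [h, Equiv.swap_apply_right]
    exact hxy ((Equiv.swap 0 x).injective h4).symm
  set w := Equiv.swap 0 x y with hw
  obtain ⟨z, hz0, hzw⟩ : ∃ z : ℝ, z ≠ 0 ∧ z ≠ w := by
    by_cases hw1 : w = 1
    · exact ⟨2, by norm_num, by rw [hw1]; norm_num⟩
    · exact ⟨1, one_ne_zero, Ne.symm hw1⟩
  have h5 := closure_fixed (θ (Equiv.swap 0 z)) (b w) (b 0)
    (by rw [hθ', Equiv.swap_apply_of_ne_of_ne h3 hzw.symm]) h1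
  rw [hθ', Equiv.swap_apply_left] at h5
  exact hz0 (hb h5)

end Pool.Agent.H935.FF
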