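import Pool.Agent.H935.FF.Loc2

/-!
The surfaces are Fano.
-/

set_option autoImplicit false
set_option linter.unusedSimpArgs false

open AlgebraicGeometry CategoryTheory TopologicalSpace
open Pool.Agent.Helper165 KaehlerDifferential

namespace Pool.Agent.H935.FF

variable (t : ℂ)

attribute [local instance] algK

section

variable (ht0 : t ≠ 0) (ht1 : t ≠ 1) (ht2 : t ≠ 2)

include ht0 ht1 ht2 in
theorem gen_eta (i : Fin 3) (y : SS t) (hy : tE (VV t) (e3 t i) (e3_mem t i) ∉ pid (VV t) y) :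
    IsGenerator (differential ℂ (SS t).functionField) 2 (localRing (𝟙 (SS t)) y)
      ((E3 t i)⁻¹ • eta t) := by
  rw [← Oy_coe]
  have h := gen_Oy t ht0 ht1 ht2 i y hy
  obtain ⟨c, hc, hc'⟩ := omega_eq t i
  rw [hc'] at h
  have hcc : c * c = 1 := by
    rcases hc with rfl | rfl <;> ring
  have hcO : c ∈ Oy t y := by
    rcases hc with rfl | rfl
    · exact (Oy t y).one_mem
    · exact (Oy t y).neg_mem (Oy t y).one_mem
  have hci : c⁻¹ = c := by
    rcases hc with rfl | rfl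
    · exact inv_one
    · exact inv_neg_one
  have h2 := isGenerator_unit _ 2 (Oy t y) _ h c hcO (by rw [hci]; exact hcO) (by
    rintro rfl
    simp at hcc)
  rwa [smul_smul, hcc, one_smul] at h2

lemma E3_div_mem (i j : Fin 3) (y : SS t)
    (hy : tE (VV t) (e3 t j) (e3_mem t j) ∉ pid (VV t) y) :
    E3 t i * (E3 t j)⁻¹ ∈ localRing (𝟙 (SS t)) y := by
  rw [← Oy_coe]
  change E3 t i * (E3 t j)⁻¹ ∈ Oy t y
  rw [mem_Oy]
  refine ⟨1, e3 t i, e3 t j, by simpa using e3_mem t i, by simpa using e3_mem t j, hy, ?_⟩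
  rw [map_mul, map_inv₀, jL_E3, jL_E3, div_eq_mul_inv]

lemma eta_ne_zero : eta t ≠ 0 := by
  intro h
  obtain ⟨c, -, hc⟩ := omega_eq t 0
  apply form_ne_zero t 0
  rw [hc, h, smul_zero, smul_zero]

include ht0 ht1 ht2 in
lemma notMem_of_nonvanishing (i : Fin 3) (y : SS t)
    (h : SecNonvanishing (differential ℂ (SS t).functionField) 2 (eta t) 1 (E3 t i) (localRing (𝟙 (SS t)) y)) :
    tE (VV t) (e3 t i) (e3_mem t i) ∉ pid (VV t) y := by
  obtain ⟨j, hj⟩ := exists_e3_notMem t y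
  have g1 := gen_eta t ht0 ht1 ht2 j y hj
  obtain ⟨h', g2, h3, b, hb, h4⟩ := h
  rw [pow_one] at h3 h4
  rw [← Oy_coe] at g1 g2 h3 hb
  have hηη := eta_ne_zero t
  obtain ⟨a, ha, ha'⟩ := (g1.2 (h' • eta t)).1 ((g2.2 _).2 ⟨1, (Oy t y).one_mem, by rw [one_smul]⟩)
  rw [smul_smul] at ha'
  have h5 : h' = a * (E3 t j)⁻¹ := smul_left_injective _ hηη ha'
  have hi0 := E3_ne_zero t i
  have hj0 := E3_ne_zero t j
  have h6 : E3 t j * (E3 t i)⁻¹ = a * b := by
    rw [h5] at h4
    have : E3 t i * (a * (E3 t j)⁻¹) * b = (a * b) * (E3 t i * (E3 t j)⁻¹) := by ring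
    rw [this] at h4
    field_simp
    field_simp at h4
    linear_combination -h4
  have h7 : E3 t j * (E3 t i)⁻¹ ∈ Oy t y := by
    rw [h6]
    exact (Oy t y).mul_mem ha hb
  obtain ⟨n, p, q, hp, hq, hq', h8⟩ := (mem_Oy t y _).1 h7
  have hq0 := ne_zero_of_notMem t y n q hq hq'
  rw [map_mul, map_inv₀, jL_E3, jL_E3] at h8
  have hei := e3_ne_zero t i
  have h9 : q * e3 t j = p * e3 t i := by
    field_simp at h8
    linear_combination h8
  intro hcon
  have h10 : mon (VV t) n q hq * tE (VV t) (e3 t j) (e3_mem t j) =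
      mon (VV t) n p hp * tE (VV t) (e3 t i) (e3_mem t i) := by
    apply Subtype.ext
    simp only [tE, mon_mul]
    simp only [mon]
    rw [h9]
  have h11 : mon (VV t) n q hq * tE (VV t) (e3 t j) (e3_mem t j) ∈ (pid (VV t) y).toIdeal := by
    rw [h10]
    exact Ideal.mul_mem_left _ _ hcon
  rcases (inferInstance : (pid (VV t) y).toIdeal.IsPrime).mem_or_mem h11 with h | h
  · exact hq' h
  · exact hj h

include ht0 ht1 ht2 in
theorem SS_ample : AntiAmple 2 (SSπ t) := by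
  refine ⟨eta t, fun x => ?_⟩
  obtain ⟨i, hi⟩ := exists_e3_notMem t x
  refine ⟨1, one_pos, E3 t i, ?_, dPlus (VV t) (e3 t i) (e3_mem t i),
    dPlus_affine _ _ _, hi, ?_⟩
  · intro y
    obtain ⟨j, hj⟩ := exists_e3_notMem t y
    refine ⟨(E3 t j)⁻¹, gen_eta t ht0 ht1 ht2 j y hj, ?_⟩
    rw [pow_one]
    exact E3_div_mem t i j y hj
  · intro y
    constructor
    · intro hy
      have hi0 := E3_ne_zero t i
      have h1 : (1 : (SS t).functionField) ∈ localRing (𝟙 (SS t)) y := by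
        rw [← Oy_coe]
        exact (Oy t y).one_mem
      refine ⟨(E3 t i)⁻¹, gen_eta t ht0 ht1 ht2 i y hy, ?_, 1, h1, ?_⟩
      · rw [pow_one, mul_inv_cancel₀ hi0]
        exact h1
      · rw [pow_one, mul_inv_cancel₀ hi0, one_mul]
    · intro hy
      exact notMem_of_nonvanishing t ht0 ht1 ht2 i y hy

/-- The surface over `Spec ℂ`. -/
noncomputable def SO : Over SpecC := Over.mk (SSπ t)

include ht0 ht1 ht2 in
theorem SS_fano : IsFano 2 (SO t) :=
  ⟨SS_integral t, SS_smooth t ht0 ht1 ht2, SS_proper t, SS_ample t ht0 ht1 ht2⟩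

end

end Pool.Agent.H935.FF
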