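import Pool.Agent.H935.FF.Alg

/-!
The field `ℂ(u, v)(s, r)` with `s² = 1 + u² + v²` and `r² = 1 + 2 u² + t v²`.
-/

set_option autoImplicit false
set_option linter.unusedSimpArgs false

open MvPolynomial

namespace Pool.Agent.H935.FF

section general

variable {F L : Type*} [Field F] [Field L] [Algebra F L]

lemma indep_one {P : F} {s : L} (hs : s ^ 2 = algebraMap F L P) (hP : ∀ f : F, f ^ 2 ≠ P)
    (a b : F) (h : algebraMap F L a + algebraMap F L b * s = 0) : a = 0 ∧ b = 0 := by
  by_cases hb : b = 0
  · subst hb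
    rw [map_zero, zero_mul, add_zero, map_eq_zero] at h
    exact ⟨h, rfl⟩
  · exfalso
    apply hP (-(a / b))
    apply (algebraMap F L).injective
    have hb' : algebraMap F L b ≠ 0 := by rwa [Ne, map_eq_zero]
    rw [← hs, map_pow, map_neg, map_div₀]
    have : s = -(algebraMap F L a / algebraMap F L b) := by
      field_simp
      linear_combination h
    rw [this]

lemma indep_four [CharZero F] {P Q : F} {s r : L} (hs : s ^ 2 = algebraMap F L P)
    (hr : r ^ 2 = algebraMap F L Q) (hP : ∀ f : F, f ^ 2 ≠ P) (hQ : ∀ f : F, f ^ 2 ≠ Q)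
    (hPQ : ∀ f : F, f ^ 2 ≠ P * Q) (a b c d : F)
    (h : algebraMap F L a + algebraMap F L b * s + algebraMap F L c * r +
      algebraMap F L d * (s * r) = 0) : a = 0 ∧ b = 0 ∧ c = 0 ∧ d = 0 := by
  have hN : c ^ 2 - d ^ 2 * P = 0 → c = 0 ∧ d = 0 := by
    intro h0
    by_cases hd : d = 0
    · subst hd
      simp at h0
      exact ⟨h0, rfl⟩
    · exfalso
      apply hP (c / d)
      field_simp
      linear_combination h0
  by_cases hcd : c ^ 2 - d ^ 2 * P = 0
  · obtain ⟨rfl, rfl⟩ := hN hcd
    simp only [map_zero, zero_mul, add_zero] at h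
    obtain ⟨rfl, rfl⟩ := indep_one hs hP a b h
    exact ⟨rfl, rfl, rfl, rfl⟩
  · exfalso
    set N := c ^ 2 - d ^ 2 * P with hNdef
    set α := -(a * c - b * d * P) / N with hα
    set β := -(b * c - a * d) / N with hβ
    have hN' : algebraMap F L N ≠ 0 := by rwa [Ne, map_eq_zero]
    have h1 : r = algebraMap F L α + algebraMap F L β * s := by
      apply mul_left_cancel₀ hN'
      have e1 : algebraMap F L N * algebraMap F L α =
          -(algebraMap F L a * algebraMap F L c - algebraMap F L b * algebraMap F L d *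
            algebraMap F L P) := by
        rw [← map_mul, hα, mul_div_cancel₀ _ hcd]
        simp
      have e2 : algebraMap F L N * algebraMap F L β =
          -(algebraMap F L b * algebraMap F L c - algebraMap F L a * algebraMap F L d) := by
        rw [← map_mul, hβ, mul_div_cancel₀ _ hcd]
        simp
      rw [mul_add, ← mul_assoc, e1, e2, hNdef]
      simp only [map_sub, map_mul, map_pow]
      linear_combination (algebraMap F L c - algebraMap F L d * s) * h +
        (algebraMap F L d ^ 2 * r + algebraMap F L b * algebraMap F L d) * hs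
    have h2 : algebraMap F L (α ^ 2 + β ^ 2 * P - Q) + algebraMap F L (2 * α * β) * s = 0 := by
      simp only [map_sub, map_add, map_mul, map_pow, map_ofNat]
      rw [← hr, h1]
      linear_combination (-algebraMap F L β ^ 2) * hs
    obtain ⟨h3, h4⟩ := indep_one hs hP _ _ h2
    have h5 : α = 0 ∨ β = 0 := by
      have : (2 : F) ≠ 0 := two_ne_zero
      rcases mul_eq_zero.1 h4 with h | h
      · rcases mul_eq_zero.1 h with h | h
        · exact absurd h this
        · exact Or.inl h
      · exact Or.inr h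
    rcases h5 with h5 | h5
    · apply hPQ (β * P)
      rw [h5] at h3
      linear_combination P * h3
    · apply hQ α
      rw [h5] at h3
      linear_combination h3

/-- A polynomial with a simple zero is not a square. -/
lemma not_sq (P : MvPolynomial (Fin 2) ℂ) (pt : Fin 2 → ℂ) (h0 : eval pt P = 0)
    (h1 : eval pt (pderiv 0 P) ≠ 0) (f : FractionRing (MvPolynomial (Fin 2) ℂ)) :
    f ^ 2 ≠ algebraMap _ _ P := by
  intro hf
  have hint : IsIntegral (MvPolynomial (Fin 2) ℂ) f := by
    refine ⟨Polynomial.X ^ 2 - Polynomial.C P, Polynomial.monic_X_pow_sub_C P two_ne_zero, ?_⟩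
    simp [hf]
  obtain ⟨g, rfl⟩ := IsIntegrallyClosed.isIntegral_iff.1 hint
  rw [← map_pow] at hf
  have hg := IsFractionRing.injective (MvPolynomial (Fin 2) ℂ) _ hf
  apply h1
  rw [← hg] at h0 ⊢
  have h2 : eval pt g = 0 := by
    rw [map_pow] at h0
    exact pow_eq_zero_iff two_ne_zero |>.1 h0
  rw [Derivation.leibniz_pow]
  simp [h2]

end general

section inv

variable {k K : Type*} [Field k] [Field K] [Algebra k K]

/-- Reciprocal of a polynomial. -/
lemma exists_recip (u v : K) (hu : u ≠ 0) (p : MvPolynomial (Fin 2) k) :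
    ∃ (N : ℕ) (P : MvPolynomial (Fin 2) k), P.totalDegree ≤ N ∧
      aeval ![u, v] P = u ^ N * aeval ![u⁻¹, v * u⁻¹] p ∧
      aeval ![u, v] p = u ^ N * aeval ![u⁻¹, v * u⁻¹] P := by
  have hui : u * u⁻¹ = 1 := mul_inv_cancel₀ hu
  have hpow : ∀ n : ℕ, u ^ n * u⁻¹ ^ n = 1 := fun n => by rw [← mul_pow, hui, one_pow]
  induction p using MvPolynomial.induction_on with
  | C z => exact ⟨0, C z, by simp, by simp [algHom_C], by simp [algHom_C]⟩
  | add p q hp hq =>
    obtain ⟨N, P, hd, h1, h2⟩ := hp
    obtain ⟨N', P', hd', h1', h2'⟩ := hq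
    refine ⟨N + N', X 0 ^ N' * P + X 0 ^ N * P', ?_, ?_, ?_⟩
    · refine (totalDegree_add _ _).trans (max_le ?_ ?_)
      · refine (totalDegree_mul _ _).trans ?_
        have := totalDegree_X_pow (R := k) (0 : Fin 2) N'
        omega
      · refine (totalDegree_mul _ _).trans ?_
        have := totalDegree_X_pow (R := k) (0 : Fin 2) N
        omega
    · simp only [map_add, map_mul, map_pow, aeval_X, Matrix.cons_val_zero, h1, h1']
      ring
    · simp only [map_add, map_mul, map_pow, aeval_X, Matrix.cons_val_zero, h2, h2']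
      rw [pow_add]
      linear_combination (-(u ^ N * aeval ![u⁻¹, v * u⁻¹] P)) * hpow N' -
        (u ^ N' * aeval ![u⁻¹, v * u⁻¹] P') * hpow N
  | mul_X p i hp =>
    obtain ⟨N, P, hd, h1, h2⟩ := hp
    fin_cases i
    · refine ⟨N + 1, P, by omega, ?_, ?_⟩
      · simp only [map_mul, aeval_X, Fin.zero_eta, Matrix.cons_val_zero, h1]
        rw [pow_succ]
        linear_combination (-(u ^ N * aeval ![u⁻¹, v * u⁻¹] p)) * hui
      · simp only [map_mul, aeval_X, Fin.zero_eta, Matrix.cons_val_zero, h2]
        ring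
    · refine ⟨N + 1, P * X 1, ?_, ?_, ?_⟩
      · refine (totalDegree_mul _ _).trans ?_
        rw [totalDegree_X]
        omega
      · simp only [map_mul, aeval_X, Fin.mk_one, Matrix.cons_val_one, Matrix.cons_val_fin_one, h1]
        rw [pow_succ]
        linear_combination (-(u ^ N * aeval ![u⁻¹, v * u⁻¹] p) * v) * hui
      · simp only [map_mul, aeval_X, Fin.mk_one, Matrix.cons_val_one, Matrix.cons_val_fin_one, h2]
        rw [pow_succ]
        linear_combination (-(u ^ N * aeval ![u⁻¹, v * u⁻¹] P) * v) * hui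

lemma algInd_inv (u v : K) (h : AlgebraicIndependent k ![u, v]) :
    AlgebraicIndependent k ![u⁻¹, v * u⁻¹] := by
  have hu : u ≠ 0 := by
    intro h0
    have h1 : aeval ![u, v] (X 0 : MvPolynomial (Fin 2) k) = 0 := by
      simp [h0]
    exact X_ne_zero (R := k) (0 : Fin 2) ((algebraicIndependent_iff.1 h) _ h1)
  rw [algebraicIndependent_iff]
  intro p hp
  obtain ⟨N, P, -, h1, h2⟩ := exists_recip u v hu p
  rw [hp, mul_zero] at h1
  have hP : P = 0 := (algebraicIndependent_iff.1 h) P h1
  rw [hP, map_zero, mul_zero] at h2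
  exact (algebraicIndependent_iff.1 h) p h2

lemma algInd_swap (u v : K) (h : AlgebraicIndependent k ![u, v]) :
    AlgebraicIndependent k ![v, u] := by
  have h1 := h.comp (Equiv.swap (0 : Fin 2) 1) (Equiv.injective _)
  convert h1 using 1
  funext i
  fin_cases i <;> rfl

end inv

end Pool.Agent.H935.FF
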