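import Mathlib

/-!
Smoothness of the surfaces `S² = a x² + b y² + c`, `T² = a' x² + b' y² + c'`.
-/

set_option autoImplicit false
set_option linter.unusedSimpArgs false

open MvPolynomial

namespace Pool.Agent.H935.FF

/-- Nondegenerate coefficients. -/
structure Nondeg (a b c a' b' c' : ℂ) : Prop where
  ha : a ≠ 0
  hb : b ≠ 0
  hc : c ≠ 0
  ha' : a' ≠ 0
  hb' : b' ≠ 0
  hc' : c' ≠ 0
  hab : a * b' - a' * b ≠ 0
  hac : a * c' - a' * c ≠ 0
  hbc : b * c' - b' * c ≠ 0

section prime

variable {R : Type*} [CommRing R] [Algebra ℂ R] (M : Ideal R) [M.IsPrime]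

lemma const_notMem (z : ℂ) (hz : z ≠ 0) : algebraMap ℂ R z ∉ M := by
  intro h
  apply Ideal.IsPrime.ne_top (I := M) inferInstance
  rw [Ideal.eq_top_iff_one]
  have h2 := M.mul_mem_left (algebraMap ℂ R z⁻¹) h
  rwa [← map_mul, inv_mul_cancel₀ hz, map_one] at h2

lemma minors_prime (x y S T : R) (a b c a' b' c' : ℂ) (hN : Nondeg a b c a' b' c')
    (h1 : S ^ 2 = algebraMap ℂ R a * x ^ 2 + algebraMap ℂ R b * y ^ 2 + algebraMap ℂ R c)
    (h2 : T ^ 2 = algebraMap ℂ R a' * x ^ 2 + algebraMap ℂ R b' * y ^ 2 + algebraMap ℂ R c')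
    (hxy : x * y ∈ M) (hxS : x * S ∈ M) (hxT : x * T ∈ M) (hyS : y * S ∈ M) (hyT : y * T ∈ M)
    (hST : S * T ∈ M) : False := by
  have hP : M.IsPrime := inferInstance
  have sq : ∀ z ∈ M, ∀ w : R, w * z ^ 2 ∈ M := fun z hz w =>
    M.mul_mem_left w (M.pow_mem_of_mem hz 2 two_pos)
  have sq1 : ∀ z ∈ M, z ^ 2 ∈ M := fun z hz => M.pow_mem_of_mem hz 2 two_pos
  by_cases hx : x ∈ M
  · by_cases hy : y ∈ M
    · rcases hP.mem_or_mem hST with hS | hT
      · apply const_notMem M c hN.hc
        have : algebraMap ℂ R c = S ^ 2 - algebraMap ℂ R a * x ^ 2 - algebraMap ℂ R b * y ^ 2 := by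
          rw [h1]; ring
        rw [this]
        exact M.sub_mem (M.sub_mem (sq1 S hS) (sq x hx _)) (sq y hy _)
      · apply const_notMem M c' hN.hc'
        have : algebraMap ℂ R c' = T ^ 2 - algebraMap ℂ R a' * x ^ 2 -
            algebraMap ℂ R b' * y ^ 2 := by
          rw [h2]; ring
        rw [this]
        exact M.sub_mem (M.sub_mem (sq1 T hT) (sq x hx _)) (sq y hy _)
    · have hS : S ∈ M := (hP.mem_or_mem hyS).resolve_left hy
      have hT : T ∈ M := (hP.mem_or_mem hyT).resolve_left hy
      apply const_notMem M _ hN.hbc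
      have : algebraMap ℂ R (b * c' - b' * c) = algebraMap ℂ R b * (T ^ 2) -
          algebraMap ℂ R b' * (S ^ 2) - (algebraMap ℂ R b * algebraMap ℂ R a' -
          algebraMap ℂ R b' * algebraMap ℂ R a) * x ^ 2 := by
        rw [h1, h2]
        simp only [map_sub, map_mul]
        ring
      rw [this]
      exact M.sub_mem (M.sub_mem (sq T hT _) (sq S hS _)) (sq x hx _)
  · have hy : y ∈ M := (hP.mem_or_mem hxy).resolve_left hx
    have hS : S ∈ M := (hP.mem_or_mem hxS).resolve_left hx
    have hT : T ∈ M := (hP.mem_or_mem hxT).resolve_left hx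
    apply const_notMem M _ hN.hac
    have : algebraMap ℂ R (a * c' - a' * c) = algebraMap ℂ R a * (T ^ 2) -
        algebraMap ℂ R a' * (S ^ 2) - (algebraMap ℂ R a * algebraMap ℂ R b' -
        algebraMap ℂ R a' * algebraMap ℂ R b) * y ^ 2 := by
      rw [h1, h2]
      simp only [map_sub, map_mul]
      ring
    rw [this]
    exact M.sub_mem (M.sub_mem (sq T hT _) (sq S hS _)) (sq y hy _)

end prime

/-- The localization at the Jacobian of a finite presentation is standard smooth. -/
theorem isStandardSmooth_localizationAway {R S ι σ : Type} [CommRing R] [CommRing S] [Algebra R S]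
    [Finite ι] [Finite σ] (P : Algebra.PreSubmersivePresentation R S ι σ) (g : S)
    (hg : P.jacobian ∣ g) (T : Type) [CommRing T] [Algebra S T] [Algebra R T]
    [IsScalarTower R S T] [IsLocalization.Away g T] (n : ℕ) (hn : P.dimension = n) :
    Algebra.IsStandardSmoothOfRelativeDimension n R T := by
  have hu : IsUnit (algebraMap S T g) := IsLocalization.Away.algebraMap_isUnit g
  let Q : Algebra.PreSubmersivePresentation S T Unit Unit :=
    Algebra.PreSubmersivePresentation.localizationAway T g
  let P' : Algebra.SubmersivePresentation R T (Unit ⊕ ι) (Unit ⊕ σ) :=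
  { __ := Q.comp P
    jacobian_isUnit := by
      rw [Algebra.PreSubmersivePresentation.comp_jacobian_eq_jacobian_smul_jacobian,
        Algebra.PreSubmersivePresentation.localizationAway_jacobian, Algebra.smul_def]
      refine IsUnit.mul ?_ hu
      exact isUnit_of_dvd_unit (map_dvd _ hg) hu }
  refine P'.isStandardSmoothOfRelativeDimension ?_
  have h1 : P.dimension = Nat.card ι - Nat.card σ := rfl
  have h2 : P'.dimension = Nat.card (Unit ⊕ ι) - Nat.card (Unit ⊕ σ) := rfl
  rw [h2, ← hn, h1, Nat.card_sum, Nat.card_sum, Nat.card_unique]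
  omega

section chart

variable (a b c a' b' c' : ℂ)

/-- The first equation. -/
noncomputable def F1 : MvPolynomial (Fin 4) ℂ := X 2 ^ 2 - (C a * X 0 ^ 2 + C b * X 1 ^ 2 + C c)

/-- The second equation. -/
noncomputable def F2 : MvPolynomial (Fin 4) ℂ :=
  X 3 ^ 2 - (C a' * X 0 ^ 2 + C b' * X 1 ^ 2 + C c')

lemma pderiv_F1 (i : Fin 4) : pderiv i (F1 a b c) =
    ![- (2 * C a * X 0), - (2 * C b * X 1), 2 * X 2, 0] i := by
  fin_cases i <;> simp [F1, pderiv_X] <;> ring

lemma pderiv_F2 (i : Fin 4) : pderiv i (F2 a' b' c') =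
    ![- (2 * C a' * X 0), - (2 * C b' * X 1), 0, 2 * X 3] i := by
  fin_cases i <;> simp [F2, pderiv_X] <;> ring

variable {S : Type} [CommRing S] [Algebra ℂ S] (w : Fin 4 → S)
  (hsurj : Function.Surjective (aeval w : MvPolynomial (Fin 4) ℂ →ₐ[ℂ] S))
  (hker : ∀ p : MvPolynomial (Fin 4) ℂ, aeval w p = 0 ↔
    p ∈ Ideal.span {F1 a b c, F2 a' b' c'})

/-- The presentation of the chart ring by two relations. -/
noncomputable def PS (m : Fin 2 → Fin 4) (hm : Function.Injective m) :
    Algebra.PreSubmersivePresentation ℂ S (Fin 4) (Fin 2) :=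
  { toGenerators := .ofSurjective w hsurj
    relation := ![F1 a b c, F2 a' b' c']
    span_range_relation_eq_ker := by
      rw [Matrix.range_cons, Matrix.range_cons, Matrix.range_empty, Set.union_empty]
      ext z
      exact (hker z).symm
    map := m
    map_inj := hm }

lemma PS_jacobian (m : Fin 2 → Fin 4) (hm : Function.Injective m) :
    (PS a b c a' b' c' w hsurj hker m hm).jacobian =
      aeval w (pderiv (m 0) (F1 a b c)) * aeval w (pderiv (m 1) (F2 a' b' c')) -
      aeval w (pderiv (m 0) (F2 a' b' c')) * aeval w (pderiv (m 1) (F1 a b c)) := by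
  rw [Algebra.PreSubmersivePresentation.jacobian_eq_jacobiMatrix_det, Matrix.det_fin_two]
  simp only [Algebra.PreSubmersivePresentation.jacobiMatrix_apply]
  change aeval w (pderiv (m 0) (F1 a b c) * pderiv (m 1) (F2 a' b' c') -
    pderiv (m 0) (F2 a' b' c') * pderiv (m 1) (F1 a b c)) = _
  rw [map_sub, map_mul, map_mul]

lemma PS_dimension (m : Fin 2 → Fin 4) (hm : Function.Injective m) :
    (PS a b c a' b' c' w hsurj hker m hm).dimension = 2 := by
  have h1 : (PS a b c a' b' c' w hsurj hker m hm).dimension = Nat.card (Fin 4) - Nat.card (Fin 2) :=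
    rfl
  rw [h1]
  simp

include hsurj hker in
theorem chart_smooth (hN : Nondeg a b c a' b' c') :
    RingHom.Locally (RingHom.IsStandardSmoothOfRelativeDimension 2) (algebraMap ℂ S) := by
  refine ⟨{z | ∃ (m : Fin 2 → Fin 4) (hm : Function.Injective m),
    (PS a b c a' b' c' w hsurj hker m hm).jacobian ∣ z}, ?_, ?_⟩
  · by_contra hne
    obtain ⟨M, hM, hle⟩ := Ideal.exists_le_maximal _ hne
    have hP : M.IsPrime := hM.isPrime
    have key : ∀ (m : Fin 2 → Fin 4) (hm : Function.Injective m) (z : ℂ) (g : S), z ≠ 0 →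
        (PS a b c a' b' c' w hsurj hker m hm).jacobian = algebraMap ℂ S z * g → g ∈ M := by
      intro m hm z g hz h
      have h1 : algebraMap ℂ S z * g ∈ M := by
        apply hle
        apply Ideal.subset_span
        exact ⟨m, hm, by rw [h]⟩
      exact (hP.mem_or_mem h1).resolve_left (const_notMem M z hz)
    have e1 : w 2 ^ 2 = algebraMap ℂ S a * w 0 ^ 2 + algebraMap ℂ S b * w 1 ^ 2 +
        algebraMap ℂ S c := by
      have := (hker (F1 a b c)).2 (Ideal.subset_span (by simp))
      simp only [F1, map_sub, map_add, map_mul, map_pow, aeval_X, algHom_C] at this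
      linear_combination this
    have e2 : w 3 ^ 2 = algebraMap ℂ S a' * w 0 ^ 2 + algebraMap ℂ S b' * w 1 ^ 2 +
        algebraMap ℂ S c' := by
      have := (hker (F2 a' b' c')).2 (Ideal.subset_span (by simp))
      simp only [F2, map_sub, map_add, map_mul, map_pow, aeval_X, algHom_C] at this
      linear_combination this
    have h4 : algebraMap ℂ S 4 = 4 := map_ofNat (algebraMap ℂ S) 4
    refine minors_prime M (w 0) (w 1) (w 2) (w 3) a b c a' b' c' hN e1 e2 ?_ ?_ ?_ ?_ ?_ ?_
    · refine key ![0, 1] (by decide) (4 * (a * b' - a' * b)) _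
        (mul_ne_zero (by norm_num) hN.hab) ?_
      rw [PS_jacobian]
      simp only [pderiv_F1, pderiv_F2, Matrix.cons_val, map_mul, map_neg, map_zero, map_sub,
        h4, aeval_X, algHom_C, map_ofNat]
      ring
    · refine key ![0, 2] (by decide) (4 * a') _ (mul_ne_zero (by norm_num) hN.ha') ?_
      rw [PS_jacobian]
      simp only [pderiv_F1, pderiv_F2, Matrix.cons_val, map_mul, map_neg, map_zero, map_sub,
        h4, aeval_X, algHom_C, map_ofNat]
      ring
    · refine key ![0, 3] (by decide) (-4 * a) _ (mul_ne_zero (by norm_num) hN.ha) ?_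
      rw [PS_jacobian]
      simp only [pderiv_F1, pderiv_F2, Matrix.cons_val, map_mul, map_neg, map_zero, map_sub,
        h4, aeval_X, algHom_C, map_ofNat]
      ring
    · refine key ![1, 2] (by decide) (4 * b') _ (mul_ne_zero (by norm_num) hN.hb') ?_
      rw [PS_jacobian]
      simp only [pderiv_F1, pderiv_F2, Matrix.cons_val, map_mul, map_neg, map_zero, map_sub,
        h4, aeval_X, algHom_C, map_ofNat]
      ring
    · refine key ![1, 3] (by decide) (-4 * b) _ (mul_ne_zero (by norm_num) hN.hb) ?_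
      rw [PS_jacobian]
      simp only [pderiv_F1, pderiv_F2, Matrix.cons_val, map_mul, map_neg, map_zero, map_sub,
        h4, aeval_X, algHom_C, map_ofNat]
      ring
    · refine key ![2, 3] (by decide) 4 _ (by norm_num) ?_
      rw [PS_jacobian]
      simp only [pderiv_F1, pderiv_F2, Matrix.cons_val, map_mul, map_neg, map_zero, map_sub,
        h4, aeval_X, algHom_C, map_ofNat]
      ring
  · rintro g ⟨m, hm, hi⟩
    rw [← IsScalarTower.algebraMap_eq, RingHom.isStandardSmoothOfRelativeDimension_algebraMap]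
    exact isStandardSmooth_localizationAway (PS a b c a' b' c' w hsurj hker m hm) g hi
      (Localization.Away g) 2 (PS_dimension a b c a' b' c' w hsurj hker m hm)

end chart

end Pool.Agent.H935.FF
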