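import Pool.Graph.R_seed8.TH182.J302a
import Pool.Agent.H935.FF.Smooth

/-!
Generators of the canonical sheaf of `S² = a x² + b y² + c`, `T² = a' x² + b' y² + c'`.
-/

set_option autoImplicit false
set_option linter.unusedSimpArgs false
set_option linter.unusedSectionVars false

open Pool.Agent.Helper165 KaehlerDifferential

namespace Pool.Agent.H935.FF

section gen

variable {K : Type*} [Field K] [Algebra ℂ K] (O : Subring K)
  (hk : ∀ c : ℂ, algebraMap ℂ K c ∈ O) (w : Fin 4 → K) (hw : ∀ i, w i ∈ O)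
  (hO : ∀ φ ∈ O, ∃ a ∈ Algebra.adjoin ℂ (Set.range w), ∃ s ∈ Algebra.adjoin ℂ (Set.range w),
      s ≠ 0 ∧ s⁻¹ ∈ O ∧ φ = a / s)

include hk hw hO in
lemma gen_of_coords (v : Fin 2 → K) (hv : ∀ i, v i ∈ O) (M : Fin 4 → Fin 2 → K)
    (hM : ∀ i j, M i j ∈ O) (hD : ∀ i, D ℂ K (w i) = ∑ j, M i j • D ℂ K (v j))
    (u : K) (hu : u ∈ O) (hu' : u⁻¹ ∈ O)
    (hdet : (w 2 * w 3)⁻¹ * (M 0 0 * M 1 1 - M 0 1 * M 1 0) = u)
    (h0 : (w 2 * w 3)⁻¹ • exteriorPower.ιMulti K 2 ![D ℂ K (w 0), D ℂ K (w 1)] ≠ 0) :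
    IsGenerator (differential ℂ K) 2 (O : Set K)
      ((w 2 * w 3)⁻¹ • exteriorPower.ιMulti K 2 ![D ℂ K (w 0), D ℂ K (w 1)]) := by
  refine ⟨h0, fun η => ?_⟩
  have hD' : ∀ φ ∈ O, ∃ c : Fin 2 → K, (∀ j, c j ∈ O) ∧ D ℂ K φ = ∑ j, c j • D ℂ K (v j) := by
    intro φ hφ
    obtain ⟨c, hc, hc'⟩ := D_mem O w hk hw hO φ hφ
    refine ⟨fun j => ∑ i, c i * M i j, fun j => O.sum_mem fun i _ => O.mul_mem (hc i) (hM i j), ?_⟩
    rw [hc']
    simp only [hD, Finset.smul_sum, smul_smul, Finset.sum_smul]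
    exact Finset.sum_comm
  have e : (w 2 * w 3)⁻¹ • exteriorPower.ιMulti K 2 ![D ℂ K (w 0), D ℂ K (w 1)] =
      u • exteriorPower.ιMulti K 2 (fun i => D ℂ K (v i)) := by
    have h1 : ![D ℂ K (w 0), D ℂ K (w 1)] =
        fun i => ∑ j, (!![M 0 0, M 0 1; M 1 0, M 1 1] : Matrix (Fin 2) (Fin 2) K) i j •
          D ℂ K (v j) := by
      funext i
      fin_cases i
      · simp [hD]
      · simp [hD]
    rw [h1, alternating_det, Matrix.det_fin_two_of, smul_smul, hdet]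
  have hu0 : u ≠ 0 := by
    rintro rfl
    rw [zero_smul] at e
    exact h0 e
  rw [Pool.Agent.TH182.TMC.regularForms_eq' O v hv hD', e]
  constructor
  · rintro ⟨g, hg, rfl⟩
    refine ⟨g * u⁻¹, O.mul_mem hg hu', ?_⟩
    rw [smul_smul, mul_assoc, inv_mul_cancel₀ hu0, mul_one]
  · rintro ⟨g, hg, rfl⟩
    exact ⟨g * u, O.mul_mem hg hu, by rw [smul_smul]⟩

lemma inv_left_mem {x y : K} (hy : y ∈ O) (hy0 : y ≠ 0) (h : (x * y)⁻¹ ∈ O) : x⁻¹ ∈ O := by
  have : x⁻¹ = y * (x * y)⁻¹ := by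
    by_cases hx : x = 0
    · subst hx; simp
    · field_simp
  rw [this]
  exact O.mul_mem hy h

lemma inv_right_mem {x y : K} (hx : x ∈ O) (hx0 : x ≠ 0) (h : (x * y)⁻¹ ∈ O) : y⁻¹ ∈ O := by
  rw [mul_comm] at h
  exact inv_left_mem O hx hx0 h

/-- Solving a linear relation between differentials. -/
lemma solve_D {M : Type*} [AddCommGroup M] [Module K M] {α β γ : K} {x y z : M}
    (h : α • x = β • y + γ • z) (hβ : β ≠ 0) : y = (β⁻¹ * α) • x + (-(β⁻¹ * γ)) • z := by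
  have h1 : y = β⁻¹ • (β • y) := by rw [smul_smul, inv_mul_cancel₀ hβ, one_smul]
  have h2 : β • y = α • x - γ • z := by rw [h]; abel
  rw [h1, h2, smul_sub, smul_smul, smul_smul, neg_smul, sub_eq_add_neg]

variable (a b c a' b' c' : ℂ) (hN : Nondeg a b c a' b' c')
  (e1 : w 2 ^ 2 = algebraMap ℂ K a * w 0 ^ 2 + algebraMap ℂ K b * w 1 ^ 2 + algebraMap ℂ K c)
  (e2 : w 3 ^ 2 = algebraMap ℂ K a' * w 0 ^ 2 + algebraMap ℂ K b' * w 1 ^ 2 + algebraMap ℂ K c')

include e1 in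
lemma D_rel1 : (w 2) • D ℂ K (w 2) = (algebraMap ℂ K a * w 0) • D ℂ K (w 0) +
    (algebraMap ℂ K b * w 1) • D ℂ K (w 1) := by
  have h := congrArg (D ℂ K) e1
  simp only [map_add, Derivation.leibniz_pow, Derivation.leibniz, Derivation.map_algebraMap,
    smul_zero, add_zero, Nat.add_one_sub_one, pow_one] at h
  have h2 : (2 : K) ≠ 0 := by
    have : (2 : K) = algebraMap ℂ K 2 := (map_ofNat _ 2).symm
    rw [this, Ne, map_eq_zero]
    norm_num
  have h3 : (2 : K) • ((w 2) • D ℂ K (w 2)) = (2 : K) • ((algebraMap ℂ K a * w 0) • D ℂ K (w 0) +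
    (algebraMap ℂ K b * w 1) • D ℂ K (w 1)) := by
    simp only [smul_add, smul_smul, ← Nat.cast_smul_eq_nsmul K] at h ⊢
    push_cast at h
    convert h using 2 <;> ring_nf
  exact smul_right_injective _ h2 h3

include e2 in
lemma D_rel2 : (w 3) • D ℂ K (w 3) = (algebraMap ℂ K a' * w 0) • D ℂ K (w 0) +
    (algebraMap ℂ K b' * w 1) • D ℂ K (w 1) := by
  have h := congrArg (D ℂ K) e2
  simp only [map_add, Derivation.leibniz_pow, Derivation.leibniz, Derivation.map_algebraMap,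
    smul_zero, add_zero, Nat.add_one_sub_one, pow_one] at h
  have h2 : (2 : K) ≠ 0 := by
    have : (2 : K) = algebraMap ℂ K 2 := (map_ofNat _ 2).symm
    rw [this, Ne, map_eq_zero]
    norm_num
  have h3 : (2 : K) • ((w 3) • D ℂ K (w 3)) = (2 : K) • ((algebraMap ℂ K a' * w 0) • D ℂ K (w 0) +
    (algebraMap ℂ K b' * w 1) • D ℂ K (w 1)) := by
    simp only [smul_add, smul_smul, ← Nat.cast_smul_eq_nsmul K] at h ⊢
    push_cast at h
    convert h using 2 <;> ring_nf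
  exact smul_right_injective _ h2 h3

/-- `D S` from `D x` and `D y`. -/
lemma D_of_xy {M : Type*} [AddCommGroup M] [Module K M] {S α β : K} (hS : S ≠ 0) {x y z : M}
    (h : S • z = α • x + β • y) (v : Fin 2 → M) (Mx My : Fin 2 → K)
    (hx : x = ∑ j, Mx j • v j) (hy : y = ∑ j, My j • v j) :
    z = ∑ j, (S⁻¹ * (α * Mx j + β * My j)) • v j := by
  have h1 : z = S⁻¹ • (S • z) := by rw [smul_smul, inv_mul_cancel₀ hS, one_smul]
  rw [h1, h, hx, hy, Finset.smul_sum, Finset.smul_sum, ← Finset.sum_add_distrib, Finset.smul_sum]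
  refine Finset.sum_congr rfl fun j _ => ?_
  rw [smul_smul, smul_smul, ← add_smul, smul_smul]

include hk hw hO hN e1 e2 in
/-- Around each point of a chart the form `dx ∧ dy / (S T)` generates the canonical sheaf. -/
theorem gen_chart (hS0 : w 2 ≠ 0) (hT0 : w 3 ≠ 0)
    (h0 : (w 2 * w 3)⁻¹ • exteriorPower.ιMulti K 2 ![D ℂ K (w 0), D ℂ K (w 1)] ≠ 0)
    (hx0 : w 0 ≠ 0) (hy0 : w 1 ≠ 0)
    (hunit : (w 0 * w 1)⁻¹ ∈ O ∨ (w 0 * w 2)⁻¹ ∈ O ∨ (w 0 * w 3)⁻¹ ∈ O ∨ (w 1 * w 2)⁻¹ ∈ O ∨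
      (w 1 * w 3)⁻¹ ∈ O ∨ (w 2 * w 3)⁻¹ ∈ O) :
    IsGenerator (differential ℂ K) 2 (O : Set K)
      ((w 2 * w 3)⁻¹ • exteriorPower.ιMulti K 2 ![D ℂ K (w 0), D ℂ K (w 1)]) := by
  have r1 := D_rel1 w a b c e1
  have r2 := D_rel2 w a' b' c' e2
  have hc : ∀ z : ℂ, z ≠ 0 → (algebraMap ℂ K z)⁻¹ ∈ O := by
    intro z _
    rw [← map_inv₀]
    exact hk _
  have hcn : ∀ z : ℂ, z ≠ 0 → algebraMap ℂ K z ≠ 0 := by
    intro z hz
    rwa [Ne, map_eq_zero]
  have hx := hw 0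
  have hy := hw 1
  have hS := hw 2
  have hT := hw 3
  set x := w 0 with hxdef
  set y := w 1 with hydef
  set S := w 2 with hSdef
  set T := w 3 with hTdef
  set A := algebraMap ℂ K a
  set B := algebraMap ℂ K b
  set A' := algebraMap ℂ K a'
  set B' := algebraMap ℂ K b'
  have hA : A ∈ O := hk a
  have hB : B ∈ O := hk b
  have hA' : A' ∈ O := hk a'
  have hB' : B' ∈ O := hk b'
  have hAi : A⁻¹ ∈ O := hc a hN.ha
  have hBi : B⁻¹ ∈ O := hc b hN.hb
  have hA'i : A'⁻¹ ∈ O := hc a' hN.ha'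
  have hB'i : B'⁻¹ ∈ O := hc b' hN.hb'
  have hA0 : A ≠ 0 := hcn a hN.ha
  have hB0 : B ≠ 0 := hcn b hN.hb
  have hA'0 : A' ≠ 0 := hcn a' hN.ha'
  have hB'0 : B' ≠ 0 := hcn b' hN.hb'
  have hδ0 : A * B' - A' * B ≠ 0 := by
    have := hcn _ hN.hab
    rwa [map_sub, map_mul, map_mul] at this
  have hδi : (A * B' - A' * B)⁻¹ ∈ O := by
    have := hc _ hN.hab
    rwa [map_sub, map_mul, map_mul] at this
  have sum2 : ∀ (f : Fin 2 → K) (v : Fin 2 → K), ∑ j, f j • D ℂ K (v j) =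
      f 0 • D ℂ K (v 0) + f 1 • D ℂ K (v 1) := fun f v => Fin.sum_univ_two _
  have fin : ∀ (v : Fin 2 → K) (Mx My MS MT : Fin 2 → K) (u : K), (∀ j, v j ∈ O) →
      (∀ j, Mx j ∈ O) → (∀ j, My j ∈ O) → (∀ j, MS j ∈ O) → (∀ j, MT j ∈ O) →
      D ℂ K x = ∑ j, Mx j • D ℂ K (v j) → D ℂ K y = ∑ j, My j • D ℂ K (v j) →
      D ℂ K S = ∑ j, MS j • D ℂ K (v j) → D ℂ K T = ∑ j, MT j • D ℂ K (v j) →
      u ∈ O → u⁻¹ ∈ O → (S * T)⁻¹ * (Mx 0 * My 1 - Mx 1 * My 0) = u →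
      IsGenerator (differential ℂ K) 2 (O : Set K)
        ((S * T)⁻¹ • exteriorPower.ιMulti K 2 ![D ℂ K x, D ℂ K y]) := by
    intro v Mx My MS MT u hv h1 h2 h3 h4 h5 h6 h7 h8 hu hu' hdet
    refine gen_of_coords O hk w hw hO v hv ![Mx, My, MS, MT] ?_ ?_ u hu hu' hdet h0
    · intro i
      fin_cases i
      · exact h1
      · exact h2
      · exact h3
      · exact h4
    · intro i
      fin_cases i
      · exact h5
      · exact h6
      · exact h7
      · exact h8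
  have two : ∀ (p q : K), p ∈ O → q ∈ O → ∀ j, ![p, q] j ∈ O := by
    intro p q hp hq j
    fin_cases j
    · exact hp
    · exact hq
  rcases hunit with h | h | h | h | h | h
  · -- coordinates `S, T`
    have hxi := inv_left_mem O hy hy0 h
    have hyi := inv_right_mem O hx hx0 h
    refine fin ![S, T] ![x⁻¹ * (A * B' - A' * B)⁻¹ * (B' * S), -(x⁻¹ * (A * B' - A' * B)⁻¹ * (B * T))]
      ![-(y⁻¹ * (A * B' - A' * B)⁻¹ * (A' * S)), y⁻¹ * (A * B' - A' * B)⁻¹ * (A * T)]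
      ![1, 0] ![0, 1] ((x * y)⁻¹ * (A * B' - A' * B)⁻¹) (two _ _ hS hT)
      (two _ _ (O.mul_mem (O.mul_mem hxi hδi) (O.mul_mem hB' hS))
        (O.neg_mem (O.mul_mem (O.mul_mem hxi hδi) (O.mul_mem hB hT))))
      (two _ _ (O.neg_mem (O.mul_mem (O.mul_mem hyi hδi) (O.mul_mem hA' hS)))
        (O.mul_mem (O.mul_mem hyi hδi) (O.mul_mem hA hT)))
      (two _ _ O.one_mem O.zero_mem) (two _ _ O.zero_mem O.one_mem) ?_ ?_ ?_ ?_
      (O.mul_mem h hδi) ?_ ?_
    · rw [sum2]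
      simp only [Matrix.cons_val_zero, Matrix.cons_val_one]
      have h1 : ((A * B' - A' * B) * x) • D ℂ K x = (B' * S) • D ℂ K S - (B * T) • D ℂ K T := by
        linear_combination (norm := module) (-B') • r1 + B • r2
      have h2 : D ℂ K x = (x⁻¹ * (A * B' - A' * B)⁻¹) • (((A * B' - A' * B) * x) • D ℂ K x) := by
        rw [smul_smul]
        have : x⁻¹ * (A * B' - A' * B)⁻¹ * ((A * B' - A' * B) * x) = 1 := by field_simp
        rw [this, one_smul]
      rw [h2, h1, smul_sub, smul_smul, smul_smul, neg_smul, sub_eq_add_neg]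
    · rw [sum2]
      simp only [Matrix.cons_val_zero, Matrix.cons_val_one]
      have h1 : ((A * B' - A' * B) * y) • D ℂ K y = (A * T) • D ℂ K T - (A' * S) • D ℂ K S := by
        linear_combination (norm := module) A' • r1 - A • r2
      have h2 : D ℂ K y = (y⁻¹ * (A * B' - A' * B)⁻¹) • (((A * B' - A' * B) * y) • D ℂ K y) := by
        rw [smul_smul]
        have : y⁻¹ * (A * B' - A' * B)⁻¹ * ((A * B' - A' * B) * y) = 1 := by field_simp
        rw [this, one_smul]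
      rw [h2, h1, smul_sub, smul_smul, smul_smul, neg_smul, sub_eq_add_neg, add_comm]
    · rw [sum2]; simp
    · rw [sum2]; simp
    · have : ((x * y)⁻¹ * (A * B' - A' * B)⁻¹)⁻¹ = (x * y) * (A * B' - A' * B) := by
        field_simp
      rw [this]
      exact O.mul_mem (O.mul_mem hx hy) (O.sub_mem (O.mul_mem hA hB') (O.mul_mem hA' hB))
    · simp only [Matrix.cons_val_zero, Matrix.cons_val_one]
      field_simp
      try ring
  · -- coordinates `y, T`
    have hxi := inv_left_mem O hS hS0 h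
    have hSi := inv_right_mem O hx hx0 h
    have hAx0 : A' * x ≠ 0 := mul_ne_zero hA'0 hx0
    have hAxi : (A' * x)⁻¹ ∈ O := by rw [mul_inv]; exact O.mul_mem hA'i hxi
    have hMx := two (-((A' * x)⁻¹ * (B' * y))) ((A' * x)⁻¹ * T)
      (O.neg_mem (O.mul_mem hAxi (O.mul_mem hB' hy))) (O.mul_mem hAxi hT)
    have hMy := two 1 0 O.one_mem O.zero_mem
    have hdx : D ℂ K x = ∑ j, ![-((A' * x)⁻¹ * (B' * y)), (A' * x)⁻¹ * T] j •
        D ℂ K (![y, T] j) := by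
      rw [sum2]
      simp only [Matrix.cons_val_zero, Matrix.cons_val_one]
      have := solve_D r2 hAx0
      rw [this, add_comm]
    have hdy : D ℂ K y = ∑ j, (![1, 0] : Fin 2 → K) j • D ℂ K (![y, T] j) := by rw [sum2]; simp
    refine fin ![y, T] _ _ _ ![0, 1] (-((A' * x * S)⁻¹)) (two _ _ hy hT)
      hMx hMy (fun j => O.mul_mem hSi (O.add_mem (O.mul_mem (O.mul_mem hA hx) (hMx j))
        (O.mul_mem (O.mul_mem hB hy) (hMy j)))) (two _ _ O.zero_mem O.one_mem)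
      hdx hdy (D_of_xy hS0 r1 _ _ _ hdx hdy) ?_ ?_ ?_ ?_
    · rw [sum2]; simp
    · rw [mul_inv]; exact O.neg_mem (O.mul_mem hAxi hSi)
    · have : (-((A' * x * S)⁻¹))⁻¹ = -(A' * x * S) := by rw [inv_neg, inv_inv]
      rw [this]
      exact O.neg_mem (O.mul_mem (O.mul_mem hA' hx) hS)
    · simp only [Matrix.cons_val_zero, Matrix.cons_val_one]
      field_simp
      try ring
  · -- coordinates `y, S`
    have hxi := inv_left_mem O hT hT0 h
    have hTi := inv_right_mem O hx hx0 h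
    have hAx0 : A * x ≠ 0 := mul_ne_zero hA0 hx0
    have hAxi : (A * x)⁻¹ ∈ O := by rw [mul_inv]; exact O.mul_mem hAi hxi
    have hMx := two (-((A * x)⁻¹ * (B * y))) ((A * x)⁻¹ * S)
      (O.neg_mem (O.mul_mem hAxi (O.mul_mem hB hy))) (O.mul_mem hAxi hS)
    have hMy := two 1 0 O.one_mem O.zero_mem
    have hdx : D ℂ K x = ∑ j, ![-((A * x)⁻¹ * (B * y)), (A * x)⁻¹ * S] j •
        D ℂ K (![y, S] j) := by
      rw [sum2]
      simp only [Matrix.cons_val_zero, Matrix.cons_val_one]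
      have := solve_D r1 hAx0
      rw [this, add_comm]
    have hdy : D ℂ K y = ∑ j, (![1, 0] : Fin 2 → K) j • D ℂ K (![y, S] j) := by rw [sum2]; simp
    refine fin ![y, S] _ _ ![0, 1] _ (-((A * x * T)⁻¹)) (two _ _ hy hS)
      hMx hMy (two _ _ O.zero_mem O.one_mem)
      (fun j => O.mul_mem hTi (O.add_mem (O.mul_mem (O.mul_mem hA' hx) (hMx j))
        (O.mul_mem (O.mul_mem hB' hy) (hMy j))))
      hdx hdy ?_ (D_of_xy hT0 r2 _ _ _ hdx hdy) ?_ ?_ ?_
    · rw [sum2]; simp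
    · rw [mul_inv]; exact O.neg_mem (O.mul_mem hAxi hTi)
    · have : (-((A * x * T)⁻¹))⁻¹ = -(A * x * T) := by rw [inv_neg, inv_inv]
      rw [this]
      exact O.neg_mem (O.mul_mem (O.mul_mem hA hx) hT)
    · simp only [Matrix.cons_val_zero, Matrix.cons_val_one]
      field_simp
      try ring
  · -- coordinates `x, T`
    have hyi := inv_left_mem O hS hS0 h
    have hSi := inv_right_mem O hy hy0 h
    have hBy0 : B' * y ≠ 0 := mul_ne_zero hB'0 hy0
    have hByi : (B' * y)⁻¹ ∈ O := by rw [mul_inv]; exact O.mul_mem hB'i hyi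
    have hMx := two 1 0 O.one_mem O.zero_mem
    have hMy := two (-((B' * y)⁻¹ * (A' * x))) ((B' * y)⁻¹ * T)
      (O.neg_mem (O.mul_mem hByi (O.mul_mem hA' hx))) (O.mul_mem hByi hT)
    have hdx : D ℂ K x = ∑ j, (![1, 0] : Fin 2 → K) j • D ℂ K (![x, T] j) := by rw [sum2]; simp
    have hdy : D ℂ K y = ∑ j, ![-((B' * y)⁻¹ * (A' * x)), (B' * y)⁻¹ * T] j •
        D ℂ K (![x, T] j) := by
      rw [sum2]
      simp only [Matrix.cons_val_zero, Matrix.cons_val_one]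
      rw [add_comm] at r2
      have := solve_D r2 hBy0
      rw [this, add_comm]
    refine fin ![x, T] _ _ _ ![0, 1] ((B' * y * S)⁻¹) (two _ _ hx hT)
      hMx hMy (fun j => O.mul_mem hSi (O.add_mem (O.mul_mem (O.mul_mem hA hx) (hMx j))
        (O.mul_mem (O.mul_mem hB hy) (hMy j)))) (two _ _ O.zero_mem O.one_mem)
      hdx hdy (D_of_xy hS0 r1 _ _ _ hdx hdy) ?_ ?_ ?_ ?_
    · rw [sum2]; simp
    · rw [mul_inv]; exact O.mul_mem hByi hSi
    · rw [inv_inv]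
      exact O.mul_mem (O.mul_mem hB' hy) hS
    · simp only [Matrix.cons_val_zero, Matrix.cons_val_one]
      field_simp
      try ring
  · -- coordinates `x, S`
    have hyi := inv_left_mem O hT hT0 h
    have hTi := inv_right_mem O hy hy0 h
    have hBy0 : B * y ≠ 0 := mul_ne_zero hB0 hy0
    have hByi : (B * y)⁻¹ ∈ O := by rw [mul_inv]; exact O.mul_mem hBi hyi
    have hMx := two 1 0 O.one_mem O.zero_mem
    have hMy := two (-((B * y)⁻¹ * (A * x))) ((B * y)⁻¹ * S)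
      (O.neg_mem (O.mul_mem hByi (O.mul_mem hA hx))) (O.mul_mem hByi hS)
    have hdx : D ℂ K x = ∑ j, (![1, 0] : Fin 2 → K) j • D ℂ K (![x, S] j) := by rw [sum2]; simp
    have hdy : D ℂ K y = ∑ j, ![-((B * y)⁻¹ * (A * x)), (B * y)⁻¹ * S] j •
        D ℂ K (![x, S] j) := by
      rw [sum2]
      simp only [Matrix.cons_val_zero, Matrix.cons_val_one]
      rw [add_comm] at r1
      have := solve_D r1 hBy0
      rw [this, add_comm]
    refine fin ![x, S] _ _ ![0, 1] _ ((B * y * T)⁻¹) (two _ _ hx hS)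
      hMx hMy (two _ _ O.zero_mem O.one_mem)
      (fun j => O.mul_mem hTi (O.add_mem (O.mul_mem (O.mul_mem hA' hx) (hMx j))
        (O.mul_mem (O.mul_mem hB' hy) (hMy j))))
      hdx hdy ?_ (D_of_xy hT0 r2 _ _ _ hdx hdy) ?_ ?_ ?_
    · rw [sum2]; simp
    · rw [mul_inv]; exact O.mul_mem hByi hTi
    · rw [inv_inv]
      exact O.mul_mem (O.mul_mem hB hy) hT
    · simp only [Matrix.cons_val_zero, Matrix.cons_val_one]
      field_simp
      try ring
  · -- coordinates `x, y`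
    have hSi := inv_left_mem O hT hT0 h
    have hTi := inv_right_mem O hS hS0 h
    have hMx := two 1 0 O.one_mem O.zero_mem
    have hMy := two 0 1 O.zero_mem O.one_mem
    have hdx : D ℂ K x = ∑ j, (![1, 0] : Fin 2 → K) j • D ℂ K (![x, y] j) := by rw [sum2]; simp
    have hdy : D ℂ K y = ∑ j, (![0, 1] : Fin 2 → K) j • D ℂ K (![x, y] j) := by rw [sum2]; simp
    refine fin ![x, y] _ _ _ _ ((S * T)⁻¹) (two _ _ hx hy)
      hMx hMy (fun j => O.mul_mem hSi (O.add_mem (O.mul_mem (O.mul_mem hA hx) (hMx j))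
        (O.mul_mem (O.mul_mem hB hy) (hMy j))))
      (fun j => O.mul_mem hTi (O.add_mem (O.mul_mem (O.mul_mem hA' hx) (hMx j))
        (O.mul_mem (O.mul_mem hB' hy) (hMy j))))
      hdx hdy (D_of_xy hS0 r1 _ _ _ hdx hdy) (D_of_xy hT0 r2 _ _ _ hdx hdy) h ?_ ?_
    · rw [inv_inv]
      exact O.mul_mem hS hT
    · simp

end gen

end Pool.Agent.H935.FF
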