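import Pool.Agent.H935.FF.Inter2
import Pool.Agent.H935.FF.Fano

/-!
Global sections of the anticanonical sheaf of the surfaces.
-/

set_option autoImplicit false
set_option linter.unusedSimpArgs false

open MvPolynomial AlgebraicGeometry CategoryTheory TopologicalSpace
open Pool.Agent.Helper165 KaehlerDifferential

namespace Pool.Agent.H935.FF

lemma aeval_deg_one {S : Type*} [CommRing S] [Algebra ℂ S] (x : Fin 2 → S)
    (p : MvPolynomial (Fin 2) ℂ) (hp : p.totalDegree ≤ 1) :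
    ∃ a b c : ℂ, aeval x p = algebraMap ℂ S a + algebraMap ℂ S b * x 0 +
      algebraMap ℂ S c * x 1 := by
  have key : ∀ s : Finset (Fin 2 →₀ ℕ), (∀ m ∈ s, m.sum (fun _ e => e) ≤ 1) →
      ∃ a b c : ℂ, aeval x (∑ m ∈ s, monomial m (coeff m p)) =
        algebraMap ℂ S a + algebraMap ℂ S b * x 0 + algebraMap ℂ S c * x 1 := by
    classical
    intro s
    induction s using Finset.induction_on with
    | empty => intro _; exact ⟨0, 0, 0, by simp⟩
    | insert m s hms ih =>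
      intro h
      obtain ⟨a, b, c, h1⟩ := ih fun m' hm' => h m' (Finset.mem_insert_of_mem hm')
      have h2 := h m (Finset.mem_insert_self m s)
      have h3 : m 0 + m 1 ≤ 1 := by
        rw [Finsupp.sum_fintype _ _ (fun _ => rfl), Fin.sum_univ_two] at h2
        exact h2
      have h4 : aeval x (monomial m (coeff m p)) =
          algebraMap ℂ S (coeff m p) * (x 0 ^ m 0 * x 1 ^ m 1) := by
        rw [aeval_monomial, Finsupp.prod_fintype _ _ (fun _ => pow_zero _), Fin.prod_univ_two]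
      rw [Finset.sum_insert hms, map_add, h1, h4]
      have h5 : (m 0 = 0 ∧ m 1 = 0) ∨ (m 0 = 1 ∧ m 1 = 0) ∨ (m 0 = 0 ∧ m 1 = 1) := by omega
      rcases h5 with ⟨e1, e2⟩ | ⟨e1, e2⟩ | ⟨e1, e2⟩
      · refine ⟨coeff m p + a, b, c, ?_⟩
        rw [e1, e2, map_add]; ring
      · refine ⟨a, coeff m p + b, c, ?_⟩
        rw [e1, e2, map_add]; ring
      · refine ⟨a, b, coeff m p + c, ?_⟩
        rw [e1, e2, map_add]; ring
  obtain ⟨a, b, c, h⟩ := key p.support fun m hm => (le_totalDegree hm).trans hp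
  refine ⟨a, b, c, ?_⟩
  rw [← h]
  congr 1
  exact p.as_sum

variable (t : ℂ)

lemma nf_adjoin (i : Fin 3) (x : Luv) (hx : x ∈ Algebra.adjoin ℂ (Set.range (ww t i))) :
    ∃ p0 p1 p2 p3 : MvPolynomial (Fin 2) ℂ, x = aeval ![ww t i 0, ww t i 1] p0 +
      aeval ![ww t i 0, ww t i 1] p1 * ww t i 2 + aeval ![ww t i 0, ww t i 1] p2 * ww t i 3 +
      aeval ![ww t i 0, ww t i 1] p3 * (ww t i 2 * ww t i 3) := by
  rw [Algebra.adjoin_range_eq_range_aeval] at hx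
  obtain ⟨p, hp⟩ := hx
  have hp' : aeval (ww t i) p = x := hp
  obtain ⟨p0, p1, p2, p3, h⟩ := normal_form 1 1 1 (co t i 0) (co t i 1) (co t i 2) p
  refine ⟨p0, p1, p2, p3, ?_⟩
  have h2 := (ker_eq _ _ _ _ _ _ (ww t i) (ww_ind t i) (ww_rel1 t i) (ww_rel2 t i) _).2 h
  simp only [map_sub, map_add, map_mul, aeval_emb, aeval_X, hp'] at h2
  linear_combination h2

lemma deg_le {A P : MvPolynomial (Fin 2) ℂ} {M k N : ℕ} (h : X 0 ^ M * A = X 0 ^ k * P)
    (hP : P.totalDegree ≤ N) : A = 0 ∨ M + A.totalDegree ≤ k + N := by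
  by_cases hA : A = 0
  · exact Or.inl hA
  · right
    have h1 : (X 0 ^ M * A).totalDegree = M + A.totalDegree := by
      rw [totalDegree_mul_of_isDomain (pow_ne_zero _ (X_ne_zero _)) hA, totalDegree_X_pow]
    rw [← h1, h]
    refine (totalDegree_mul _ _).trans ?_
    rw [totalDegree_X_pow]
    omega

theorem global_mem (x : Luv) (h0 : x ∈ Algebra.adjoin ℂ (Set.range (ww t 0)))
    (h1 : x / uL ∈ Algebra.adjoin ℂ (Set.range (ww t 1))) : x ∈ VV t := by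
  obtain ⟨A0, A1, A2, A3, hA⟩ := nf_adjoin t 0 x h0
  obtain ⟨B0, B1, B2, B3, hB⟩ := nf_adjoin t 1 _ h1
  obtain ⟨N0, P0, d0, r0, -⟩ := exists_recip uL vL uL_ne_zero B0
  obtain ⟨N1, P1, d1, r1, -⟩ := exists_recip uL vL uL_ne_zero B1
  obtain ⟨N2, P2, d2, r2, -⟩ := exists_recip uL vL uL_ne_zero B2
  obtain ⟨N3, P3, d3, r3, -⟩ := exists_recip uL vL uL_ne_zero B3
  have hu := uL_ne_zero
  have w00 : ww t 0 0 = uL := rfl
  have w01 : ww t 0 1 = vL := rfl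
  have w02 : ww t 0 2 = sL := by simp [ww]
  have w03 : ww t 0 3 = rL t := by simp [ww]
  have w10 : ww t 1 0 = uL⁻¹ := rfl
  have w11 : ww t 1 1 = vL * uL⁻¹ := rfl
  have w12 : ww t 1 2 = sL * uL⁻¹ := rfl
  have w13 : ww t 1 3 = rL t * uL⁻¹ := rfl
  rw [w00, w01, w02, w03] at hA
  rw [w10, w11, w12, w13] at hB
  have key := ww_ind t 0
  unfold Indep at key
  rw [w00, w01, w02, w03] at key
  -- put everything over a common power
  have hc := key (X 0 ^ (N0 + N1 + N2 + N3 + 1) * A0 - X 0 ^ (N1 + N2 + N3 + 2) * P0)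
    (X 0 ^ (N0 + N1 + N2 + N3 + 1) * A1 - X 0 ^ (N0 + N2 + N3 + 1) * P1)
    (X 0 ^ (N0 + N1 + N2 + N3 + 1) * A2 - X 0 ^ (N0 + N1 + N3 + 1) * P2)
    (X 0 ^ (N0 + N1 + N2 + N3 + 1) * A3 - X 0 ^ (N0 + N1 + N2) * P3) (by
      simp only [map_sub, map_mul, map_pow, aeval_X, Matrix.cons_val_zero, r0, r1, r2, r3]
      have hB' : x = uL * (aeval ![uL⁻¹, vL * uL⁻¹] B0 +
        aeval ![uL⁻¹, vL * uL⁻¹] B1 * (sL * uL⁻¹) +
        aeval ![uL⁻¹, vL * uL⁻¹] B2 * (rL t * uL⁻¹) +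
        aeval ![uL⁻¹, vL * uL⁻¹] B3 * (sL * uL⁻¹ * (rL t * uL⁻¹))) := by
        rw [← hB]
        field_simp
      have hui : uL * uL⁻¹ = 1 := mul_inv_cancel₀ hu
      have e2 : uL ^ (N0 + N1 + N2 + N3 + 1) * x = uL ^ (N0 + N1 + N2 + N3 + 1) *
        (uL * (aeval ![uL⁻¹, vL * uL⁻¹] B0 +
        aeval ![uL⁻¹, vL * uL⁻¹] B1 * (sL * uL⁻¹) +
        aeval ![uL⁻¹, vL * uL⁻¹] B2 * (rL t * uL⁻¹) +
        aeval ![uL⁻¹, vL * uL⁻¹] B3 * (sL * uL⁻¹ * (rL t * uL⁻¹)))) := by rw [← hB']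
      have e1 : uL ^ (N0 + N1 + N2 + N3 + 1) * x = uL ^ (N0 + N1 + N2 + N3 + 1) *
        (aeval ![uL, vL] A0 + aeval ![uL, vL] A1 * sL + aeval ![uL, vL] A2 * rL t +
          aeval ![uL, vL] A3 * (sL * rL t)) := by rw [← hA]
      generalize aeval ![uL⁻¹, vL * uL⁻¹] B0 = b0 at e2 ⊢
      generalize aeval ![uL⁻¹, vL * uL⁻¹] B1 = b1 at e2 ⊢
      generalize aeval ![uL⁻¹, vL * uL⁻¹] B2 = b2 at e2 ⊢
      generalize aeval ![uL⁻¹, vL * uL⁻¹] B3 = b3 at e2 ⊢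
      have e3 : uL ^ (N0 + N1 + N2 + N3 + 1) * (uL * (b0 + b1 * (sL * uL⁻¹) +
        b2 * (rL t * uL⁻¹) + b3 * (sL * uL⁻¹ * (rL t * uL⁻¹)))) =
        uL ^ (N0 + N1 + N2 + N3 + 2) * b0 + uL ^ (N0 + N1 + N2 + N3 + 1) * b1 * sL +
        uL ^ (N0 + N1 + N2 + N3 + 1) * b2 * rL t +
        uL ^ (N0 + N1 + N2 + N3) * b3 * (sL * rL t) := by
        field_simp
        ring
      have f0 : uL ^ (N1 + N2 + N3 + 2) * (uL ^ N0 * b0) =
        uL ^ (N0 + N1 + N2 + N3 + 2) * b0 := by ring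
      have f1 : uL ^ (N0 + N2 + N3 + 1) * (uL ^ N1 * b1) =
        uL ^ (N0 + N1 + N2 + N3 + 1) * b1 := by ring
      have f2 : uL ^ (N0 + N1 + N3 + 1) * (uL ^ N2 * b2) =
        uL ^ (N0 + N1 + N2 + N3 + 1) * b2 := by ring
      have f3 : uL ^ (N0 + N1 + N2) * (uL ^ N3 * b3) =
        uL ^ (N0 + N1 + N2 + N3) * b3 := by ring
      rw [f0, f1, f2, f3]
      linear_combination -e1 + e2 + e3)
  obtain ⟨c0, c1, c2, c3⟩ := hc
  have g3 := deg_le (sub_eq_zero.1 c3) d3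
  have g2 := deg_le (sub_eq_zero.1 c2) d2
  have g1 := deg_le (sub_eq_zero.1 c1) d1
  have g0 := deg_le (sub_eq_zero.1 c0) d0
  have hA3 : A3 = 0 := by
    rcases g3 with h | h
    · exact h
    · omega
  have hA2 : A2.totalDegree = 0 := by
    rcases g2 with h | h
    · rw [h, totalDegree_zero]
    · omega
  have hA1 : A1.totalDegree = 0 := by
    rcases g1 with h | h
    · rw [h, totalDegree_zero]
    · omega
  have hA0 : A0.totalDegree ≤ 1 := by
    rcases g0 with h | h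
    · rw [h, totalDegree_zero]; omega
    · omega
  obtain ⟨z2, hz2⟩ : ∃ z : ℂ, A2 = C z := ⟨_, totalDegree_eq_zero_iff_eq_C.1 hA2⟩
  obtain ⟨z1, hz1⟩ : ∃ z : ℂ, A1 = C z := ⟨_, totalDegree_eq_zero_iff_eq_C.1 hA1⟩
  obtain ⟨a, b, c, habc⟩ := aeval_deg_one ![uL, vL] A0 hA0
  rw [hA3, hz2, hz1, habc] at hA
  simp only [algHom_C, map_zero, zero_mul, add_zero, Matrix.cons_val_zero, Matrix.cons_val_one,
    Matrix.cons_val_fin_one] at hA
  rw [hA]
  have m0 := ee_mem t 0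
  have m1 := ee_mem t 1
  have m2 := ee_mem t 2
  have m3 := ee_mem t 3
  have m4 := ee_mem t 4
  have e : ∀ (z : ℂ) (y : Luv), y ∈ VV t → algebraMap ℂ Luv z * y ∈ VV t := by
    intro z y hy
    rw [← Algebra.smul_def]
    exact Submodule.smul_mem _ _ hy
  have q0 : algebraMap ℂ Luv a ∈ VV t := by
    have := e a 1 m0
    rwa [mul_one] at this
  exact Submodule.add_mem _ (Submodule.add_mem _ (Submodule.add_mem _ (Submodule.add_mem _ q0
    (e b _ m1)) (e c _ m2)) (e z1 _ m3)) (e z2 _ m4)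

attribute [local instance] algK

variable (ht0 : t ≠ 0) (ht1 : t ≠ 1) (ht2 : t ≠ 2)

include ht0 ht1 ht2 in
/-- Global sections of the anticanonical sheaf. -/
theorem H0 (g : (SS t).functionField)
    (hg : ∀ y : SS t, SecRegular (differential ℂ (SS t).functionField) 2 (eta t) 1 g
      (localRing (𝟙 (SS t)) y)) :
    jL (VV t) g ∈ VV t := by
  have step : ∀ (i : Fin 3) (y : SS t), tE (VV t) (e3 t i) (e3_mem t i) ∉ pid (VV t) y →
      g * (E3 t i)⁻¹ ∈ localRing (𝟙 (SS t)) y := by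
    intro i y hy
    obtain ⟨h', g2, h3⟩ := hg y
    have g1 := gen_eta t ht0 ht1 ht2 i y hy
    rw [pow_one] at h3
    rw [← Oy_coe] at g1 g2 h3 ⊢
    obtain ⟨a, ha, ha'⟩ := (g2.2 ((E3 t i)⁻¹ • eta t)).1
      ((g1.2 _).2 ⟨1, (Oy t y).one_mem, by rw [one_smul]⟩)
    rw [smul_smul] at ha'
    have h5 : (E3 t i)⁻¹ = a * h' := smul_left_injective _ (eta_ne_zero t) ha'
    rw [h5]
    have : g * (a * h') = a * (g * h') := by ring
    rw [this]
    exact (Oy t y).mul_mem ha h3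
  have step2 : ∀ i : Fin 3, jL (VV t) g / e3 t i ∈ Algebra.adjoin ℂ (Set.range (ww t i)) := by
    intro i
    obtain ⟨r, hr⟩ := inter_chart (VV t) (e3 t i) (e3_mem t i) (e3_ne_zero t i)
      (g * (E3 t i)⁻¹) (fun y hy => step i y hy)
    rw [map_mul, map_inv₀, jL_E3, ← div_eq_mul_inv] at hr
    rw [← hr]
    exact psi_mem_adjoin (VV t) (e3 t i) (e3_mem t i) (e3_ne_zero t i) (ww t i) (VV_le t i) r
  refine global_mem t _ ?_ (step2 1)
  have := step2 0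
  have e0 : e3 t 0 = 1 := rfl
  rwa [e0, div_one] at this

end Pool.Agent.H935.FF
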