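import Pool.Agent.H935.FF.Pj3

/-!
Functions regular on a chart.
-/

set_option autoImplicit false

open DirectSum HomogeneousLocalization AlgebraicGeometry CategoryTheory
open TopologicalSpace
open Pool.Agent.Helper165

namespace Pool.Agent.H935.FF

variable {k L : Type} [Field k] [Field L] [Algebra k L] (V : Submodule k L)
  (a : L) (ha : a ∈ V) (ha0 : a ≠ 0)

lemma frac_notMem (z : Spec (CommRingCat.of (Away (piece V) (tE V a ha)))) (n : ℕ) (hn : 0 < n)
    (c : L) (hc : c ∈ V ^ n) (h : mon V n c hc ∉ pid V (chart V a ha z)) :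
    frac V a ha n c hc ∉ z.asIdeal := by
  have h5 := Proj.awayι_preimage_basicOpen (piece V) (f := tE V a ha) (tE_mem V a ha)
    one_pos (g := mon V n c hc) (mon_mem V n c hc) hn
  have h6 : z ∈ (Proj.awayι (piece V) (tE V a ha) (tE_mem V a ha) one_pos) ⁻¹ᵁ
      Proj.basicOpen (piece V) (mon V n c hc) := h
  rw [h5] at h6
  have h7 : frac V a ha n c hc = Away.isLocalizationElem (tE_mem V a ha) (mon_mem V n c hc) := by
    apply HomogeneousLocalization.val_injective
    unfold frac
    rw [Away.val_mk, Away.val_mk]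
    simp
  rw [h7]
  exact h6

end Pool.Agent.H935.FF
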