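import Pool.Agent.H935.FF.Inter

/-!
Functions regular on a chart.
-/

set_option autoImplicit false

open DirectSum HomogeneousLocalization AlgebraicGeometry CategoryTheory
open TopologicalSpace
open Pool.Agent.Helper165

namespace Pool.Agent.H935.FF

variable {k L : Type} [Field k] [Field L] [Algebra k L] (V : Submodule k L)
  (a : L) (ha : a ∈ V) (ha0 : a ≠ 0)

/-- The denominators of an element of `L` in a chart ring. -/
noncomputable def denIdeal (x : L) : Ideal (Away (piece V) (tE V a ha)) where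
  carrier := {d | ∃ r, psi V a ha ha0 r = psi V a ha ha0 d * x}
  zero_mem' := ⟨0, by simp⟩
  add_mem' := by
    rintro d d' ⟨r, hr⟩ ⟨r', hr'⟩
    exact ⟨r + r', by rw [map_add, map_add, hr, hr', add_mul]⟩
  smul_mem' := by
    rintro c d ⟨r, hr⟩
    exact ⟨c * r, by rw [smul_eq_mul, map_mul, map_mul, hr, mul_assoc]⟩

include ha0 in
theorem inter_chart [IsIntegral (PV V)] (φ : (PV V).functionField)
    (h : ∀ y ∈ dPlus V a ha, φ ∈ localRing (𝟙 (PV V)) y) :
    ∃ r, psi V a ha ha0 r = jL V φ := by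
  by_contra hcon
  have hI : denIdeal V a ha ha0 (jL V φ) ≠ ⊤ := by
    intro hI
    have h1 : (1 : Away (piece V) (tE V a ha)) ∈ denIdeal V a ha ha0 (jL V φ) := by
      rw [hI]; trivial
    obtain ⟨r, hr⟩ := h1
    exact hcon ⟨r, by rw [hr, map_one, one_mul]⟩
  obtain ⟨M, hM, hIM⟩ := Ideal.exists_le_maximal _ hI
  let z : Spec (CommRingCat.of (Away (piece V) (tE V a ha))) := ⟨M, hM.isPrime⟩
  have hy : chart V a ha z ∈ dPlus V a ha := by
    rw [← chart_opensRange]
    exact ⟨z, rfl⟩
  have hy' : tE V a ha ∉ pid V (chart V a ha z) := hy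
  obtain ⟨n, b, c, hb, hc, h1, h2⟩ := (mem_localRing_iff V _ φ).1 (h _ hy)
  have hP : (pid V (chart V a ha z)).toIdeal.IsPrime := inferInstance
  have hc0 : c ≠ 0 := by
    rintro rfl
    apply h1
    have : mon V n 0 hc = 0 := by
      apply Subtype.ext
      simp [mon]
    rw [this]
    exact Ideal.zero_mem _
  have hca : c * a ∈ V ^ (n + 1) := by
    rw [pow_succ]; exact Submodule.mul_mem_mul hc ha
  have hba : b * a ∈ V ^ (n + 1) := by
    rw [pow_succ]; exact Submodule.mul_mem_mul hb ha
  have h3 : mon V (n + 1) (c * a) hca ∉ pid V (chart V a ha z) := by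
    have e : mon V (n + 1) (c * a) hca = mon V n c hc * tE V a ha := by
      rw [tE, mon_mul]
    rw [e]
    intro h4
    rcases hP.mem_or_mem h4 with h5 | h5
    · exact h1 h5
    · exact hy' h5
  have h4 := frac_notMem V a ha z (n + 1) (Nat.succ_pos n) (c * a) hca h3
  apply h4
  apply hIM
  refine ⟨frac V a ha (n + 1) (b * a) hba, ?_⟩
  rw [psi_frac, psi_frac, h2]
  field_simp

end Pool.Agent.H935.FF
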