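import Pool.Agent.H935.FF.Twist

/-!
Isomorphisms of integral schemes and function fields.
-/

set_option autoImplicit false
set_option linter.unusedSectionVars false

open CategoryTheory Limits AlgebraicGeometry TopologicalSpace
open Pool.Agent.Helper165

namespace Pool.Agent.H935.FF

variable {X Y : Scheme.{0}} [IsIntegral X] [IsIntegral Y] (e : X ≅ Y)

lemma iso_generic : e.hom (genericPoint X) ⤳ genericPoint Y := by
  rw [genericPoint_eq_of_isOpenImmersion e.hom]

/-- The map on function fields. -/
noncomputable def ffMap : Y.functionField →+* X.functionField :=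
  (locMap e.hom (genericPoint Y) (iso_generic e)).hom

lemma ffMap_localRing (x : Y) : ffMap e '' localRing (𝟙 Y) x = localRing e.hom x := by
  have key : ∀ z, ffMap e ((locMap (𝟙 Y) x (generic_specializes x)).hom z) =
      (locMap e.hom x ((iso_generic e).trans (generic_specializes x))).hom z := by
    intro z
    unfold ffMap locMap
    rw [Scheme.Hom.stalkMap_id]
    have h := Y.presheaf.stalkSpecializes_comp (iso_generic e) (generic_specializes x)
    have h2 := congrArg (fun g => (g ≫ e.hom.stalkMap (genericPoint X)).hom z) h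
    simp only [Category.assoc] at h2
    exact h2
  ext φ
  constructor
  · rintro ⟨_, ⟨h, z, rfl⟩, rfl⟩
    exact ⟨(iso_generic e).trans (generic_specializes x), z, (key z).symm⟩
  · rintro ⟨h, z, rfl⟩
    exact ⟨_, ⟨generic_specializes x, z, rfl⟩, key z⟩

lemma localRing_iso (y : X) : localRing e.hom (e.hom y) = localRing (𝟙 X) y := by
  have key : ∀ z, (locMap e.hom (e.hom y) ((generic_specializes y).map e.hom.continuous)).hom z =
      (locMap (𝟙 X) y (generic_specializes y)).hom ((e.hom.stalkMap y).hom z) := by
    intro z
    unfold locMap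
    rw [Scheme.Hom.stalkMap_id]
    have h := Scheme.Hom.stalkSpecializes_stalkMap e.hom (genericPoint X) y
      (generic_specializes y)
    exact congrArg (fun g => g.hom z) h
  ext φ
  constructor
  · rintro ⟨h, z, rfl⟩
    exact ⟨generic_specializes y, _, (key z).symm⟩
  · rintro ⟨h, z, rfl⟩
    have hb : Function.Bijective (e.hom.stalkMap y) :=
      ConcreteCategory.bijective_of_isIso (e.hom.stalkMap y)
    obtain ⟨z', rfl⟩ := hb.2 z
    exact ⟨_, z', key z'⟩

lemma localRing_generic : localRing (𝟙 X) (genericPoint X) = Set.univ := by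
  rw [Set.eq_univ_iff_forall]
  intro φ
  refine ⟨generic_specializes _, φ, ?_⟩
  rw [Scheme.Hom.stalkMap_id]
  have h := X.presheaf.stalkSpecializes_refl (genericPoint X)
  have h2 := congrArg (fun g => g.hom φ) h
  exact h2

lemma ffMap_bijective : Function.Bijective (ffMap e) := by
  refine ⟨(ffMap e).injective, fun φ => ?_⟩
  have h1 : φ ∈ localRing (𝟙 X) (genericPoint X) := by
    rw [localRing_generic]
    trivial
  rw [← localRing_iso e, ← ffMap_localRing] at h1
  obtain ⟨z, -, hz⟩ := h1
  exact ⟨z, hz⟩

/-- The isomorphism of function fields. -/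
noncomputable def ffEquiv : Y.functionField ≃+* X.functionField :=
  RingEquiv.ofBijective (ffMap e) (ffMap_bijective e)

lemma ffEquiv_localRing (y : X) :
    ffEquiv e '' localRing (𝟙 Y) (e.hom y) = localRing (𝟙 X) y := by
  rw [← localRing_iso e, ← ffMap_localRing]
  rfl

lemma ffEquiv_constants (π : Y ⟶ SpecC) (c : ℂ) :
    ffEquiv e (constants π c) = constants (e.hom ≫ π) c := by
  rw [constants_eq_germ, constants_eq_germ]
  change (locMap e.hom (genericPoint Y) (iso_generic e)).hom
    (Y.presheaf.germ ⊤ (genericPoint Y) trivial (π.appTop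
      ((Scheme.ΓSpecIso (CommRingCat.of ℂ)).inv c))) = _
  rw [locMap_germ e.hom (genericPoint Y) (iso_generic e) ⊤ trivial trivial]
  rfl

end Pool.Agent.H935.FF
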