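import Pool.Agent.H935.FF.Defs

/-!
The `ℂ`-linear structure of `D^b(coh X)`, and linear functors. This file justifies the definition
of `IsLinearOver`; it is not used elsewhere.
-/

set_option autoImplicit false

open CategoryTheory Limits AlgebraicGeometry TopologicalSpace Pretriangulated
open Pool.Agent.Helper165 Pool.Agent.TH215.TM

namespace Pool.Agent.H935.FF

section scalars

universe u

variable {X : Scheme.{u}}

/-- The restriction of a global function `a` to `U`. -/
noncomputable def resTo (a : Γ(X, ⊤)) (U : X.Opens) : Γ(X, U) :=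
  X.presheaf.map (homOfLE (le_top : U ≤ ⊤)).op a

lemma resTo_res (a : Γ(X, ⊤)) {U V : X.Opens} (i : V ⟶ U) :
    X.presheaf.map i.op (resTo a U) = resTo a V := by
  unfold resTo
  rw [← CommRingCat.comp_apply, ← Functor.map_comp]
  rfl

/-- Multiplication by a global function `a` on the abelian presheaf underlying a sheaf of
modules `M`. -/
noncomputable def mulPresheaf (a : Γ(X, ⊤)) (M : X.Modules) : M.presheaf ⟶ M.presheaf where
  app U := M.smul (U := U.unop) (resTo a U.unop)
  naturality U V i := by
    have h := Scheme.Modules.map_comp_smul (M := M) (U := V.unop) (V := U.unop) i.unop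
      (resTo a U.unop)
    rw [resTo_res] at h
    exact h.symm

/-- Multiplication by a global function `a` on a sheaf of modules `M`. -/
noncomputable def mulEnd (a : Γ(X, ⊤)) (M : X.Modules) : M ⟶ M :=
  Scheme.Modules.fullyFaithfulToPresheafOfModules.preimage
    (PresheafOfModules.homMk (mulPresheaf a M) (by
      intro U r m
      let r' : Γ(X, U.unop) := r
      let m' : Γ(M, U.unop) := m
      change resTo a U.unop • (r' • m') = r' • (resTo a U.unop • m')
      rw [smul_smul, smul_smul, mul_comm]))

/-- The action of the global functions of `X` on the category of sheaves of modules on `X`. -/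
noncomputable def mulCenter (X : Scheme.{u}) : Γ(X, ⊤) →+* CatCenter X.Modules where
  toFun a :=
    { app := fun M => mulEnd a M
      naturality := by
        intro M N f
        apply Scheme.Modules.hom_ext
        intro U
        ext m
        change resTo a U • (f.app U m) = f.app U (resTo a U • m)
        rw [Scheme.Modules.Hom.app_smul] }
  map_one' := by
    ext M U m
    change resTo 1 U • m = m
    unfold resTo
    rw [map_one, one_smul]
  map_mul' a b := by
    ext M U m
    change resTo (a * b) U • m = resTo a U • resTo b U • m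
    unfold resTo
    rw [map_mul, mul_smul]
  map_zero' := by
    ext M U m
    change resTo 0 U • m = 0
    unfold resTo
    rw [map_zero, zero_smul]
  map_add' a b := by
    ext M U m
    change resTo (a + b) U • m = resTo a U • m + resTo b U • m
    unfold resTo
    rw [map_add, add_smul]

end scalars

/-- The `ℂ`-linear structure on the category of sheaves of modules on a scheme over `ℂ`. -/
noncomputable abbrev modLinear {X : Scheme.{0}} (π : X ⟶ SpecC) : Linear ℂ X.Modules :=
  Linear.ofRingMorphism ((mulCenter X).comp (strMap π))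

section derived

attribute [local instance] HasDerivedCategory.standard

universe w v u

lemma smul_id_eq {C : Type u} [Category.{v} C] [Abelian C] [HasDerivedCategory.{w} C]
    [Linear ℂ C] (c : ℂ) (E : DerivedCategory C) (K : CochainComplex C ℤ)
    (e : DerivedCategory.Q.obj K ≅ E) :
    c • 𝟙 E = e.inv ≫ DerivedCategory.Q.map (c • 𝟙 K) ≫ e.hom := by
  rw [Functor.map_smul, CategoryTheory.Functor.map_id, Linear.smul_comp, Linear.comp_smul,
    Category.id_comp, Iso.inv_hom_id]

/-- Multiplication by a complex number `c` on the morphisms of `D^b(coh X)`, for a scheme `X`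
over `ℂ`. -/
noncomputable def smulD {X : Scheme.{0}} (π : X ⟶ SpecC) (c : ℂ) {A B : DbCoh X} (f : A ⟶ B) :
    A ⟶ B :=
  letI := modLinear π
  c • f


lemma isMul_iff {X : Scheme.{0}} (π : X ⟶ SpecC) (c : ℂ) {M : X.Modules} (φ : M ⟶ M) :
    IsMul (strMap π c) φ ↔ φ = (letI := modLinear π; c • 𝟙 M) := by
  have h1 : (letI := modLinear π; c • 𝟙 M) = mulEnd (strMap π c) M := by
    change ((mulCenter X) (strMap π c)).app M ≫ 𝟙 M = _
    rw [Category.comp_id]
    rfl
  rw [h1]
  constructor
  · intro h
    apply Scheme.Modules.hom_ext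
    intro U
    ext m
    exact h U m
  · rintro rfl U m
    rfl

lemma isMulD_iff {X : Scheme.{0}} (π : X ⟶ SpecC) (c : ℂ) {E : DbCoh X} (ψ : E ⟶ E) :
    IsMulD (strMap π c) ψ ↔ ψ = smulD π c (𝟙 E) := by
  let _ := modLinear π
  have h0 : (isDbCoh X).ι.map (smulD π c (𝟙 E)) = c • 𝟙 E.obj := rfl
  constructor
  · rintro ⟨K, e, φ, h1, h2⟩
    apply (isDbCoh X).ι.map_injective
    rw [h0, h2, smul_id_eq c E.obj K e]
    have h3 : φ = c • 𝟙 K := by
      apply HomologicalComplex.hom_ext
      intro i
      exact (isMul_iff π c (φ.f i)).1 (h1 i)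
    rw [h3]
  · rintro rfl
    refine ⟨DerivedCategory.Q.objPreimage E.obj, DerivedCategory.Q.objObjPreimageIso E.obj,
      c • 𝟙 _, fun i => (isMul_iff π c _).2 rfl, ?_⟩
    rw [h0]
    exact smul_id_eq c E.obj _ _

lemma smulD_comp {X : Scheme.{0}} (π : X ⟶ SpecC) (c : ℂ) {A B : DbCoh X} (f : A ⟶ B) :
    smulD π c f = smulD π c (𝟙 A) ≫ f := by
  let _ := modLinear π
  change c • f = (c • 𝟙 A) ≫ f
  rw [Linear.smul_comp, Category.id_comp]

/-- The functor `F` is linear in the sense of `IsLinearOver` if and only if `F (c f) = c (F f)`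
for all complex numbers `c` and all morphisms `f`. -/
theorem isLinearOver_iff {Y X : Scheme.{0}} (πY : Y ⟶ SpecC) (πX : X ⟶ SpecC)
    (F : DbCoh Y ⥤ DbCoh X) : IsLinearOver πY πX F ↔
      ∀ (A B : DbCoh Y) (f : A ⟶ B) (c : ℂ), F.map (smulD πY c f) = smulD πX c (F.map f) := by
  constructor
  · intro h A B f c
    have h1 := (isMulD_iff πX c _).1 (h c A _ ((isMulD_iff πY c _).2 rfl))
    rw [smulD_comp, F.map_comp, h1, ← smulD_comp]
  · intro h c E ψ hψ
    rw [isMulD_iff] at hψ ⊢
    rw [hψ, h, F.map_id]

end derived

end Pool.Agent.H935.FF
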