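import Mathlib

/-!
Nonvanishing of `dt₁ ∧ ⋯ ∧ dtₙ` for a transcendence basis in characteristic zero.
-/

set_option autoImplicit false

open KaehlerDifferential MvPolynomial

namespace Pool.Agent.H935.FF

lemma form_ne_zero_alg {k K : Type} [Field k] [CharZero k] [Field K] [Algebra k K] {n : ℕ}
    (t : Fin n → K) (hind : AlgebraicIndependent k t)
    (halg : ∀ _ : Algebra (MvPolynomial (Fin n) k) K,
      (∀ q, algebraMap (MvPolynomial (Fin n) k) K q = aeval t q) →
      ∀ φ : K, IsAlgebraic (MvPolynomial (Fin n) k) φ) :
    exteriorPower.ιMulti K n (fun i => D k K (t i)) ≠ 0 := by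
  classical
  let F : MvPolynomial (Fin n) k →ₐ[k] K := aeval t
  have hinj : Function.Injective F := hind
  let _ : Algebra (MvPolynomial (Fin n) k) K := F.toRingHom.toAlgebra
  have hFA : ∀ q, algebraMap (MvPolynomial (Fin n) k) K q = F q := fun q => rfl
  have : IsScalarTower k (MvPolynomial (Fin n) k) K := by
    apply IsScalarTower.of_algebraMap_eq
    intro c
    rw [hFA]
    exact (F.commutes c).symm
  have hinj' : Function.Injective (algebraMap (MvPolynomial (Fin n) k) K) := hinj
  let _ : FaithfulSMul (MvPolynomial (Fin n) k) K :=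
    (faithfulSMul_iff_algebraMap_injective _ _).2 hinj'
  let Q := FractionRing (MvPolynomial (Fin n) k)
  let _ : Algebra Q K := FractionRing.liftAlgebra (MvPolynomial (Fin n) k) K
  have : IsScalarTower (MvPolynomial (Fin n) k) Q K :=
    FractionRing.isScalarTower_liftAlgebra _ _
  have hQ : CharZero Q := charZero_of_injective_algebraMap
    (IsFractionRing.injective (MvPolynomial (Fin n) k) Q)
  have h1 : Algebra.IsAlgebraic (MvPolynomial (Fin n) k) K := ⟨halg _ hFA⟩
  have h2 : Algebra.IsAlgebraic Q K :=
    ⟨fun x => (h1.isAlgebraic x).extendScalars (IsFractionRing.injective _ Q)⟩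
  have h3 : Algebra.FormallyEtale Q K := Algebra.FormallyEtale.of_isSeparable Q K
  have h4 : Algebra.FormallyEtale (MvPolynomial (Fin n) k) Q :=
    Algebra.FormallyEtale.of_isLocalization (nonZeroDivisors _)
  have h5 : Algebra.FormallyEtale (MvPolynomial (Fin n) k) K :=
    Algebra.FormallyEtale.comp _ Q K
  let b : Module.Basis (Fin n) K (Ω[K⁄k]) :=
    ((mvPolynomialBasis k (Fin n)).baseChange K).map
      (KaehlerDifferential.tensorKaehlerEquivOfFormallyEtale k (MvPolynomial (Fin n) k) K)
  have hb : ∀ i, b i = D k K (t i) := by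
    intro i
    simp only [b, Module.Basis.map_apply, Module.Basis.baseChange_apply,
      mvPolynomialBasis_apply, tensorKaehlerEquivOfFormallyEtale_apply, mapBaseChange_tmul,
      one_smul, map_D, hFA]
    simp [F]
  have hb' : (fun i => D k K (t i)) = b := by
    funext i; exact (hb i).symm
  rw [hb']
  intro h0
  have h1 := exteriorPower.alternatingMapLinearEquiv_apply_ιMulti b.det b
  rw [h0, map_zero, Module.Basis.det_self] at h1
  exact zero_ne_one h1

end Pool.Agent.H935.FF
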