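import Pool.Agent.H935.FF.Surf2
import Pool.Agent.H935.FF.Gen
import Pool.Agent.H935.FF.NonZ
import Pool.Agent.H935.FF.Defs

/-!
The local rings and the canonical sheaf of the del Pezzo surfaces.
-/

set_option autoImplicit false
set_option linter.unusedSimpArgs false

open AlgebraicGeometry CategoryTheory TopologicalSpace
open Pool.Agent.Helper165 KaehlerDifferential

namespace Pool.Agent.H935.FF

lemma minors_hom {R : Type*} [CommRing R] [Algebra ℂ R] (M : Ideal R) [M.IsPrime]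
    (x y z S T : R) (a b c a' b' c' : ℂ) (hN : Nondeg a b c a' b' c')
    (h1 : S ^ 2 = algebraMap ℂ R a * x ^ 2 + algebraMap ℂ R b * y ^ 2 + algebraMap ℂ R c * z ^ 2)
    (h2 : T ^ 2 = algebraMap ℂ R a' * x ^ 2 + algebraMap ℂ R b' * y ^ 2 +
      algebraMap ℂ R c' * z ^ 2) (hz : z ∉ M) :
    (x ∉ M ∧ y ∉ M) ∨ (x ∉ M ∧ S ∉ M) ∨ (x ∉ M ∧ T ∉ M) ∨ (y ∉ M ∧ S ∉ M) ∨ (y ∉ M ∧ T ∉ M) ∨
      (S ∉ M ∧ T ∉ M) := by
  have hP : M.IsPrime := inferInstance
  have sq : ∀ z ∈ M, ∀ w : R, w * z ^ 2 ∈ M := fun z hz w =>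
    M.mul_mem_left w (M.pow_mem_of_mem hz 2 two_pos)
  have sq1 : ∀ z ∈ M, z ^ 2 ∈ M := fun z hz => M.pow_mem_of_mem hz 2 two_pos
  have hcz : ∀ w : ℂ, w ≠ 0 → algebraMap ℂ R w * z ^ 2 ∉ M := by
    intro w hw h
    rcases hP.mem_or_mem h with h | h
    · exact const_notMem M w hw h
    · exact hz (hP.mem_of_pow_mem 2 h)
  by_contra hcon
  push Not at hcon
  obtain ⟨hxy, hxS, hxT, hyS, hyT, hST⟩ := hcon
  by_cases hx : x ∈ M
  · by_cases hy : y ∈ M
    · by_cases hS : S ∈ M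
      · apply hcz c hN.hc
        have : algebraMap ℂ R c * z ^ 2 = S ^ 2 - algebraMap ℂ R a * x ^ 2 -
            algebraMap ℂ R b * y ^ 2 := by
          rw [h1]; ring
        rw [this]
        exact M.sub_mem (M.sub_mem (sq1 S hS) (sq x hx _)) (sq y hy _)
      · have hT := hST hS
        apply hcz c' hN.hc'
        have : algebraMap ℂ R c' * z ^ 2 = T ^ 2 - algebraMap ℂ R a' * x ^ 2 -
            algebraMap ℂ R b' * y ^ 2 := by
          rw [h2]; ring
        rw [this]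
        exact M.sub_mem (M.sub_mem (sq1 T hT) (sq x hx _)) (sq y hy _)
    · have hS : S ∈ M := hyS hy
      have hT : T ∈ M := hyT hy
      apply hcz _ hN.hbc
      have : algebraMap ℂ R (b * c' - b' * c) * z ^ 2 = algebraMap ℂ R b * (T ^ 2) -
          algebraMap ℂ R b' * (S ^ 2) - (algebraMap ℂ R b * algebraMap ℂ R a' -
          algebraMap ℂ R b' * algebraMap ℂ R a) * x ^ 2 := by
        rw [h1, h2]
        simp only [map_sub, map_mul]
        ring
      rw [this]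
      exact M.sub_mem (M.sub_mem (sq T hT _) (sq S hS _)) (sq x hx _)
  · have hy : y ∈ M := hxy hx
    have hS : S ∈ M := hxS hx
    have hT : T ∈ M := hxT hx
    apply hcz _ hN.hac
    have : algebraMap ℂ R (a * c' - a' * c) * z ^ 2 = algebraMap ℂ R a * (T ^ 2) -
        algebraMap ℂ R a' * (S ^ 2) - (algebraMap ℂ R a * algebraMap ℂ R b' -
        algebraMap ℂ R a' * algebraMap ℂ R b) * y ^ 2 := by
      rw [h1, h2]
      simp only [map_sub, map_mul]
      ring
    rw [this]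
    exact M.sub_mem (M.sub_mem (sq T hT _) (sq S hS _)) (sq y hy _)

/-- Generators can be multiplied by units. -/
lemma isGenerator_unit {K M : Type*} [Field K] [AddCommGroup M] [Module K M] (d : K → M) (n : ℕ)
    (O : Subring K) (ω : ⋀[K]^n M) (h : IsGenerator d n (O : Set K) ω) (c : K) (hc : c ∈ O)
    (hc' : c⁻¹ ∈ O) (hc0 : c ≠ 0) : IsGenerator d n (O : Set K) (c • ω) := by
  refine ⟨smul_ne_zero hc0 h.1, fun η => ?_⟩
  rw [h.2 η]
  constructor
  · rintro ⟨g, hg, rfl⟩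
    exact ⟨g * c⁻¹, O.mul_mem hg hc', by rw [smul_smul, mul_assoc, inv_mul_cancel₀ hc0, mul_one]⟩
  · rintro ⟨g, hg, rfl⟩
    exact ⟨g * c, O.mul_mem hg hc, by rw [smul_smul]⟩

variable (t : ℂ)

/-- The rational functions `1, u, v, s, r` on the surface. -/
noncomputable def EE (j : Fin 5) : (SS t).functionField :=
  (exists_jL_eq (VV t) (one_mem_VV t) one_ne_zero 1 (ee t j) 1 (by simpa using ee_mem t j)
    (by simpa using one_mem_VV t) one_ne_zero).choose

lemma jL_EE (j : Fin 5) : jL (VV t) (EE t j) = ee t j := by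
  have := (exists_jL_eq (VV t) (one_mem_VV t) one_ne_zero 1 (ee t j) 1
    (by simpa using ee_mem t j) (by simpa using one_mem_VV t) one_ne_zero).choose_spec
  exact this.trans (div_one _)

/-- The affine coordinates of the charts as rational functions on the surface. -/
noncomputable def WW (i : Fin 3) (j : Fin 4) : (SS t).functionField :=
  (exists_jL_eq (VV t) (one_mem_VV t) one_ne_zero 1 (e3 t i * ww t i j) (e3 t i)
    (by simpa using mul_ww_mem t i j) (by simpa using e3_mem t i) (e3_ne_zero t i)).choose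

lemma jL_WW (i : Fin 3) (j : Fin 4) : jL (VV t) (WW t i j) = ww t i j := by
  have := (exists_jL_eq (VV t) (one_mem_VV t) one_ne_zero 1 (e3 t i * ww t i j) (e3 t i)
    (by simpa using mul_ww_mem t i j) (by simpa using e3_mem t i) (e3_ne_zero t i)).choose_spec
  exact this.trans (mul_div_cancel_left₀ _ (e3_ne_zero t i))

/-- The local ring at `y` as a subring of the function field. -/
noncomputable def Oy (y : SS t) : Subring (SS t).functionField :=
  localSubring (𝟙 (SS t)) y (generic_specializes y)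

lemma Oy_coe (y : SS t) : (Oy t y : Set (SS t).functionField) = localRing (𝟙 (SS t)) y :=
  localSubring_coe (𝟙 (SS t)) y (generic_specializes y)

lemma mem_Oy (y : SS t) (φ : (SS t).functionField) : φ ∈ Oy t y ↔
    ∃ (n : ℕ) (a b : Luv) (_ : a ∈ VV t ^ n) (hb : b ∈ VV t ^ n),
      mon (VV t) n b hb ∉ pid (VV t) y ∧ jL (VV t) φ = a / b := by
  rw [← mem_localRing_iff, ← Oy_coe]
  rfl

/-- The algebra structure of the function field. -/
noncomputable abbrev algK : Algebra ℂ (SS t).functionField := (constants (SSπ t)).toAlgebra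

attribute [local instance] algK

lemma algK_apply (c : ℂ) : algebraMap ℂ (SS t).functionField c = constants (SSπ t) c := rfl

lemma jL_alg (c : ℂ) : jL (VV t) (algebraMap ℂ (SS t).functionField c) = algebraMap ℂ Luv c :=
  jL_constants (VV t) c

/-- The embedding as an algebra map. -/
noncomputable def jA : (SS t).functionField →ₐ[ℂ] Luv :=
  { jL (VV t) with commutes' := jL_alg t }

lemma jA_apply (φ : (SS t).functionField) : jA t φ = jL (VV t) φ := rfl

lemma jA_injective : Function.Injective (jA t) := jL_injective (VV t)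

lemma const_mem_Oy (y : SS t) (c : ℂ) : algebraMap ℂ (SS t).functionField c ∈ Oy t y := by
  rw [mem_Oy]
  refine ⟨0, algebraMap ℂ Luv c, 1, ?_, ?_, ?_, ?_⟩
  · rw [pow_zero]; exact Submodule.mem_one.2 ⟨c, rfl⟩
  · rw [pow_zero]; exact Submodule.mem_one.2 ⟨1, map_one _⟩
  · have : mon (VV t) 0 1 (by rw [pow_zero]; exact Submodule.mem_one.2 ⟨1, map_one _⟩) = 1 := by
      apply Subtype.ext
      simp [mon]
    rw [this]
    exact (Ideal.ne_top_iff_one _).1 (Ideal.IsPrime.ne_top inferInstance)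
  · rw [jL_alg, div_one]

lemma lift_adjoin (i : Fin 3) (x : Luv) (hx : x ∈ Algebra.adjoin ℂ (Set.range (ww t i))) :
    ∃ φ ∈ Algebra.adjoin ℂ (Set.range (WW t i)), jL (VV t) φ = x := by
  induction hx using Algebra.adjoin_induction with
  | mem x hx =>
    obtain ⟨j, rfl⟩ := hx
    exact ⟨WW t i j, Algebra.subset_adjoin ⟨j, rfl⟩, jL_WW t i j⟩
  | algebraMap r => exact ⟨algebraMap ℂ _ r, Subalgebra.algebraMap_mem _ _, jL_alg t r⟩
  | add x y _ _ hx hy =>
    obtain ⟨a, ha, rfl⟩ := hx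
    obtain ⟨b, hb, rfl⟩ := hy
    exact ⟨a + b, Subalgebra.add_mem _ ha hb, map_add _ _ _⟩
  | mul x y _ _ hx hy =>
    obtain ⟨a, ha, rfl⟩ := hx
    obtain ⟨b, hb, rfl⟩ := hy
    exact ⟨a * b, Subalgebra.mul_mem _ ha hb, map_mul _ _ _⟩

lemma pow_notMem (y : SS t) (a : Luv) (ha : a ∈ VV t) (hy : tE (VV t) a ha ∉ pid (VV t) y)
    (n : ℕ) : ∃ h, mon (VV t) n (a ^ n) h ∉ pid (VV t) y := by
  have hn : a ^ n ∈ VV t ^ n := Submodule.pow_mem_pow _ ha n
  refine ⟨hn, ?_⟩
  have : mon (VV t) n (a ^ n) hn = tE (VV t) a ha ^ n := by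
    apply Subtype.ext
    rw [Subalgebra.coe_pow, tE_coe]
    simp only [mon]
    rw [mul_pow, ← map_pow, Polynomial.C_mul_X_pow_eq_monomial]
  rw [this]
  intro h
  exact hy (Ideal.IsPrime.mem_of_pow_mem (inferInstance : (pid (VV t) y).toIdeal.IsPrime) n h)

lemma mem_frac_ww (i : Fin 3) (n : ℕ) (a b : Luv) (ha : a ∈ VV t ^ n) (hb : b ∈ VV t ^ n)
    (φ : (SS t).functionField) (hb0 : b ≠ 0) (h : jL (VV t) φ = a / b) :
    ∃ p ∈ Algebra.adjoin ℂ (Set.range (WW t i)), ∃ q ∈ Algebra.adjoin ℂ (Set.range (WW t i)),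
      q ≠ 0 ∧ jL (VV t) q = b / e3 t i ^ n ∧ φ = p / q := by
  obtain ⟨p, hp, hp'⟩ := lift_adjoin t i _
    (div_pow_mem_adjoin (VV t) (e3 t i) (e3_ne_zero t i) (ww t i) (VV_le t i) n a ha)
  obtain ⟨q, hq, hq'⟩ := lift_adjoin t i _
    (div_pow_mem_adjoin (VV t) (e3 t i) (e3_ne_zero t i) (ww t i) (VV_le t i) n b hb)
  have he := pow_ne_zero n (e3_ne_zero t i)
  refine ⟨p, hp, q, hq, ?_, hq', ?_⟩
  · rintro rfl
    rw [map_zero] at hq'
    exact div_ne_zero hb0 he hq'.symm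
  · apply jL_injective (VV t)
    rw [map_div₀, hp', hq', h]
    field_simp

lemma ne_zero_of_notMem (y : SS t) (n : ℕ) (b : Luv) (hb : b ∈ VV t ^ n)
    (h : mon (VV t) n b hb ∉ pid (VV t) y) : b ≠ 0 := by
  rintro rfl
  apply h
  have : mon (VV t) n 0 hb = 0 := by
    apply Subtype.ext
    simp [mon]
  rw [this]
  exact Ideal.zero_mem _

lemma frac_Oy (i : Fin 3) (y : SS t) (φ : (SS t).functionField) (hφ : φ ∈ Oy t y) :
    ∃ p ∈ Algebra.adjoin ℂ (Set.range (WW t i)), ∃ q ∈ Algebra.adjoin ℂ (Set.range (WW t i)),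
      q ≠ 0 ∧ q⁻¹ ∈ Oy t y ∧ φ = p / q := by
  obtain ⟨n, a, b, ha, hb, h1, h2⟩ := (mem_Oy t y φ).1 hφ
  obtain ⟨p, hp, q, hq, hq0, hq', h3⟩ := mem_frac_ww t i n a b ha hb φ
    (ne_zero_of_notMem t y n b hb h1) h2
  refine ⟨p, hp, q, hq, hq0, ?_, h3⟩
  rw [mem_Oy]
  refine ⟨n, e3 t i ^ n, b, Submodule.pow_mem_pow _ (e3_mem t i) n, hb, h1, ?_⟩
  rw [map_inv₀, hq', inv_div]

lemma WW_mem_Oy (i : Fin 3) (y : SS t) (hy : tE (VV t) (e3 t i) (e3_mem t i) ∉ pid (VV t) y)
    (j : Fin 4) : WW t i j ∈ Oy t y := by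
  rw [mem_Oy]
  refine ⟨1, e3 t i * ww t i j, e3 t i, by simpa using mul_ww_mem t i j,
    by simpa using e3_mem t i, hy, ?_⟩
  rw [jL_WW, mul_div_cancel_left₀ _ (e3_ne_zero t i)]

lemma WW_inv_mem_Oy (i : Fin 3) (y : SS t) (j : Fin 4)
    (hy : tE (VV t) (e3 t i * ww t i j) (mul_ww_mem t i j) ∉ pid (VV t) y) :
    (WW t i j)⁻¹ ∈ Oy t y := by
  rw [mem_Oy]
  refine ⟨1, e3 t i, e3 t i * ww t i j, by simpa using e3_mem t i,
    by simpa using mul_ww_mem t i j, hy, ?_⟩
  have h := e3_ne_zero t i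
  rw [map_inv₀, jL_WW, div_mul_eq_div_div, div_self h, one_div]

end Pool.Agent.H935.FF
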