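import Pool.Agent.H935.FF.Loc

/-!
The surfaces are del Pezzo surfaces.
-/

set_option autoImplicit false
set_option linter.unusedSimpArgs false

open AlgebraicGeometry CategoryTheory TopologicalSpace
open Pool.Agent.Helper165 KaehlerDifferential

namespace Pool.Agent.H935.FF

variable (t : ℂ)

attribute [local instance] algK

lemma WW_rel1 (i : Fin 3) : WW t i 2 ^ 2 =
    algebraMap ℂ (SS t).functionField 1 * WW t i 0 ^ 2 +
    algebraMap ℂ (SS t).functionField 1 * WW t i 1 ^ 2 +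
    algebraMap ℂ (SS t).functionField 1 := by
  apply jL_injective (VV t)
  simp only [map_add, map_mul, map_pow, jL_WW, jL_alg]
  exact ww_rel1 t i

lemma WW_rel2 (i : Fin 3) : WW t i 3 ^ 2 =
    algebraMap ℂ (SS t).functionField (co t i 0) * WW t i 0 ^ 2 +
    algebraMap ℂ (SS t).functionField (co t i 1) * WW t i 1 ^ 2 +
    algebraMap ℂ (SS t).functionField (co t i 2) := by
  apply jL_injective (VV t)
  simp only [map_add, map_mul, map_pow, jL_WW, jL_alg]
  exact ww_rel2 t i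

lemma jA_aeval (x y : (SS t).functionField) (p : MvPolynomial (Fin 2) ℂ) :
    jL (VV t) (MvPolynomial.aeval ![x, y] p) =
      MvPolynomial.aeval ![jL (VV t) x, jL (VV t) y] p := by
  rw [← jA_apply, MvPolynomial.comp_aeval_apply]
  congr 2
  funext j
  fin_cases j <;> rfl

/-- From independence of `1, S, T, S T` to algebraic independence. -/
lemma algInd_of_indep {S : Type} [CommRing S] [Algebra ℂ S] (w : Fin 4 → S) (h : Indep w) :
    AlgebraicIndependent ℂ ![w 0, w 1] := by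
  rw [algebraicIndependent_iff]
  intro p hp
  exact (h p 0 0 0 (by simp [hp])).1

lemma WW_algInd (i : Fin 3) : AlgebraicIndependent ℂ ![WW t i 0, WW t i 1] := by
  rw [algebraicIndependent_iff]
  intro p hp
  have h := congrArg (jL (VV t)) hp
  rw [jA_aeval, map_zero, jL_WW, jL_WW] at h
  exact (algebraicIndependent_iff.1 (algInd_of_indep (ww t i) (ww_ind t i))) p h

lemma WW_ne_zero (i : Fin 3) : WW t i 0 ≠ 0 ∧ WW t i 1 ≠ 0 ∧ WW t i 2 ≠ 0 ∧ WW t i 3 ≠ 0 := by
  have key : ∀ j, ww t i j ≠ 0 → WW t i j ≠ 0 := by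
    intro j hj h
    apply hj
    rw [← jL_WW, h, map_zero]
  have hi := ww_ind t i
  refine ⟨key _ ?_, key _ ?_, key _ ?_, key _ ?_⟩
  · intro h
    have := (hi (MvPolynomial.X 0) 0 0 0 (by simp [h])).1
    exact MvPolynomial.X_ne_zero (R := ℂ) (0 : Fin 2) this
  · intro h
    have := (hi (MvPolynomial.X 1) 0 0 0 (by simp [h])).1
    exact MvPolynomial.X_ne_zero (R := ℂ) (1 : Fin 2) this
  · intro h
    have := (hi 0 1 0 0 (by simp [h])).2.1
    exact one_ne_zero this
  · intro h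
    have := (hi 0 0 1 0 (by simp [h])).2.2.1
    exact one_ne_zero this

lemma exists_frac_all (i : Fin 3) (φ : (SS t).functionField) :
    ∃ p ∈ Algebra.adjoin ℂ (Set.range (WW t i)), ∃ q ∈ Algebra.adjoin ℂ (Set.range (WW t i)),
      φ = p / q := by
  obtain ⟨n, a, b, ha, hb, h1, h2⟩ := evAt_eq (VV t) (genericPoint (SS t)) φ
  have h3 : jL (VV t) φ = a / b := (jL_eq_iff (VV t) φ (a / b)).2 h2
  obtain ⟨p, hp, q, hq, -, -, h⟩ := mem_frac_ww t i n a b ha hb φ
    (ne_zero_of_notMem t _ n b hb h1) h3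
  exact ⟨p, hp, q, hq, h⟩

lemma form_ne_zero (i : Fin 3) :
    (WW t i 2 * WW t i 3)⁻¹ • exteriorPower.ιMulti (SS t).functionField 2
      ![D ℂ (SS t).functionField (WW t i 0), D ℂ (SS t).functionField (WW t i 1)] ≠ 0 := by
  obtain ⟨-, -, h2, h3⟩ := WW_ne_zero t i
  refine smul_ne_zero (inv_ne_zero (mul_ne_zero h2 h3)) ?_
  have h := form_ne_zero_alg ![WW t i 0, WW t i 1] (WW_algInd t i) ?_
  · have e : ![D ℂ (SS t).functionField (WW t i 0), D ℂ (SS t).functionField (WW t i 1)] =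
      fun j => D ℂ (SS t).functionField (![WW t i 0, WW t i 1] j) := by
      funext j
      fin_cases j <;> rfl
    rw [e]
    exact h
  · intro inst hinst φ
    have hinj : Function.Injective (algebraMap (MvPolynomial (Fin 2) ℂ)
        (SS t).functionField) := by
      intro p q hpq
      rw [hinst, hinst] at hpq
      exact WW_algInd t i hpq
    have hC : ∀ c : ℂ, IsAlgebraic (MvPolynomial (Fin 2) ℂ)
        (algebraMap ℂ (SS t).functionField c) := by
      intro c
      have : algebraMap ℂ (SS t).functionField c =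
          algebraMap (MvPolynomial (Fin 2) ℂ) _ (MvPolynomial.C c) := by
        rw [hinst, MvPolynomial.algHom_C]
      rw [this]
      exact isAlgebraic_algebraMap _
    have h0 : IsAlgebraic (MvPolynomial (Fin 2) ℂ) (WW t i 0) := by
      have : WW t i 0 = algebraMap (MvPolynomial (Fin 2) ℂ) _ (MvPolynomial.X 0) := by
        rw [hinst, MvPolynomial.aeval_X]
        rfl
      rw [this]
      exact isAlgebraic_algebraMap _
    have h1 : IsAlgebraic (MvPolynomial (Fin 2) ℂ) (WW t i 1) := by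
      have : WW t i 1 = algebraMap (MvPolynomial (Fin 2) ℂ) _ (MvPolynomial.X 1) := by
        rw [hinst, MvPolynomial.aeval_X]
        rfl
      rw [this]
      exact isAlgebraic_algebraMap _
    have h2 : IsAlgebraic (MvPolynomial (Fin 2) ℂ) (WW t i 2) := by
      refine IsAlgebraic.of_pow two_pos ?_
      rw [WW_rel1]
      exact (((hC _).mul (h0.pow 2)).add ((hC _).mul (h1.pow 2))).add (hC _)
    have h3 : IsAlgebraic (MvPolynomial (Fin 2) ℂ) (WW t i 3) := by
      refine IsAlgebraic.of_pow two_pos ?_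
      rw [WW_rel2]
      exact (((hC _).mul (h0.pow 2)).add ((hC _).mul (h1.pow 2))).add (hC _)
    have hadj : ∀ p ∈ Algebra.adjoin ℂ (Set.range (WW t i)),
        IsAlgebraic (MvPolynomial (Fin 2) ℂ) p := by
      intro p hp
      induction hp using Algebra.adjoin_induction with
      | mem x hx =>
        obtain ⟨j, rfl⟩ := hx
        fin_cases j
        · exact h0
        · exact h1
        · exact h2
        · exact h3
      | algebraMap r => exact hC r
      | add x y _ _ hx hy => exact hx.add hy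
      | mul x y _ _ hx hy => exact hx.mul hy
    obtain ⟨p, hp, q, hq, rfl⟩ := exists_frac_all t i φ
    rw [div_eq_mul_inv]
    exact (hadj p hp).mul (hadj q hq).inv

/-- The element `(e₃ᵢ w_j) T` of the section algebra. -/
noncomputable def tw (i : Fin 3) (j : Fin 4) : secAlg (VV t) :=
  tE (VV t) (e3 t i * ww t i j) (mul_ww_mem t i j)

lemma tw_rel1 (i : Fin 3) : tw t i 2 ^ 2 = algebraMap ℂ _ 1 * tw t i 0 ^ 2 +
    algebraMap ℂ _ 1 * tw t i 1 ^ 2 +
    algebraMap ℂ _ 1 * tE (VV t) (e3 t i) (e3_mem t i) ^ 2 := by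
  apply Subtype.ext
  simp only [tw, Subalgebra.coe_pow, Subalgebra.coe_add, Subalgebra.coe_mul, tE_coe,
    Subalgebra.coe_algebraMap]
  have h := congrArg (fun z => Polynomial.C (e3 t i ^ 2 * z)) (ww_rel1 t i)
  simp only [map_add, map_pow, map_mul] at h ⊢
  have e : ∀ z : ℂ, algebraMap ℂ (Polynomial Luv) z = Polynomial.C (algebraMap ℂ Luv z) :=
    fun z => rfl
  rw [e]
  linear_combination (Polynomial.X ^ 2) * h

lemma tw_rel2 (i : Fin 3) : tw t i 3 ^ 2 = algebraMap ℂ _ (co t i 0) * tw t i 0 ^ 2 +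
    algebraMap ℂ _ (co t i 1) * tw t i 1 ^ 2 +
    algebraMap ℂ _ (co t i 2) * tE (VV t) (e3 t i) (e3_mem t i) ^ 2 := by
  apply Subtype.ext
  simp only [tw, Subalgebra.coe_pow, Subalgebra.coe_add, Subalgebra.coe_mul, tE_coe,
    Subalgebra.coe_algebraMap]
  have h := congrArg (fun z => Polynomial.C (e3 t i ^ 2 * z)) (ww_rel2 t i)
  simp only [map_add, map_pow, map_mul] at h ⊢
  have e : ∀ z : ℂ, algebraMap ℂ (Polynomial Luv) z = Polynomial.C (algebraMap ℂ Luv z) :=
    fun z => rfl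
  rw [e, e, e]
  linear_combination (Polynomial.X ^ 2) * h

variable (ht0 : t ≠ 0) (ht1 : t ≠ 1) (ht2 : t ≠ 2)

include ht0 ht1 ht2 in
theorem gen_Oy (i : Fin 3) (y : SS t) (hy : tE (VV t) (e3 t i) (e3_mem t i) ∉ pid (VV t) y) :
    IsGenerator (differential ℂ (SS t).functionField) 2 (Oy t y : Set (SS t).functionField)
      ((WW t i 2 * WW t i 3)⁻¹ • exteriorPower.ιMulti (SS t).functionField 2
      ![D ℂ (SS t).functionField (WW t i 0), D ℂ (SS t).functionField (WW t i 1)]) := by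
  obtain ⟨h0, h1, h2, h3⟩ := WW_ne_zero t i
  refine gen_chart (Oy t y) (const_mem_Oy t y) (WW t i) (WW_mem_Oy t i y hy)
    (frac_Oy t i y) _ _ _ _ _ _ (co_nondeg t ht0 ht1 ht2 i) (WW_rel1 t i) (WW_rel2 t i) h2 h3
    (form_ne_zero t i) h0 h1 ?_
  have hm := minors_hom (pid (VV t) y).toIdeal (tw t i 0) (tw t i 1)
    (tE (VV t) (e3 t i) (e3_mem t i)) (tw t i 2) (tw t i 3) _ _ _ _ _ _
    (co_nondeg t ht0 ht1 ht2 i) (tw_rel1 t i) (tw_rel2 t i) hy
  have hinv : ∀ p q : Fin 4, tw t i p ∉ (pid (VV t) y).toIdeal →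
      tw t i q ∉ (pid (VV t) y).toIdeal → (WW t i p * WW t i q)⁻¹ ∈ Oy t y := by
    intro p q hp hq
    rw [mul_inv]
    exact (Oy t y).mul_mem (WW_inv_mem_Oy t i y p hp) (WW_inv_mem_Oy t i y q hq)
  rcases hm with h | h | h | h | h | h
  · exact Or.inl (hinv 0 1 h.1 h.2)
  · exact Or.inr (Or.inl (hinv 0 2 h.1 h.2))
  · exact Or.inr (Or.inr (Or.inl (hinv 0 3 h.1 h.2)))
  · exact Or.inr (Or.inr (Or.inr (Or.inl (hinv 1 2 h.1 h.2))))
  · exact Or.inr (Or.inr (Or.inr (Or.inr (Or.inl (hinv 1 3 h.1 h.2)))))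
  · exact Or.inr (Or.inr (Or.inr (Or.inr (Or.inr (hinv 2 3 h.1 h.2)))))

/-- The rational form `du ∧ dv / (s r)`. -/
noncomputable def eta : ⋀[(SS t).functionField]^2 (Ω[(SS t).functionField⁄ℂ]) :=
  (EE t 3 * EE t 4)⁻¹ • exteriorPower.ιMulti (SS t).functionField 2
    ![D ℂ (SS t).functionField (EE t 1), D ℂ (SS t).functionField (EE t 2)]

lemma EE_ne_zero (j : Fin 5) (h : ee t j ≠ 0) : EE t j ≠ 0 := by
  intro h0
  apply h
  rw [← jL_EE, h0, map_zero]

/-- The function `e₃ᵢ`. -/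
noncomputable def E3 (i : Fin 3) : (SS t).functionField := EE t (Fin.castLE (by norm_num) i)

lemma jL_E3 (i : Fin 3) : jL (VV t) (E3 t i) = e3 t i := jL_EE t _

lemma E3_ne_zero (i : Fin 3) : E3 t i ≠ 0 := EE_ne_zero t _ (e3_ne_zero t i)

lemma wedge_det (K M : Type) [Field K] [AddCommGroup M] [Module K M] (x y : M)
    (a b c d : K) : exteriorPower.ιMulti K 2 ![a • x + b • y, c • x + d • y] =
      (a * d - b * c) • exteriorPower.ιMulti K 2 ![x, y] := by
  have h1 : ![a • x + b • y, c • x + d • y] =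
      fun i => ∑ j, (!![a, b; c, d] : Matrix (Fin 2) (Fin 2) K) i j • (![x, y] : Fin 2 → M) j := by
    funext i
    fin_cases i <;> simp
  rw [h1, alternating_det, Matrix.det_fin_two_of]

lemma D_inv' {K : Type} [Field K] [Algebra ℂ K] (c : K) (hc : c ≠ 0) :
    D ℂ K c⁻¹ = (-(c⁻¹ * c⁻¹)) • D ℂ K c := by
  have h : D ℂ K (c * c⁻¹) = 0 := by rw [mul_inv_cancel₀ hc, Derivation.map_one_eq_zero]
  rw [Derivation.leibniz] at h
  have h2 : c • D ℂ K c⁻¹ = -(c⁻¹ • D ℂ K c) := eq_neg_of_add_eq_zero_left h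
  have h3 : D ℂ K c⁻¹ = c⁻¹ • (c • D ℂ K c⁻¹) := by
    rw [smul_smul, inv_mul_cancel₀ hc, one_smul]
  rw [h3, h2, smul_neg, smul_smul, neg_smul]

lemma omega_eq (i : Fin 3) : ∃ c : (SS t).functionField, (c = 1 ∨ c = -1) ∧
    (WW t i 2 * WW t i 3)⁻¹ • exteriorPower.ιMulti (SS t).functionField 2
      ![D ℂ (SS t).functionField (WW t i 0), D ℂ (SS t).functionField (WW t i 1)] =
      c • ((E3 t i)⁻¹ • eta t) := by
  have hE : ∀ (j : Fin 5) (x : Luv) (φ : (SS t).functionField), jL (VV t) φ = x → x = ee t j →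
      φ = EE t j := by
    intro j x φ h1 h2
    apply jL_injective (VV t)
    rw [h1, h2, jL_EE]
  have hu0 : EE t 1 ≠ 0 := EE_ne_zero t 1 uL_ne_zero
  have hv0 : EE t 2 ≠ 0 := EE_ne_zero t 2 vL_ne_zero
  have hs0 : EE t 3 ≠ 0 := by
    intro h
    have h1 := jL_EE t 3
    rw [h, map_zero] at h1
    have h2 := (WW_ne_zero t 0).2.2.1
    apply h2
    apply jL_injective (VV t)
    rw [jL_WW, map_zero]
    have : ww t 0 2 = ee t 3 := by simp [ww, ee]
    rw [this, ← h1]
  have hr0 : EE t 4 ≠ 0 := by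
    intro h
    have h1 := jL_EE t 4
    rw [h, map_zero] at h1
    have h2 := (WW_ne_zero t 0).2.2.2
    apply h2
    apply jL_injective (VV t)
    rw [jL_WW, map_zero]
    have : ww t 0 3 = ee t 4 := by simp [ww, ee]
    rw [this, ← h1]
  have ee1 : ee t 1 = uL := rfl
  have ee2 : ee t 2 = vL := rfl
  have ee3 : ee t 3 = sL := rfl
  have ee4 : ee t 4 = rL t := rfl
  fin_cases i
  · refine ⟨1, Or.inl rfl, ?_⟩
    have w0 : WW t 0 0 = EE t 1 := hE 1 _ _ (jL_WW t 0 0) rfl
    have w1 : WW t 0 1 = EE t 2 := hE 2 _ _ (jL_WW t 0 1) rfl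
    have w2 : WW t 0 2 = EE t 3 := hE 3 _ _ (jL_WW t 0 2) (by simp [ww, ee])
    have w3 : WW t 0 3 = EE t 4 := hE 4 _ _ (jL_WW t 0 3) (by simp [ww, ee])
    have e0 : E3 t 0 = 1 := by
      apply jL_injective (VV t)
      rw [jL_E3, map_one]
      rfl
    simp only [Fin.zero_eta, w0, w1, w2, w3, e0, inv_one, one_smul]
    rfl
  · refine ⟨-1, Or.inr rfl, ?_⟩
    have w0 : WW t 1 0 = (EE t 1)⁻¹ := by
      apply jL_injective (VV t)
      rw [jL_WW, map_inv₀, jL_EE]
      rfl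
    have w1 : WW t 1 1 = EE t 2 * (EE t 1)⁻¹ := by
      apply jL_injective (VV t)
      rw [jL_WW, map_mul, map_inv₀, jL_EE, jL_EE]
      rfl
    have w2 : WW t 1 2 = EE t 3 * (EE t 1)⁻¹ := by
      apply jL_injective (VV t)
      rw [jL_WW, map_mul, map_inv₀, jL_EE, jL_EE]
      rfl
    have w3 : WW t 1 3 = EE t 4 * (EE t 1)⁻¹ := by
      apply jL_injective (VV t)
      rw [jL_WW, map_mul, map_inv₀, jL_EE, jL_EE]
      rfl
    have e1 : E3 t 1 = EE t 1 := rfl
    simp only [Fin.mk_one, w0, w1, w2, w3, e1]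
    have d0 : D ℂ (SS t).functionField (EE t 1)⁻¹ =
        (-((EE t 1)⁻¹ * (EE t 1)⁻¹)) • D ℂ (SS t).functionField (EE t 1) +
        (0 : (SS t).functionField) • D ℂ (SS t).functionField (EE t 2) := by
      rw [D_inv' _ hu0, zero_smul, add_zero]
    have d1 : D ℂ (SS t).functionField (EE t 2 * (EE t 1)⁻¹) =
        (-(EE t 2 * ((EE t 1)⁻¹ * (EE t 1)⁻¹))) • D ℂ (SS t).functionField (EE t 1) +
        (EE t 1)⁻¹ • D ℂ (SS t).functionField (EE t 2) := by
      rw [Derivation.leibniz, D_inv' _ hu0, smul_smul, mul_neg]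
    rw [d0, d1, wedge_det, smul_smul]
    unfold eta
    rw [smul_smul, smul_smul]
    congr 1
    field_simp
    try ring
  · refine ⟨1, Or.inl rfl, ?_⟩
    have w0 : WW t 2 0 = (EE t 2)⁻¹ := by
      apply jL_injective (VV t)
      rw [jL_WW, map_inv₀, jL_EE]
      rfl
    have w1 : WW t 2 1 = EE t 1 * (EE t 2)⁻¹ := by
      apply jL_injective (VV t)
      rw [jL_WW, map_mul, map_inv₀, jL_EE, jL_EE]
      rfl
    have w2 : WW t 2 2 = EE t 3 * (EE t 2)⁻¹ := by
      apply jL_injective (VV t)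
      rw [jL_WW, map_mul, map_inv₀, jL_EE, jL_EE]
      rfl
    have w3 : WW t 2 3 = EE t 4 * (EE t 2)⁻¹ := by
      apply jL_injective (VV t)
      rw [jL_WW, map_mul, map_inv₀, jL_EE, jL_EE]
      rfl
    have e1 : E3 t 2 = EE t 2 := rfl
    simp only [Fin.reduceFinMk, w0, w1, w2, w3, e1]
    have d0 : D ℂ (SS t).functionField (EE t 2)⁻¹ =
        (0 : (SS t).functionField) • D ℂ (SS t).functionField (EE t 1) +
        (-((EE t 2)⁻¹ * (EE t 2)⁻¹)) • D ℂ (SS t).functionField (EE t 2) := by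
      rw [D_inv' _ hv0, zero_smul, zero_add]
    have d1 : D ℂ (SS t).functionField (EE t 1 * (EE t 2)⁻¹) =
        (EE t 2)⁻¹ • D ℂ (SS t).functionField (EE t 1) +
        (-(EE t 1 * ((EE t 2)⁻¹ * (EE t 2)⁻¹))) • D ℂ (SS t).functionField (EE t 2) := by
      rw [Derivation.leibniz, D_inv' _ hv0, smul_smul, mul_neg, add_comm]
    rw [d0, d1, wedge_det, smul_smul]
    unfold eta
    rw [smul_smul, smul_smul]
    congr 1
    field_simp
    try ring

end Pool.Agent.H935.FF
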