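import Mathlib

/-!
Pencils of diagonal quadrics.
-/

set_option autoImplicit false
set_option linter.unusedSimpArgs false

open Matrix

namespace Pool.Agent.H935.FF

/-- The coefficients of the first quadric. -/
def al : Fin 5 → ℂ := ![1, 1, 1, -1, 0]

/-- The coefficients of the second quadric. -/
def be (t : ℂ) : Fin 5 → ℂ := ![1, 2, t, 0, -1]

lemma det_pencil (t x y : ℂ) : (x • diagonal al + y • diagonal (be t)).det =
    x * y * (x + y) * (x + 2 * y) * (x + t * y) := by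
  have h : x • diagonal al + y • diagonal (be t) = diagonal (x • al + y • be t) := by
    rw [← diagonal_smul, ← diagonal_smul, diagonal_add]
    rfl
  rw [h, det_diagonal, Fin.prod_univ_five]
  simp [al, be]
  ring

lemma line_cases (s x y : ℂ)
    (h : x * y * (x + y) * (x + 2 * y) * (x + s * y) = 0) :
    ∃ κ : ℂ, ∃ p ∈ Subfield.closure {s}, ∃ q ∈ Subfield.closure {s}, x = κ * p ∧ y = κ * q := by
  have hs : s ∈ Subfield.closure {s} := Subfield.subset_closure rfl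
  have h1 : (1 : ℂ) ∈ Subfield.closure {s} := Subfield.one_mem _
  have h00 : (0 : ℂ) ∈ Subfield.closure {s} := Subfield.zero_mem _
  have h2 : (2 : ℂ) ∈ Subfield.closure {s} := ofNat_mem _ 2
  rcases mul_eq_zero.1 h with h | h
  · rcases mul_eq_zero.1 h with h | h
    · rcases mul_eq_zero.1 h with h | h
      · rcases mul_eq_zero.1 h with h | h
        · exact ⟨y, 0, h00, 1, h1, by rw [h, mul_zero], by rw [mul_one]⟩
        · exact ⟨x, 1, h1, 0, h00, by rw [mul_one], by rw [h, mul_zero]⟩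
      · exact ⟨y, -1, Subfield.neg_mem _ h1, 1, h1, by linear_combination h, by rw [mul_one]⟩
    · exact ⟨y, -2, Subfield.neg_mem _ h2, 1, h1, by linear_combination h, by rw [mul_one]⟩
  · exact ⟨y, -s, Subfield.neg_mem _ hs, 1, h1, by linear_combination h, by rw [mul_one]⟩

theorem pencil (t s : ℂ) (ht0 : t ≠ 0) (A : Matrix (Fin 5) (Fin 5) ℂ)
    (hA : A.det ≠ 0) (a₁ b₁ a₂ b₂ : ℂ)
    (h1 : Aᵀ * diagonal al * A = a₁ • diagonal al + b₁ • diagonal (be t))
    (h2 : Aᵀ * diagonal (be s) * A = a₂ • diagonal al + b₂ • diagonal (be t)) :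
    t ∈ Subfield.closure {s} := by
  have key : ∀ x y : ℂ, Aᵀ * (x • diagonal al + y • diagonal (be s)) * A =
      (x * a₁ + y * a₂) • diagonal al + (x * b₁ + y * b₂) • diagonal (be t) := by
    intro x y
    rw [Matrix.mul_add, Matrix.add_mul, Matrix.mul_smul, Matrix.mul_smul, Matrix.smul_mul,
      Matrix.smul_mul, h1, h2, smul_add, smul_add, smul_smul, smul_smul, smul_smul, smul_smul,
      add_smul, add_smul]
    abel
  have inj : ∀ x y : ℂ, x * a₁ + y * a₂ = 0 → x * b₁ + y * b₂ = 0 → x = 0 ∧ y = 0 := by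
    intro x y e1 e2
    have h := key x y
    rw [e1, e2, zero_smul, zero_smul, add_zero] at h
    have hu : IsUnit A.det := isUnit_iff_ne_zero.2 hA
    have hu' : IsUnit (Aᵀ).det := by rwa [det_transpose]
    have h3 : x • diagonal al + y • diagonal (be s) = 0 := by
      have h4 : (Aᵀ)⁻¹ * (Aᵀ * (x • diagonal al + y • diagonal (be s)) * A) * A⁻¹ = 0 := by
        rw [h, Matrix.mul_zero, Matrix.zero_mul]
      rwa [Matrix.mul_assoc Aᵀ, Matrix.nonsing_inv_mul_cancel_left _ _ hu',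
        Matrix.mul_nonsing_inv_cancel_right _ _ hu] at h4
    have h5 := congrFun (congrFun h3 3) 3
    have h6 := congrFun (congrFun h3 4) 4
    simp [al, be] at h5 h6
    exact ⟨h5, h6⟩
  have hD : a₁ * b₂ - a₂ * b₁ ≠ 0 := by
    intro hD
    obtain ⟨z1, z2⟩ := inj a₂ (-a₁) (by ring) (by linear_combination -hD)
    obtain ⟨z3, z4⟩ := inj b₂ (-b₁) (by linear_combination hD) (by ring)
    obtain ⟨z5, -⟩ := inj 1 0 (by rw [neg_eq_zero.1 z2]; ring) (by rw [neg_eq_zero.1 z4]; ring)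
    exact one_ne_zero z5
  have hdet : ∀ x y : ℂ, A.det ^ 2 * (x * y * (x + y) * (x + 2 * y) * (x + s * y)) =
      (x * a₁ + y * a₂) * (x * b₁ + y * b₂) * ((x * a₁ + y * a₂) + (x * b₁ + y * b₂)) *
      ((x * a₁ + y * a₂) + 2 * (x * b₁ + y * b₂)) *
      ((x * a₁ + y * a₂) + t * (x * b₁ + y * b₂)) := by
    intro x y
    rw [← det_pencil t, ← key, det_mul, det_mul, det_transpose, det_pencil]
    ring
  have pre : ∀ X Y : ℂ, X * Y * (X + Y) * (X + 2 * Y) * (X + t * Y) = 0 →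
      ∃ κ : ℂ, ∃ p ∈ Subfield.closure {s}, ∃ q ∈ Subfield.closure {s},
        X = κ * (p * a₁ + q * a₂) ∧ Y = κ * (p * b₁ + q * b₂) := by
    intro X Y h
    set x := (b₂ * X - a₂ * Y) / (a₁ * b₂ - a₂ * b₁) with hx
    set y := (-b₁ * X + a₁ * Y) / (a₁ * b₂ - a₂ * b₁) with hy
    have e1 : x * a₁ + y * a₂ = X := by
      rw [hx, hy, div_mul_eq_mul_div, div_mul_eq_mul_div, ← add_div, div_eq_iff hD]
      ring
    have e2 : x * b₁ + y * b₂ = Y := by
      rw [hx, hy, div_mul_eq_mul_div, div_mul_eq_mul_div, ← add_div, div_eq_iff hD]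
      ring
    have h3 := hdet x y
    rw [e1, e2, h] at h3
    have h4 : x * y * (x + y) * (x + 2 * y) * (x + s * y) = 0 :=
      (mul_eq_zero.1 h3).resolve_left (pow_ne_zero 2 hA)
    obtain ⟨κ, p, hp, q, hq, e3, e4⟩ := line_cases s x y h4
    refine ⟨κ, p, hp, q, hq, ?_, ?_⟩
    · rw [← e1, e3, e4]; ring
    · rw [← e2, e3, e4]; ring
  obtain ⟨k0, p0, hp0, q0, hq0, x0, y0⟩ := pre 0 1 (by ring)
  obtain ⟨k1, p1, hp1, q1, hq1, x1, y1⟩ := pre 1 0 (by ring)
  obtain ⟨k2, p2, hp2, q2, hq2, x2, y2⟩ := pre (-1) 1 (by ring)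
  obtain ⟨k4, p4, hp4, q4, hq4, x4, y4⟩ := pre (-t) 1 (by ring)
  have br : ∀ X Y X' Y' k p q k' p' q' : ℂ, X = k * (p * a₁ + q * a₂) → Y = k * (p * b₁ + q * b₂) →
      X' = k' * (p' * a₁ + q' * a₂) → Y' = k' * (p' * b₁ + q' * b₂) →
      X * Y' - Y * X' = k * k' * (a₁ * b₂ - a₂ * b₁) * (p * q' - q * p') := by
    intro X Y X' Y' k p q k' p' q' e1 e2 e3 e4
    rw [e1, e2, e3, e4]
    ring
  have f01 := br _ _ _ _ _ _ _ _ _ _ x0 y0 x1 y1
  have f24 := br _ _ _ _ _ _ _ _ _ _ x2 y2 x4 y4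
  have f04 := br _ _ _ _ _ _ _ _ _ _ x0 y0 x4 y4
  have f21 := br _ _ _ _ _ _ _ _ _ _ x2 y2 x1 y1
  set D := a₁ * b₂ - a₂ * b₁ with hDdef
  have g1 : k0 * k1 * k2 * k4 * D ^ 2 * ((p0 * q1 - q0 * p1) * (p2 * q4 - q2 * p4)) =
      -(t - 1) := by
    have : k0 * k1 * k2 * k4 * D ^ 2 * ((p0 * q1 - q0 * p1) * (p2 * q4 - q2 * p4)) =
      (k0 * k1 * D * (p0 * q1 - q0 * p1)) * (k2 * k4 * D * (p2 * q4 - q2 * p4)) := by ring
    rw [this, ← f01, ← f24]
    ring
  have g2 : k0 * k1 * k2 * k4 * D ^ 2 * ((p0 * q4 - q0 * p4) * (p2 * q1 - q2 * p1)) = -t := by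
    have : k0 * k1 * k2 * k4 * D ^ 2 * ((p0 * q4 - q0 * p4) * (p2 * q1 - q2 * p1)) =
      (k0 * k4 * D * (p0 * q4 - q0 * p4)) * (k2 * k1 * D * (p2 * q1 - q2 * p1)) := by ring
    rw [this, ← f04, ← f21]
    ring
  set K := k0 * k1 * k2 * k4 * D ^ 2 with hK
  set u := (p0 * q1 - q0 * p1) * (p2 * q4 - q2 * p4) with hu
  set v := (p0 * q4 - q0 * p4) * (p2 * q1 - q2 * p1) with hv
  have hu' : u ∈ Subfield.closure {s} :=
    Subfield.mul_mem _ (Subfield.sub_mem _ (Subfield.mul_mem _ hp0 hq1)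
      (Subfield.mul_mem _ hq0 hp1)) (Subfield.sub_mem _ (Subfield.mul_mem _ hp2 hq4)
      (Subfield.mul_mem _ hq2 hp4))
  have hv' : v ∈ Subfield.closure {s} :=
    Subfield.mul_mem _ (Subfield.sub_mem _ (Subfield.mul_mem _ hp0 hq4)
      (Subfield.mul_mem _ hq0 hp4)) (Subfield.sub_mem _ (Subfield.mul_mem _ hp2 hq1)
      (Subfield.mul_mem _ hq2 hp1))
  have hKv : K ≠ 0 ∧ v ≠ 0 := by
    constructor
    · intro h; apply ht0; rw [h, zero_mul] at g2; linear_combination g2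
    · intro h; apply ht0; rw [h, mul_zero] at g2; linear_combination g2
  have h5 : t * (u - v) = -v := by
    apply mul_left_cancel₀ hKv.1
    linear_combination t * g1 - (t - 1) * g2
  have h6 : u - v ≠ 0 := by
    intro h
    rw [h, mul_zero] at h5
    exact hKv.2 (by linear_combination h5)
  have h7 : t = -v / (u - v) := by
    rw [eq_div_iff h6, h5]
  rw [h7]
  exact Subfield.div_mem _ (Subfield.neg_mem _ hv') (Subfield.sub_mem _ hu' hv')

end Pool.Agent.H935.FF
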