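import Pool.Agent.H935.FF.Sec
import Pool.Graph.R_seed8.Helper165.Const

/-!
The projective scheme attached to a finite dimensional subspace `V` of a field extension `L/k`.
-/

set_option autoImplicit false

open Polynomial DirectSum HomogeneousLocalization AlgebraicGeometry CategoryTheory
open TopologicalSpace
open Pool.Agent.Helper165

namespace Pool.Agent.H935.FF

section tsz

variable {σ : Type} {A : Type} [CommRing A] [SetLike σ A] [AddSubgroupClass σ A]
  (𝒜 : ℕ → σ) [GradedRing 𝒜]

lemma toSpecZero_appTop :
    (Proj.toSpecZero 𝒜).appTop = (Scheme.ΓSpecIso (CommRingCat.of (𝒜 0))).hom ≫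
      CommRingCat.ofHom (fromZeroRingHom 𝒜 (.powers 1)) ≫ Proj.awayToSection 𝒜 1 ≫
      (Proj 𝒜).presheaf.map (eqToHom (Proj.basicOpen_one 𝒜).symm).op := by
  unfold Proj.toSpecZero
  simp only [Scheme.Hom.comp_appTop, Category.assoc]
  have h : (Proj.basicOpenToSpec 𝒜 1).appTop = _ := Proj.basicOpenToSpec_app_top 𝒜 1
  rw [h]
  have hq : ((Proj 𝒜).topIso.inv ≫ ((Proj 𝒜).isoOfEq (Proj.basicOpen_one 𝒜)).inv) ≫
    (Proj.basicOpen 𝒜 1).ι = 𝟙 _ := by simp
  have h2 := congrArg Scheme.Hom.appTop hq
  simp only [Scheme.Hom.comp_appTop, Scheme.Opens.ι_appTop] at h2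
  have h3 : (Proj 𝒜).presheaf.map (eqToHom (Proj.basicOpen_one 𝒜)).op ≫ (Proj 𝒜).presheaf.map (eqToHom (Proj.basicOpen_one 𝒜).symm).op = 𝟙 _ := by
    rw [← Functor.map_comp]; simp
  have h4 : (Proj.basicOpen 𝒜 1).topIso.inv ≫ Scheme.Hom.appTop ((Proj 𝒜).isoOfEq (Proj.basicOpen_one 𝒜)).inv ≫
        Scheme.Hom.appTop (Proj 𝒜).topIso.inv = (Proj 𝒜).presheaf.map (eqToHom (Proj.basicOpen_one 𝒜).symm).op := by
    have : IsIso ((Proj 𝒜).presheaf.map (eqToHom (Proj.basicOpen_one 𝒜)).op) := inferInstance
    rw [← cancel_epi ((Proj 𝒜).presheaf.map (eqToHom (Proj.basicOpen_one 𝒜)).op), h3]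
    refine Eq.trans ?_ (h2.trans (by simp))
    have h5 : (Proj 𝒜).presheaf.map (eqToHom (Proj.basicOpen_one 𝒜)).op ≫
        (Proj.basicOpen 𝒜 1).topIso.inv = (Proj.basicOpen 𝒜 1).ι.appTop := by
      rw [Scheme.Opens.topIso_inv, Scheme.Opens.ι_appTop]
      exact ((Proj 𝒜).presheaf.map_comp _ _).symm
    rw [← Category.assoc, h5, Scheme.Opens.ι_appTop]
  simp only [Category.assoc]
  rw [h4]
  simp only [← Category.assoc]
  congr 2
  simp

end tsz

variable {k L : Type} [Field k] [Field L] [Algebra k L] (V : Submodule k L)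

/-- The scheme `Proj ⊕ Vⁿ Tⁿ`. -/
noncomputable def PV : Scheme.{0} := Proj (piece V)

/-- the map from `k` to the degree zero part, as a morphism -/
noncomputable def toZeroHom : CommRingCat.of k ⟶ CommRingCat.of (piece V 0) :=
  CommRingCat.ofHom (R := k) (S := piece V 0) (toZero V)

/-- The structure morphism. -/
noncomputable def PVπ : PV V ⟶ Spec (CommRingCat.of k) :=
  Proj.toSpecZero (piece V) ≫ Spec.map (toZeroHom V)

lemma PV_proper (hV : V.FG) : IsProper (PVπ V) := by
  have := finiteType_zero V hV
  have h1 : IsProper (Proj.toSpecZero (piece V)) := inferInstance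
  have h2 : IsIso (toZeroHom V) := by
    have : toZeroHom V =
        (RingEquiv.ofBijective (toZero V) (toZero_bijective V)).toCommRingCatIso.hom := rfl
    rw [this]
    infer_instance
  have h3 : IsIso (Spec.map (toZeroHom V)) := inferInstance
  have h4 : IsProper (Spec.map (toZeroHom V)) := inferInstance
  unfold PVπ
  exact MorphismProperty.comp_mem @IsProper _ _ h1 h4

/-- the generic point -/
noncomputable def genPt (a : L) (ha : a ∈ V) (ha0 : a ≠ 0) :
    ProjectiveSpectrum (piece V) where
  asHomogeneousIdeal := ⊥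
  isPrime := by
    change (⊥ : Ideal (secAlg V)).IsPrime
    exact Ideal.isPrime_bot
  not_irrelevant_le := by
    intro h
    have h1 : tE V a ha ∈ HomogeneousIdeal.irrelevant (piece V) := by
      rw [HomogeneousIdeal.mem_irrelevant_iff, GradedRing.proj_apply,
        DirectSum.decompose_of_mem_ne (piece V) (tE_mem V a ha) one_ne_zero]
    have h2 := h h1
    have h3 : tE V a ha = 0 := by
      have : tE V a ha ∈ (⊥ : Ideal (secAlg V)) := h2
      simpa using this
    exact tE_ne_zero V a ha ha0 h3

lemma PV_irreducible (a : L) (ha : a ∈ V) (ha0 : a ≠ 0) : IrreducibleSpace (PV V) := by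
  have h : closure ({genPt V a ha ha0} : Set (ProjectiveSpectrum (piece V))) =
      Set.univ := by
    rw [Set.eq_univ_iff_forall]
    intro x
    rw [← ProjectiveSpectrum.le_iff_mem_closure, ← ProjectiveSpectrum.as_ideal_le_as_ideal]
    exact bot_le
  have h2 : IsIrreducible (Set.univ : Set (PV V)) := by
    change IsIrreducible (Set.univ : Set (ProjectiveSpectrum (piece V)))
    rw [← h]
    exact isIrreducible_singleton.closure
  exact (irreducibleSpace_def _).2 h2

lemma homLoc_reduced (x : Submonoid (secAlg V)) (hx : x ≤ nonZeroDivisors (secAlg V)) :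
    _root_.IsReduced (HomogeneousLocalization (piece V) x) := by
  have hdom : IsDomain (Localization x) := IsLocalization.isDomain_localization hx
  let F : HomogeneousLocalization (piece V) x →+* Localization x := algebraMap _ _
  have hinj2 : Function.Injective F := by
    intro a b hab
    apply HomogeneousLocalization.val_injective
    exact hab
  exact isReduced_of_injective F hinj2

lemma PV_reduced : IsReduced (PV V) := by
  have : ∀ x : Proj (piece V), _root_.IsReduced ((Proj (piece V)).presheaf.stalk x) := by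
    intro x
    have hprime : x.asHomogeneousIdeal.toIdeal.IsPrime := x.isPrime
    have h1 : _root_.IsReduced (AtPrime (piece V) x.asHomogeneousIdeal.toIdeal) :=
      homLoc_reduced V _ (Ideal.primeCompl_le_nonZeroDivisors _)
    exact isReduced_of_injective (Proj.stalkIso (piece V) x).hom.hom
      (Proj.stalkIso (piece V) x).commRingCatIsoToRingEquiv.injective
  exact isReduced_of_isReduced_stalk (Proj (piece V))

lemma PV_integral (a : L) (ha : a ∈ V) (ha0 : a ≠ 0) : IsIntegral (PV V) := by
  have := PV_irreducible V a ha ha0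
  have := PV_reduced V
  exact isIntegral_of_irreducibleSpace_of_isReduced _

/-- The homogeneous prime ideal of a point. -/
def pid (y : PV V) : HomogeneousIdeal (piece V) :=
  ProjectiveSpectrum.asHomogeneousIdeal (𝒜 := piece V) y

instance pid_prime (y : PV V) : (pid V y).toIdeal.IsPrime :=
  ProjectiveSpectrum.isPrime (𝒜 := piece V) y

/-- A point whose ideal contains all `a T` does not exist. -/
lemma not_all_mem (y : PV V) (h : ∀ (a : L) (ha : a ∈ V), tE V a ha ∈ pid V y) : False := by
  have key : ∀ (n : ℕ) (b : L) (hb : b ∈ V ^ (n + 1)), mon V (n + 1) b hb ∈ pid V y := by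
    intro n b hb
    have hb' := hb
    rw [pow_succ] at hb'
    induction hb' using Submodule.mul_induction_on' with
    | mem_mul_mem a ha c hc =>
      have : mon V (n + 1) (a * c) hb = mon V n a ha * tE V c hc := by
        rw [tE, mon_mul]
      rw [this]
      exact Ideal.mul_mem_left _ _ (h c hc)
    | add a ha c hc iha ihc =>
      have ha' : a ∈ V ^ (n + 1) := by rw [pow_succ]; exact ha
      have hc' : c ∈ V ^ (n + 1) := by rw [pow_succ]; exact hc
      have : mon V (n + 1) (a + c) hb = mon V (n + 1) a ha' + mon V (n + 1) c hc' := by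
        apply Subtype.ext
        simp only [mon]
        change _ = Polynomial.monomial (n + 1) a + Polynomial.monomial (n + 1) c
        rw [map_add]
      rw [this]
      exact Ideal.add_mem _ (iha ha') (ihc hc')
  apply ProjectiveSpectrum.not_irrelevant_le (𝒜 := piece V) y
  intro z hz
  have hz0 := (HomogeneousIdeal.mem_irrelevant_iff _ _).1 hz
  rw [GradedRing.proj_apply] at hz0
  change z ∈ (pid V y).toIdeal
  classical
  rw [← DirectSum.sum_support_decompose (piece V) z]
  apply Ideal.sum_mem
  intro i _
  cases i with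
  | zero =>
    rw [hz0]
    exact Ideal.zero_mem _
  | succ n =>
    rw [eq_mon V (DirectSum.decompose (piece V) z (n + 1)).2]
    exact key n _ _

lemma exists_gen_notMem (y : PV V) {m : ℕ} (e : Fin m → L) (he : V = Submodule.span k (Set.range e))
    (heV : ∀ i, e i ∈ V) : ∃ i, tE V (e i) (heV i) ∉ pid V y := by
  by_contra hcon
  push Not at hcon
  apply not_all_mem V y
  intro a ha
  have ha' := ha
  rw [he] at ha'
  induction ha' using Submodule.span_induction with
  | mem b hb =>
    obtain ⟨i, rfl⟩ := hb
    exact hcon i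
  | zero =>
    have : tE V 0 ha = 0 := by
      apply Subtype.ext
      simp [tE, mon]
    rw [this]
    exact Ideal.zero_mem _
  | add b c hb hc ihb ihc =>
    have hb' : b ∈ V := by rw [he]; exact hb
    have hc' : c ∈ V := by rw [he]; exact hc
    have : tE V (b + c) ha = tE V b hb' + tE V c hc' := by
      apply Subtype.ext
      simp only [tE, mon]
      change _ = Polynomial.monomial 1 b + Polynomial.monomial 1 c
      rw [map_add]
    rw [this]
    exact Ideal.add_mem _ (ihb hb') (ihc hc')
  | smul r b hb ihb =>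
    have hb' : b ∈ V := by rw [he]; exact hb
    have : tE V (r • b) ha = algebraMap k (secAlg V) r * tE V b hb' := by
      apply Subtype.ext
      simp only [tE, mon]
      change _ = Polynomial.C (algebraMap k L r) * Polynomial.monomial 1 b
      rw [C_mul_monomial, Algebra.smul_def]
    rw [this]
    exact Ideal.mul_mem_left _ _ (ihb hb')

/-- The field of rational functions `L(T)`. -/
abbrev LT (L : Type) [Field L] : Type := FractionRing L[X]

/-- The inclusion of the section algebra in `L(T)`. -/
noncomputable def phi : secAlg V →+* LT L :=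
  (algebraMap L[X] (LT L)).comp (secAlg V).val.toRingHom

lemma phi_injective : Function.Injective (phi V) := by
  intro a b h
  have h2 := IsFractionRing.injective L[X] (LT L) h
  exact Subtype.ext h2

/-- The inclusion of constants. -/
noncomputable def lT (L : Type) [Field L] : L →+* LT L := (algebraMap L[X] (LT L)).comp C

/-- The variable `T`. -/
noncomputable def TT (L : Type) [Field L] : LT L := algebraMap L[X] (LT L) X

lemma TT_ne_zero : TT L ≠ 0 := by
  intro h
  have := (map_eq_zero_iff _ (IsFractionRing.injective L[X] (LT L))).1 h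
  exact X_ne_zero this

lemma phi_mon (n : ℕ) (a : L) (ha : a ∈ V ^ n) : phi V (mon V n a ha) = lT L a * TT L ^ n := by
  change algebraMap L[X] (LT L) (monomial n a) = _
  rw [← C_mul_X_pow_eq_monomial, map_mul, map_pow]
  rfl

/-- The map from the localization at a prime ideal to `L(T)`. -/
noncomputable def locPhi (P : Ideal (secAlg V)) [P.IsPrime] :
    Localization P.primeCompl →+* LT L :=
  IsLocalization.lift (M := P.primeCompl) (g := phi V) (by
    intro s
    apply IsUnit.mk0
    intro h
    have h2 : (s : secAlg V) = 0 := (map_eq_zero_iff _ (phi_injective V)).1 h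
    exact s.2 (by rw [h2]; exact P.zero_mem))

lemma locPhi_mk (P : Ideal (secAlg V)) [P.IsPrime] (a : secAlg V) (s : P.primeCompl) :
    locPhi V P (Localization.mk a s) = phi V a / phi V s := by
  unfold locPhi
  rw [Localization.mk_eq_mk', IsLocalization.lift_mk'_spec]
  have h : phi V s ≠ 0 := by
    intro h
    have h2 : (s : secAlg V) = 0 := (map_eq_zero_iff _ (phi_injective V)).1 h
    exact s.2 (by rw [h2]; exact P.zero_mem)
  field_simp

/-- The value in `L(T)` of an element of the stalk. -/
noncomputable def evAt (y : PV V) : (PV V).presheaf.stalk y →+* LT L :=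
  (locPhi V (pid V y).toIdeal).comp ((algebraMap (AtPrime (piece V) (pid V y).toIdeal)
    (Localization (pid V y).toIdeal.primeCompl)).comp
    (Proj.stalkIso' (piece V) y).toRingHom)

lemma evAt_of_mk (y : PV V) (z : (PV V).presheaf.stalk y)
    (c : NumDenSameDeg (piece V) (pid V y).toIdeal.primeCompl)
    (hc : Proj.stalkIso' (piece V) y z = HomogeneousLocalization.mk c) :
    evAt V y z = phi V c.num / phi V c.den := by
  change locPhi V (pid V y).toIdeal (Proj.stalkIso' (piece V) y z).val = _
  rw [hc]
  exact locPhi_mk V _ _ _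

lemma phi_div (n : ℕ) (a b : L) (ha : a ∈ V ^ n) (hb : b ∈ V ^ n) :
    phi V (mon V n a ha) / phi V (mon V n b hb) = lT L (a / b) := by
  rw [phi_mon, phi_mon, map_div₀, mul_div_mul_right _ _ (pow_ne_zero n TT_ne_zero)]

lemma evAt_eq (y : PV V) (z : (PV V).presheaf.stalk y) :
    ∃ (n : ℕ) (a b : L) (_ : a ∈ V ^ n) (hb : b ∈ V ^ n), mon V n b hb ∉ pid V y ∧
      evAt V y z = lT L (a / b) := by
  obtain ⟨c, hc⟩ := HomogeneousLocalization.mk_surjective (Proj.stalkIso' (piece V) y z)
  have h1 := evAt_of_mk V y z c hc.symm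
  have h2 := eq_mon V c.num.2
  have h3 := eq_mon V c.den.2
  refine ⟨c.deg, _, _, (c.num : secAlg V).2 c.deg, (c.den : secAlg V).2 c.deg, ?_, ?_⟩
  · rw [← h3]
    exact c.den_mem
  · rw [← phi_div V c.deg _ _ ((c.num : secAlg V).2 c.deg) ((c.den : secAlg V).2 c.deg),
      ← h2, ← h3]
    exact h1

lemma exists_evAt_eq (y : PV V) (n : ℕ) (a b : L) (ha : a ∈ V ^ n) (hb : b ∈ V ^ n)
    (h : mon V n b hb ∉ pid V y) :
    ∃ z : (PV V).presheaf.stalk y, evAt V y z = lT L (a / b) := by
  let c : NumDenSameDeg (piece V) (pid V y).toIdeal.primeCompl :=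
    ⟨n, ⟨mon V n a ha, mon_mem V n a ha⟩, ⟨mon V n b hb, mon_mem V n b hb⟩, h⟩
  refine ⟨(Proj.stalkIso' (piece V) y).symm (HomogeneousLocalization.mk c), ?_⟩
  rw [← phi_div V n a b ha hb]
  exact evAt_of_mk V y _ c (RingEquiv.apply_symm_apply _ _)

/-- Compatibility with specialization. -/
lemma evAt_specializes (x y : PV V) (h : x ⤳ y) (z : (PV V).presheaf.stalk y) :
    evAt V x ((PV V).presheaf.stalkSpecializes h z) = evAt V y z := by
  obtain ⟨c, hc⟩ := HomogeneousLocalization.mk_surjective (Proj.stalkIso' (piece V) y z)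
  have h1 := evAt_of_mk V y z c hc.symm
  refine Eq.trans ?_ h1.symm
  have h2 : z = (Proj.stalkIso' (piece V) y).symm (HomogeneousLocalization.mk c) :=
    ((RingEquiv.symm_apply_eq _).2 hc).symm
  have h2' := h2.trans (Proj.stalkIso'_symm_mk (piece V) y c)
  have hx : x ∈ ProjectiveSpectrum.basicOpen (piece V) (c.den : secAlg V) := by
    refine h.mem_open (ProjectiveSpectrum.basicOpen (piece V) (c.den : secAlg V)).isOpen ?_
    exact c.den_mem
  have h3 : (PV V).presheaf.stalkSpecializes h z =
      (ProjectiveSpectrum.Proj.structureSheaf (piece V)).presheaf.germ _ x hx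
        (sectionInBasicOpen (piece V) y c) := by
    refine (congrArg _ h2').trans ?_
    exact TopCat.Presheaf.germ_stalkSpecializes_apply
      (ProjectiveSpectrum.Proj.structureSheaf (piece V)).presheaf _ h _
  refine (congrArg _ h3).trans ?_
  refine evAt_of_mk V x _ ⟨c.deg, c.num, c.den, hx⟩ ?_
  exact Proj.stalkIso'_germ (piece V) _ x hx _

section functionField

variable [IsIntegral (PV V)]

/-- The embedding of the function field in `L(T)`. -/
noncomputable def iota : (PV V).functionField →+* LT L := evAt V (genericPoint (PV V))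

lemma iota_injective : Function.Injective (iota V) := (iota V).injective

lemma locMap_id (y : PV V) (h : (𝟙 (PV V) : PV V ⟶ PV V) (genericPoint (PV V)) ⤳ y)
    (z : (PV V).presheaf.stalk y) :
    iota V ((locMap (𝟙 (PV V)) y h).hom z) = evAt V y z := by
  have h1 : (locMap (𝟙 (PV V)) y h).hom z =
      (PV V).presheaf.stalkSpecializes (generic_specializes y) z := by
    unfold locMap
    rw [Scheme.Hom.stalkMap_id]
    rfl
  rw [h1]
  exact evAt_specializes V _ y (generic_specializes y) z

/-- The local rings of `Proj ⊕ Vⁿ Tⁿ` inside `L(T)`. -/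
theorem mem_localRing (y : PV V) (φ : (PV V).functionField) :
    φ ∈ localRing (𝟙 (PV V)) y ↔
      ∃ (n : ℕ) (a b : L) (_ : a ∈ V ^ n) (hb : b ∈ V ^ n), mon V n b hb ∉ pid V y ∧
        iota V φ = lT L (a / b) := by
  have h0 : (𝟙 (PV V) : PV V ⟶ PV V) (genericPoint (PV V)) ⤳ y := generic_specializes y
  constructor
  · rintro ⟨h, z, rfl⟩
    obtain ⟨n, a, b, ha, hb, h1, h2⟩ := evAt_eq V y z
    exact ⟨n, a, b, ha, hb, h1, (locMap_id V y h z).trans h2⟩
  · rintro ⟨n, a, b, ha, hb, h1, h2⟩
    obtain ⟨z, hz⟩ := exists_evAt_eq V y n a b ha hb h1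
    refine ⟨h0, z, ?_⟩
    apply iota_injective V
    exact (locMap_id V y h0 z).trans (hz.trans h2.symm)

omit [IsIntegral (PV V)] in
lemma constants_germ (x : PV V) : (Scheme.ΓSpecIso (CommRingCat.of k)).inv ≫
      (Proj.toSpecZero (piece V) ≫ Spec.map (toZeroHom V)).appTop ≫
      (Proj (piece V)).presheaf.germ ⊤ (show Proj (piece V) from x) trivial =
    toZeroHom V ≫ CommRingCat.ofHom (fromZeroRingHom (piece V) (.powers 1)) ≫
      CommRingCat.ofHom (HomogeneousLocalization.mapId (piece V)
        (Submonoid.powers_le.mpr (one_mem (pid V x).toIdeal.primeCompl))) ≫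
        (Proj.stalkIso' (piece V) x).toCommRingCatIso.inv := by
  rw [Scheme.Hom.comp_appTop, Category.assoc, ← Scheme.ΓSpecIso_inv_naturality_assoc,
    toSpecZero_appTop]
  simp only [Category.assoc, Iso.inv_hom_id_assoc]
  congr 2
  have hx : x ∈ Proj.basicOpen (piece V) 1 :=
    one_mem (pid V x).toIdeal.primeCompl
  have h2 := ProjectiveSpectrum.Proj.awayToSection_germ (piece V) 1 x hx
  refine Eq.trans ?_ h2
  change Proj.awayToSection (piece V) 1 ≫ _ ≫ _ = Proj.awayToSection (piece V) 1 ≫ _
  congr 1
  exact TopCat.Presheaf.germ_res _ _ _ _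

lemma iota_constants (c : k) :
    iota V (constants (PVπ V) c) = lT L (algebraMap k L c) := by
  rw [constants_eq_germ]
  have h1 := congrArg (fun g => g.hom c) (constants_germ V (genericPoint (PV V)))
  refine (congrArg (iota V) h1).trans ?_
  let c' : NumDenSameDeg (piece V) (pid V (genericPoint (PV V))).toIdeal.primeCompl :=
    ⟨0, toZero V c, 1, one_mem (pid V (genericPoint (PV V))).toIdeal.primeCompl⟩
  refine (evAt_of_mk V _ _ c' ?_).trans ?_
  · exact RingEquiv.apply_symm_apply
      (Proj.stalkIso' (piece V) (genericPoint (PV V))) (HomogeneousLocalization.mk c')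
  · have h2 : phi V (((toZero V c : piece V 0)) : secAlg V) = lT L (algebraMap k L c) := rfl
    have h3 : phi V ((c'.den : piece V 0) : secAlg V) = 1 := map_one (phi V)
    have h4 : phi V ((c'.num : piece V 0) : secAlg V) = lT L (algebraMap k L c) := rfl
    rw [h3, h4, div_one]

end functionField

end Pool.Agent.H935.FF
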