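import Pool.Agent.H935.FF.Pj

/-!
The projective scheme attached to a finite dimensional subspace `V` of a field extension `L/k`:
function field, charts.
-/

set_option autoImplicit false

open Polynomial DirectSum HomogeneousLocalization AlgebraicGeometry CategoryTheory
open TopologicalSpace
open Pool.Agent.Helper165

namespace Pool.Agent.H935.FF

lemma lT_injective (L : Type) [Field L] : Function.Injective (lT L) := (lT L).injective

variable {k L : Type} [Field k] [Field L] [Algebra k L] (V : Submodule k L)

section functionField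

variable [IsIntegral (PV V)]

lemma exists_iota (φ : (PV V).functionField) : ∃ x : L, iota V φ = lT L x := by
  obtain ⟨n, a, b, _, _, _, h⟩ := evAt_eq V (genericPoint (PV V)) φ
  exact ⟨a / b, h⟩

/-- The embedding of the function field in `L`. -/
noncomputable def jL : (PV V).functionField →+* L where
  toFun φ := (exists_iota V φ).choose
  map_one' := by
    apply lT_injective L
    rw [← (exists_iota V 1).choose_spec, map_one, map_one]
  map_zero' := by
    apply lT_injective L
    rw [← (exists_iota V 0).choose_spec, map_zero, map_zero]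
  map_mul' x y := by
    apply lT_injective L
    rw [← (exists_iota V (x * y)).choose_spec, map_mul, map_mul,
      ← (exists_iota V x).choose_spec, ← (exists_iota V y).choose_spec]
  map_add' x y := by
    apply lT_injective L
    rw [← (exists_iota V (x + y)).choose_spec, map_add, map_add,
      ← (exists_iota V x).choose_spec, ← (exists_iota V y).choose_spec]

lemma lT_jL (φ : (PV V).functionField) : lT L (jL V φ) = iota V φ :=
  (exists_iota V φ).choose_spec.symm

lemma jL_injective : Function.Injective (jL V) := (jL V).injective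

lemma jL_eq_iff (φ : (PV V).functionField) (x : L) : jL V φ = x ↔ iota V φ = lT L x := by
  rw [← lT_jL]
  exact (lT_injective L).eq_iff.symm

lemma jL_constants (c : k) : jL V (constants (PVπ V) c) = algebraMap k L c := by
  rw [jL_eq_iff]
  exact iota_constants V c

/-- The local rings of `Proj ⊕ Vⁿ Tⁿ` inside `L`. -/
theorem mem_localRing_iff (y : PV V) (φ : (PV V).functionField) :
    φ ∈ localRing (𝟙 (PV V)) y ↔
      ∃ (n : ℕ) (a b : L) (_ : a ∈ V ^ n) (hb : b ∈ V ^ n), mon V n b hb ∉ pid V y ∧
        jL V φ = a / b := by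
  rw [mem_localRing]
  simp only [jL_eq_iff]

lemma mon_notMem_generic {a : L} (ha : a ∈ V) (ha0 : a ≠ 0) (n : ℕ) (b : L) (hb : b ∈ V ^ n)
    (hb0 : b ≠ 0) : mon V n b hb ∉ pid V (genericPoint (PV V)) := by
  have h1 : genericPoint (PV V) ∈
      (Proj.basicOpen (piece V) (mon V n b hb) : (Proj (piece V)).Opens) := by
    refine generic_mem (Y := PV V) (Proj.basicOpen (piece V) (mon V n b hb)) ?_
    refine ⟨genPt V a ha ha0, ?_⟩
    change mon V n b hb ∉ (genPt V a ha ha0).asHomogeneousIdeal
    intro h
    have h3 : mon V n b hb = 0 := by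
      have : mon V n b hb ∈ (⊥ : Ideal (secAlg V)) := h
      simpa using this
    have h4 := congrArg (fun z : secAlg V => (z : L[X]).coeff n) h3
    simp [mon] at h4
    exact hb0 h4
  exact h1

lemma exists_jL_eq {a₀ : L} (ha₀ : a₀ ∈ V) (ha0 : a₀ ≠ 0) (n : ℕ) (a b : L) (ha : a ∈ V ^ n)
    (hb : b ∈ V ^ n) (hb0 : b ≠ 0) : ∃ φ : (PV V).functionField, jL V φ = a / b := by
  obtain ⟨z, hz⟩ := exists_evAt_eq V (genericPoint (PV V)) n a b ha hb
    (mon_notMem_generic V ha₀ ha0 n b hb hb0)
  exact ⟨z, (jL_eq_iff V z (a / b)).2 hz⟩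

end functionField

section chart

/-- evaluation at `T = 1` -/
noncomputable def evOne : secAlg V →+* L :=
  (Polynomial.evalRingHom 1).comp (secAlg V).val.toRingHom

lemma evOne_mon (n : ℕ) (a : L) (ha : a ∈ V ^ n) : evOne V (mon V n a ha) = a := by
  simp [evOne, mon]

lemma evOne_tE (a : L) (ha : a ∈ V) : evOne V (tE V a ha) = a := evOne_mon V 1 a _

/-- The map from the chart ring to `L`. -/
noncomputable def psi (a : L) (ha : a ∈ V) (ha0 : a ≠ 0) :
    Away (piece V) (tE V a ha) →+* L :=
  (IsLocalization.Away.lift (S := Localization.Away (tE V a ha)) (tE V a ha)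
    (g := evOne V) (by rw [evOne_tE]; exact IsUnit.mk0 _ ha0)).comp
    (algebraMap (Away (piece V) (tE V a ha)) (Localization.Away (tE V a ha)))

/-- The element `b / a ^ n` of the chart ring, for `b ∈ V ^ n`. -/
noncomputable def frac (a : L) (ha : a ∈ V) (n : ℕ) (b : L) (hb : b ∈ V ^ n) :
    Away (piece V) (tE V a ha) :=
  Away.mk (piece V) (tE_mem V a ha) n (mon V n b hb)
    (by rw [smul_eq_mul, mul_one]; exact mon_mem V n b hb)

lemma exists_frac (a : L) (ha : a ∈ V) (z : Away (piece V) (tE V a ha)) :
    ∃ (n : ℕ) (b : L) (hb : b ∈ V ^ n), z = frac V a ha n b hb := by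
  obtain ⟨n, y, hy, rfl⟩ := Away.mk_surjective (piece V) (tE_mem V a ha) z
  have hy' : y ∈ piece V n := by
    have := hy
    rwa [smul_eq_mul, mul_one] at this
  refine ⟨n, (y : L[X]).coeff n, y.2 n, ?_⟩
  unfold frac
  congr 1
  exact eq_mon V hy'

lemma psi_frac (a : L) (ha : a ∈ V) (ha0 : a ≠ 0) (n : ℕ) (b : L) (hb : b ∈ V ^ n) :
    psi V a ha ha0 (frac V a ha n b hb) = b / a ^ n := by
  unfold psi frac
  rw [RingHom.comp_apply, HomogeneousLocalization.algebraMap_apply, Away.val_mk,
    Localization.mk_eq_mk', IsLocalization.Away.lift, IsLocalization.lift_mk'_spec]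
  simp only [map_pow, evOne_tE, evOne_mon]
  field_simp

lemma psi_injective (a : L) (ha : a ∈ V) (ha0 : a ≠ 0) :
    Function.Injective (psi V a ha ha0) := by
  rw [injective_iff_map_eq_zero]
  intro z hz
  obtain ⟨n, b, hb, rfl⟩ := exists_frac V a ha z
  rw [psi_frac] at hz
  have h2 : b = 0 := by
    rcases div_eq_zero_iff.1 hz with h | h
    · exact h
    · exact absurd h (pow_ne_zero _ ha0)
  subst h2
  unfold frac
  apply HomogeneousLocalization.val_injective
  rw [Away.val_mk, HomogeneousLocalization.val_zero]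
  have : mon V n 0 hb = 0 := by
    apply Subtype.ext
    simp [mon]
  rw [this, Localization.mk_zero]

/-- The chart attached to an element of `V`. -/
noncomputable def chart (a : L) (ha : a ∈ V) :
    Spec (CommRingCat.of (Away (piece V) (tE V a ha))) ⟶ PV V :=
  Proj.awayι (piece V) (tE V a ha) (tE_mem V a ha) one_pos

instance (a : L) (ha : a ∈ V) : IsOpenImmersion (chart V a ha) :=
  inferInstanceAs (IsOpenImmersion
    (Proj.awayι (piece V) (tE V a ha) (tE_mem V a ha) one_pos))

/-- The basic open subset `a T ≠ 0`. -/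
noncomputable def dPlus (a : L) (ha : a ∈ V) : (PV V).Opens :=
  Proj.basicOpen (piece V) (tE V a ha)

lemma mem_dPlus (a : L) (ha : a ∈ V) (y : PV V) :
    y ∈ dPlus V a ha ↔ tE V a ha ∉ pid V y := Iff.rfl

lemma dPlus_affine (a : L) (ha : a ∈ V) : IsAffineOpen (dPlus V a ha) :=
  Proj.isAffineOpen_basicOpen (piece V) (tE V a ha) (tE_mem V a ha) one_pos

lemma chart_opensRange (a : L) (ha : a ∈ V) :
    (chart V a ha).opensRange = dPlus V a ha :=
  Proj.opensRange_awayι (piece V) (tE V a ha) (tE_mem V a ha) one_pos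

/-- the constants in the chart ring -/
noncomputable def constMap (a : L) (ha : a ∈ V) : k →+* Away (piece V) (tE V a ha) :=
  (fromZeroRingHom (piece V) (.powers (tE V a ha))).comp (toZero V)

lemma chart_structure (a : L) (ha : a ∈ V) :
    chart V a ha ≫ PVπ V = Spec.map (CommRingCat.ofHom (constMap V a ha)) := by
  unfold chart PVπ
  erw [Proj.awayι_toSpecZero_assoc]
  rw [← Spec.map_comp]
  rfl

lemma psi_constMap (a : L) (ha : a ∈ V) (ha0 : a ≠ 0) (c : k) :
    psi V a ha ha0 (constMap V a ha c) = algebraMap k L c := by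
  have hc : algebraMap k L c ∈ V ^ 0 := by
    rw [pow_zero]; exact Submodule.mem_one.2 ⟨c, rfl⟩
  have h : constMap V a ha c = frac V a ha 0 (algebraMap k L c) hc := by
    apply HomogeneousLocalization.val_injective
    unfold frac constMap
    rw [Away.val_mk]
    simp only [pow_zero]
    rfl
  rw [h, psi_frac]
  simp

end chart

end Pool.Agent.H935.FF
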