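import Pool.Agent.H935.FF.Pj2
import Pool.Agent.H935.FF.Fld
import Pool.Graph.R_seed8.Helper165.Geom3

/-!
Chart rings of `Proj ⊕ Vⁿ Tⁿ` and smoothness.
-/

set_option autoImplicit false
set_option linter.unusedSimpArgs false

open DirectSum HomogeneousLocalization AlgebraicGeometry CategoryTheory
open TopologicalSpace
open Pool.Agent.Helper165

namespace Pool.Agent.H935.FF

section chart

variable {k L : Type} [Field k] [Field L] [Algebra k L] (V : Submodule k L)

variable {m : ℕ} (a : L) (ha : a ∈ V) (ha0 : a ≠ 0) (w : Fin m → L) (hw : ∀ j, a * w j ∈ V)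
  (hspan : V ≤ Submodule.span k ({a} ∪ Set.range fun j => a * w j))

include ha0 in
lemma div_mem_adjoin (c : L) (hc : c ∈ Submodule.span k ({a} ∪ Set.range fun j => a * w j)) :
    c / a ∈ Algebra.adjoin k (Set.range w) := by
  induction hc using Submodule.span_induction with
  | mem b hb =>
    rcases hb with hb | ⟨j, rfl⟩
    · rw [Set.mem_singleton_iff] at hb
      subst hb
      rw [div_self ha0]
      exact Subalgebra.one_mem _
    · simp only
      rw [mul_div_cancel_left₀ _ ha0]
      exact Algebra.subset_adjoin ⟨j, rfl⟩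
  | zero => rw [zero_div]; exact Subalgebra.zero_mem _
  | add b c hb hc ihb ihc =>
    rw [add_div]
    exact Subalgebra.add_mem _ ihb ihc
  | smul r b hb ihb =>
    rw [smul_div_assoc]
    exact Subalgebra.smul_mem _ ihb r

include ha0 hspan in
lemma div_pow_mem_adjoin (n : ℕ) (b : L) (hb : b ∈ V ^ n) :
    b / a ^ n ∈ Algebra.adjoin k (Set.range w) := by
  induction n generalizing b with
  | zero =>
    rw [pow_zero] at hb
    obtain ⟨r, rfl⟩ := Submodule.mem_one.1 hb
    rw [pow_zero, div_one]
    exact Subalgebra.algebraMap_mem _ r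
  | succ n ih =>
    rw [pow_succ] at hb
    induction hb using Submodule.mul_induction_on' with
    | mem_mul_mem x hx y hy =>
      have : x * y / a ^ (n + 1) = (x / a ^ n) * (y / a) := by
        rw [pow_succ]
        field_simp
      rw [this]
      exact Subalgebra.mul_mem _ (ih x hx) (div_mem_adjoin a ha0 w y (hspan hy))
    | add x hx y hy ihx ihy =>
      rw [add_div]
      exact Subalgebra.add_mem _ ihx ihy

include hspan in
lemma psi_mem_adjoin (z : Away (piece V) (tE V a ha)) :
    psi V a ha ha0 z ∈ Algebra.adjoin k (Set.range w) := by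
  obtain ⟨n, b, hb, rfl⟩ := exists_frac V a ha z
  rw [psi_frac]
  exact div_pow_mem_adjoin V a ha0 w hspan n b hb

include hw in
lemma exists_psi_eq (x : L) (hx : x ∈ Algebra.adjoin k (Set.range w)) :
    ∃ z, psi V a ha ha0 z = x := by
  induction hx using Algebra.adjoin_induction with
  | mem x hx =>
    obtain ⟨j, rfl⟩ := hx
    refine ⟨frac V a ha 1 (a * w j) (by simpa using hw j), ?_⟩
    rw [psi_frac, pow_one, mul_div_cancel_left₀ _ ha0]
  | algebraMap r => exact ⟨constMap V a ha r, psi_constMap V a ha ha0 r⟩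
  | add x y _ _ hx hy =>
    obtain ⟨z, rfl⟩ := hx
    obtain ⟨z', rfl⟩ := hy
    exact ⟨z + z', map_add _ _ _⟩
  | mul x y _ _ hx hy =>
    obtain ⟨z, rfl⟩ := hx
    obtain ⟨z', rfl⟩ := hy
    exact ⟨z * z', map_mul _ _ _⟩

/-- The chart ring is the subalgebra generated by the coordinates. -/
noncomputable def chartEquiv :
    Away (piece V) (tE V a ha) ≃+* Algebra.adjoin k (Set.range w) :=
  RingEquiv.ofBijective
    ((psi V a ha ha0).codRestrict (Algebra.adjoin k (Set.range w)) fun z =>
      psi_mem_adjoin V a ha ha0 w hspan z) (by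
      constructor
      · intro z z' h
        exact psi_injective V a ha ha0 (congrArg Subtype.val h)
      · rintro ⟨x, hx⟩
        obtain ⟨z, hz⟩ := exists_psi_eq V a ha ha0 w hw x hx
        exact ⟨z, Subtype.ext hz⟩)

lemma chartEquiv_constMap (c : k) :
    chartEquiv V a ha ha0 w hw hspan (constMap V a ha c) = algebraMap k _ c := by
  apply Subtype.ext
  exact psi_constMap V a ha ha0 c

end chart

section smooth

variable {L : Type} [Field L] [Algebra ℂ L] (V : Submodule ℂ L)

lemma transfer {A' B : Type} [CommRing A'] [CommRing B] [Algebra ℂ B] (f : ℂ →+* A')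
    (e : A' ≃+* B) (he : ∀ z, e (f z) = algebraMap ℂ B z)
    (hB : RingHom.Locally (RingHom.IsStandardSmoothOfRelativeDimension 2) (algebraMap ℂ B)) :
    RingHom.Locally (RingHom.IsStandardSmoothOfRelativeDimension 2) f := by
  have h1 : f = e.symm.toRingHom.comp (algebraMap ℂ B) := by
    refine RingHom.ext fun z => ?_
    rw [RingHom.comp_apply, ← he]
    exact (e.symm_apply_apply _).symm
  rw [h1]
  exact (RingHom.locally_respectsIso
    RingHom.isStandardSmoothOfRelativeDimension_respectsIso).1 _ e.symm hB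

/-- The coordinates as elements of the subalgebra they generate. -/
noncomputable def coordS (w : Fin 4 → L) (j : Fin 4) : Algebra.adjoin ℂ (Set.range w) :=
  ⟨w j, Algebra.subset_adjoin ⟨j, rfl⟩⟩

lemma aeval_coordS (w : Fin 4 → L) (p : MvPolynomial (Fin 4) ℂ) :
    ((MvPolynomial.aeval (coordS w) p : Algebra.adjoin ℂ (Set.range w)) : L) =
      MvPolynomial.aeval w p := by
  have := MvPolynomial.comp_aeval_apply (coordS w)
    (Algebra.adjoin ℂ (Set.range w)).val p
  rw [Subalgebra.coe_val] at this
  rw [this]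
  rfl

lemma locally_smooth (w : Fin 4 → L) (a b c a' b' c' : ℂ) (hN : Nondeg a b c a' b' c')
    (hind : Indep w)
    (e1 : w 2 ^ 2 = algebraMap ℂ L a * w 0 ^ 2 + algebraMap ℂ L b * w 1 ^ 2 +
        algebraMap ℂ L c)
    (e2 : w 3 ^ 2 = algebraMap ℂ L a' * w 0 ^ 2 + algebraMap ℂ L b' * w 1 ^ 2 +
        algebraMap ℂ L c') :
    RingHom.Locally (RingHom.IsStandardSmoothOfRelativeDimension 2)
      (algebraMap ℂ (Algebra.adjoin ℂ (Set.range w))) := by
  refine chart_smooth a b c a' b' c' (coordS w) ?_ ?_ hN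
  · rintro ⟨x, hx⟩
    rw [Algebra.adjoin_range_eq_range_aeval] at hx
    obtain ⟨p, hp⟩ := hx
    refine ⟨p, Subtype.ext ?_⟩
    rw [aeval_coordS]
    exact hp
  · intro p
    rw [← ker_eq a b c a' b' c' w hind e1 e2 p, ← aeval_coordS]
    exact Subtype.ext_iff

lemma smooth_on_chart (a : L) (ha : a ∈ V) (ha0 : a ≠ 0) (w : Fin 4 → L)
    (hw : ∀ j, a * w j ∈ V)
    (hspan : V ≤ Submodule.span ℂ ({a} ∪ Set.range fun j => a * w j))
    (h : RingHom.Locally (RingHom.IsStandardSmoothOfRelativeDimension 2)
      (algebraMap ℂ (Algebra.adjoin ℂ (Set.range w)))) :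
    SmoothOfRelativeDimension 2 ((chart V a ha).opensRange.ι ≫ PVπ V) := by
  rw [← MorphismProperty.cancel_left_of_respectsIso (P := @SmoothOfRelativeDimension 2)
    (chart V a ha).isoOpensRange.hom]
  rw [← Category.assoc, Scheme.Hom.isoOpensRange_hom_ι, chart_structure,
    HasRingHomProperty.Spec_iff (P := @SmoothOfRelativeDimension 2)]
  exact transfer _ (chartEquiv V a ha ha0 w hw hspan)
    (chartEquiv_constMap V a ha ha0 w hw hspan) h

end smooth

end Pool.Agent.H935.FF
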