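import Pool.Agent.H935.FF.Surf
import Pool.Agent.H935.FF.Pencil

/-!
Quadratic relations between the anticanonical coordinates.
-/

set_option autoImplicit false
set_option linter.unusedSimpArgs false

open MvPolynomial

namespace Pool.Agent.H935.FF

variable (t : ℂ)

lemma indep_0 (p0 p1 p2 p3 : MvPolynomial (Fin 2) ℂ)
    (h : aeval ![uL, vL] p0 + aeval ![uL, vL] p1 * sL + aeval ![uL, vL] p2 * rL t +
      aeval ![uL, vL] p3 * (sL * rL t) = 0) : p0 = 0 ∧ p1 = 0 ∧ p2 = 0 ∧ p3 = 0 := by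
  have key := ww_ind t 0
  have w00 : ww t 0 0 = uL := rfl
  have w01 : ww t 0 1 = vL := rfl
  have w02 : ww t 0 2 = sL := by simp [ww]
  have w03 : ww t 0 3 = rL t := by simp [ww]
  unfold Indep at key
  rw [w00, w01, w02, w03] at key
  exact key p0 p1 p2 p3 h

lemma poly_zero (a b c d e f : ℂ) (h : (C a + C b * X 0 + C c * X 1 + C d * X 0 ^ 2 +
    C e * (X 0 * X 1) + C f * X 1 ^ 2 : MvPolynomial (Fin 2) ℂ) = 0) :
    a = 0 ∧ b = 0 ∧ c = 0 ∧ d = 0 ∧ e = 0 ∧ f = 0 := by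
  have key : ∀ x y : ℂ, a + b * x + c * y + d * x ^ 2 + e * (x * y) + f * y ^ 2 = 0 := by
    intro x y
    have := congrArg (eval ![x, y]) h
    simpa using this
  have h1 := key 0 0
  have h2 := key 1 0
  have h3 := key (-1) 0
  have h4 := key 0 1
  have h5 := key 0 (-1)
  have h6 := key 1 1
  have ha : a = 0 := by linear_combination h1
  have hb : b = 0 := by linear_combination (h2 - h3) / 2
  have hc : c = 0 := by linear_combination (h4 - h5) / 2
  have hd : d = 0 := by linear_combination (h2 + h3) / 2 - h1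
  have hf : f = 0 := by linear_combination (h4 + h5) / 2 - h1
  refine ⟨ha, hb, hc, hd, ?_, hf⟩
  rw [ha, hb, hc, hd, hf] at h6
  linear_combination h6

/-- linear independence of `1, u, v, s, r` -/
lemma lin_indep (c : Fin 5 → ℂ) (h : ∑ l, algebraMap ℂ Luv (c l) * ee t l = 0) : c = 0 := by
  rw [Fin.sum_univ_five] at h
  have e0 : ee t 0 = 1 := rfl
  have e1 : ee t 1 = uL := rfl
  have e2 : ee t 2 = vL := rfl
  have e3 : ee t 3 = sL := rfl
  have e4 : ee t 4 = rL t := rfl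
  rw [e0, e1, e2, e3, e4] at h
  obtain ⟨h0, h1, h2, -⟩ := indep_0 t (C (c 0) + C (c 1) * X 0 + C (c 2) * X 1 + C 0 * X 0 ^ 2 +
    C 0 * (X 0 * X 1) + C 0 * X 1 ^ 2) (C (c 3)) (C (c 4)) 0 (by
      simp only [map_add, map_mul, map_pow, algHom_C, aeval_X, Matrix.cons_val_zero,
        Matrix.cons_val_one, Matrix.cons_val_fin_one, map_zero, zero_mul, add_zero]
      linear_combination h)
  obtain ⟨g0, g1, g2, -⟩ := poly_zero _ _ _ _ _ _ h0
  have g3 : c 3 = 0 := by simpa using h1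
  have g4 : c 4 = 0 := by simpa using h2
  funext l
  fin_cases l
  · exact g0
  · exact g1
  · exact g2
  · exact g3
  · exact g4

/-- The quadratic relations are spanned by two diagonal ones. -/
theorem quadric (B : Matrix (Fin 5) (Fin 5) ℂ) (hB : ∀ i j, B i j = B j i)
    (h : ∑ i, ∑ j, algebraMap ℂ Luv (B i j) * (ee t i * ee t j) = 0) :
    ∃ x y : ℂ, B = x • Matrix.diagonal al + y • Matrix.diagonal (be t) := by
  have e0 : ee t 0 = 1 := rfl
  have e1 : ee t 1 = uL := rfl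
  have e2 : ee t 2 = vL := rfl
  have e3 : ee t 3 = sL := rfl
  have e4 : ee t 4 = rL t := rfl
  simp only [Fin.sum_univ_five, e0, e1, e2, e3, e4, hB 1 0, hB 2 0, hB 3 0, hB 4 0, hB 2 1,
    hB 3 1, hB 4 1, hB 3 2, hB 4 2, hB 4 3] at h
  have hs := sL_sq
  have hr := rL_sq t
  have k2 : algebraMap ℂ Luv 2 = 2 := map_ofNat _ 2
  obtain ⟨h0, h1, h2, h3⟩ := indep_0 t
    (C (B 0 0 + B 3 3 + B 4 4) + C (2 * B 0 1) * X 0 + C (2 * B 0 2) * X 1 +
      C (B 1 1 + B 3 3 + 2 * B 4 4) * X 0 ^ 2 + C (2 * B 1 2) * (X 0 * X 1) +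
      C (B 2 2 + B 3 3 + t * B 4 4) * X 1 ^ 2)
    (C (2 * B 0 3) + C (2 * B 1 3) * X 0 + C (2 * B 2 3) * X 1 + C 0 * X 0 ^ 2 +
      C 0 * (X 0 * X 1) + C 0 * X 1 ^ 2)
    (C (2 * B 0 4) + C (2 * B 1 4) * X 0 + C (2 * B 2 4) * X 1 + C 0 * X 0 ^ 2 +
      C 0 * (X 0 * X 1) + C 0 * X 1 ^ 2)
    (C (2 * B 3 4)) (by
      simp only [map_add, map_mul, map_pow, algHom_C, aeval_X, Matrix.cons_val_zero,
        Matrix.cons_val_one, Matrix.cons_val_fin_one, map_zero, zero_mul, add_zero, k2]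
      linear_combination h - algebraMap ℂ Luv (B 3 3) * hs - algebraMap ℂ Luv (B 4 4) * hr)
  obtain ⟨a1, a2, a3, a4, a5, a6⟩ := poly_zero _ _ _ _ _ _ h0
  obtain ⟨b1, b2, b3, -⟩ := poly_zero _ _ _ _ _ _ h1
  obtain ⟨c1, c2, c3, -⟩ := poly_zero _ _ _ _ _ _ h2
  have d1 : 2 * B 3 4 = 0 := by simpa using h3
  have q01 : B 0 1 = 0 := by linear_combination a2 / 2
  have q02 : B 0 2 = 0 := by linear_combination a3 / 2
  have q12 : B 1 2 = 0 := by linear_combination a5 / 2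
  have q03 : B 0 3 = 0 := by linear_combination b1 / 2
  have q13 : B 1 3 = 0 := by linear_combination b2 / 2
  have q23 : B 2 3 = 0 := by linear_combination b3 / 2
  have q04 : B 0 4 = 0 := by linear_combination c1 / 2
  have q14 : B 1 4 = 0 := by linear_combination c2 / 2
  have q24 : B 2 4 = 0 := by linear_combination c3 / 2
  have q34 : B 3 4 = 0 := by linear_combination d1 / 2
  have q10 : B 1 0 = 0 := by rw [hB, q01]
  have q20 : B 2 0 = 0 := by rw [hB, q02]
  have q21 : B 2 1 = 0 := by rw [hB, q12]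
  have q30 : B 3 0 = 0 := by rw [hB, q03]
  have q31 : B 3 1 = 0 := by rw [hB, q13]
  have q32 : B 3 2 = 0 := by rw [hB, q23]
  have q40 : B 4 0 = 0 := by rw [hB, q04]
  have q41 : B 4 1 = 0 := by rw [hB, q14]
  have q42 : B 4 2 = 0 := by rw [hB, q24]
  have q43 : B 4 3 = 0 := by rw [hB, q34]
  refine ⟨-B 3 3, -B 4 4, ?_⟩
  ext i j
  fin_cases i <;> fin_cases j <;>
    simp [al, be, q01, q02, q12, q03, q13, q23, q04, q14, q24, q34, q10, q20, q21, q30, q31, q32,
      q40, q41, q42, q43]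
  · linear_combination a1
  · linear_combination a4
  · linear_combination a6

end Pool.Agent.H935.FF
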