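import Pool.Agent.H935.FF.Defs

/-!
Every variety embeds in itself.
-/

set_option autoImplicit false

open CategoryTheory Limits AlgebraicGeometry TopologicalSpace Pretriangulated
open Pool.Agent.Helper165 Pool.Agent.TH215.TM

namespace Pool.Agent.H935.FF

attribute [local instance] HasDerivedCategory.standard

lemma isExact_id (X : Scheme.{0}) : IsExact (𝟭 (DbCoh X)) := by
  refine ⟨inferInstance, fun T hT => ?_⟩
  refine isomorphic_distinguished _ hT _ ?_
  exact (Functor.mapTriangleCompIso (𝟭 (DbCoh X)) (isDbCoh X).ι).app T ≪≫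
    (isDbCoh X).ι.mapTriangle.mapIso ((Functor.mapTriangleIdIso (DbCoh X)).app T)

lemma embeds_refl (Y : Over SpecC) : Embeds Y Y :=
  ⟨𝟭 _, inferInstance, inferInstance, isExact_id _, fun _ _ _ h => h⟩

end Pool.Agent.H935.FF
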