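import Mathlib

/-!
The graded algebra `⊕ Vⁿ Tⁿ` attached to a subspace `V` of a field extension `L` of `k`.
-/

set_option autoImplicit false

open Polynomial DirectSum

namespace Pool.Agent.H935.FF

variable {k L : Type} [Field k] [Field L] [Algebra k L] (V : Submodule k L)

/-- The algebra `⊕ Vⁿ Tⁿ`, as a subalgebra of `L[T]`. -/
def secAlg : Subalgebra k L[X] where
  carrier := {f | ∀ n, f.coeff n ∈ V ^ n}
  mul_mem' := by
    intro f g hf hg n
    rw [coeff_mul]
    refine Submodule.sum_mem _ ?_
    intro p hp
    rw [← Finset.HasAntidiagonal.mem_antidiagonal.1 hp, pow_add]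
    exact Submodule.mul_mem_mul (hf _) (hg _)
  add_mem' := by
    intro f g hf hg n
    rw [coeff_add]
    exact Submodule.add_mem _ (hf n) (hg n)
  algebraMap_mem' := by
    intro r n
    rw [Polynomial.algebraMap_apply, coeff_C]
    split_ifs with h
    · subst h
      rw [pow_zero]
      exact Submodule.mem_one.2 ⟨r, rfl⟩
    · exact Submodule.zero_mem _

lemma mem_secAlg {f : L[X]} : f ∈ secAlg V ↔ ∀ n, f.coeff n ∈ V ^ n := Iff.rfl

lemma monomial_mem_secAlg {n : ℕ} {a : L} : monomial n a ∈ secAlg V ↔ a ∈ V ^ n := by
  constructor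
  · intro h
    have := h n
    rwa [coeff_monomial, if_pos rfl] at this
  · intro h m
    rw [coeff_monomial]
    split_ifs with hm
    · subst hm; exact h
    · exact Submodule.zero_mem _

/-- The graded piece of degree `n`. -/
def piece (n : ℕ) : Submodule k (secAlg V) where
  carrier := {f | ∀ m, m ≠ n → (f : L[X]).coeff m = 0}
  add_mem' := by
    intro f g hf hg m hm
    have h1 := hf m hm
    have h2 := hg m hm
    simp only [Subalgebra.coe_add, coeff_add, h1, h2, add_zero]
  zero_mem' := by intro m _; simp
  smul_mem' := by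
    intro a f hf m hm
    have h1 := hf m hm
    simp only [Subalgebra.coe_smul, coeff_smul, h1, smul_zero]

lemma mem_piece {n : ℕ} {f : secAlg V} :
    f ∈ piece V n ↔ ∀ m, m ≠ n → (f : L[X]).coeff m = 0 := Iff.rfl

/-- The element `a T ^ n`, for `a ∈ V ^ n`. -/
noncomputable def mon (n : ℕ) (a : L) (ha : a ∈ V ^ n) : secAlg V :=
  ⟨monomial n a, (monomial_mem_secAlg V).2 ha⟩

lemma mon_mem (n : ℕ) (a : L) (ha : a ∈ V ^ n) : mon V n a ha ∈ piece V n := by
  intro m hm
  simp only [mon, coeff_monomial]
  rw [if_neg (Ne.symm hm)]

lemma eq_mon {n : ℕ} {f : secAlg V} (hf : f ∈ piece V n) :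
    f = mon V n ((f : L[X]).coeff n) (f.2 n) := by
  apply Subtype.ext
  ext m
  simp only [mon, coeff_monomial]
  by_cases h : n = m
  · subst h; simp
  · rw [if_neg h]
    exact hf m (Ne.symm h)

instance : SetLike.GradedMonoid (piece V) where
  one_mem := by
    intro m hm
    simp only [OneMemClass.coe_one, coeff_one]
    rw [if_neg hm]
  mul_mem := by
    intro i j f g hf hg
    rw [eq_mon V hf, eq_mon V hg]
    intro m hm
    simp only [mon, MulMemClass.mk_mul_mk, monomial_mul_monomial, coeff_monomial]
    rw [if_neg (Ne.symm hm)]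

/-- The homogeneous component of degree `i`. -/
noncomputable def comp (i : ℕ) (f : secAlg V) : piece V i :=
  ⟨mon V i ((f : L[X]).coeff i) (f.2 i), mon_mem V _ _ _⟩

/-- Decomposition into homogeneous components. -/
noncomputable def dec (f : secAlg V) : ⨁ i, piece V i :=
  ∑ i ∈ (f : L[X]).support, DirectSum.of (fun i => piece V i) i (comp V i f)

lemma dec_apply (f : secAlg V) (i : ℕ) : dec V f i = comp V i f := by
  classical
  unfold dec
  rw [DFinsupp.finsetSum_apply]
  by_cases hi : i ∈ (f : L[X]).support
  · rw [Finset.sum_eq_single i]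
    · exact DirectSum.of_eq_same _ _
    · intro j _ hj
      exact DirectSum.of_eq_of_ne _ _ _ (Ne.symm hj)
    · intro h; exact absurd hi h
  · rw [Finset.sum_eq_zero]
    · apply Subtype.ext
      apply Subtype.ext
      simp only [comp, mon]
      rw [notMem_support_iff.1 hi]
      simp
    · intro j hj
      refine DirectSum.of_eq_of_ne _ _ _ ?_
      rintro rfl
      exact hi hj

lemma coeff_coe_sum (x : ⨁ i, piece V i) (m : ℕ) :
    ((DirectSum.coeAddMonoidHom (piece V) x : secAlg V) : L[X]).coeff m =
      (((x m : piece V m) : secAlg V) : L[X]).coeff m := by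
  classical
  induction x using DirectSum.induction_on with
  | zero => simp
  | of i y =>
    rw [DirectSum.coeAddMonoidHom_of]
    by_cases h : i = m
    · subst h
      rw [DirectSum.of_eq_same]
    · rw [DirectSum.of_eq_of_ne _ _ _ (Ne.symm h)]
      simp only [ZeroMemClass.coe_zero, coeff_zero]
      exact y.2 m (Ne.symm h)
  | add x y hx hy =>
    rw [map_add, DirectSum.add_apply]
    simp only [Subalgebra.coe_add, coeff_add, Submodule.coe_add, hx, hy]

noncomputable instance : GradedAlgebra (piece V) where
  decompose' := dec V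
  left_inv := by
    intro f
    apply Subtype.ext
    ext m
    rw [coeff_coe_sum, dec_apply]
    simp [comp, mon]
  right_inv := by
    intro x
    refine DFinsupp.ext fun i => ?_
    rw [dec_apply]
    apply Subtype.ext
    rw [comp]
    simp only
    rw [eq_mon V (x i).2]
    apply Subtype.ext
    simp only [mon]
    rw [coeff_coe_sum]

/-- The ring map from `k` to the degree zero part. -/
noncomputable def toZero : k →+* piece V 0 := algebraMap k (piece V 0)

lemma toZero_coe (a : k) : (((toZero V a : piece V 0) : secAlg V) : L[X]) =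
    C (algebraMap k L a) := rfl

lemma toZero_bijective : Function.Bijective (toZero V) := by
  constructor
  · intro a b h
    have h2 := congrArg (fun z : piece V 0 => ((z : secAlg V) : L[X])) h
    simp only [toZero_coe] at h2
    exact (algebraMap k L).injective (C_injective h2)
  · intro z
    have hz := ((z : secAlg V)).2 0
    rw [pow_zero] at hz
    obtain ⟨a, ha⟩ := Submodule.mem_one.1 hz
    refine ⟨a, ?_⟩
    apply Subtype.ext
    apply Subtype.ext
    rw [toZero_coe, ha]
    have h := congrArg (fun w : secAlg V => (w : L[X])) (eq_mon V z.2)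
    simp only [mon, monomial_zero_left] at h
    exact h.symm

/-- The element `a T`, for `a ∈ V`. -/
noncomputable def tE (a : L) (ha : a ∈ V) : secAlg V := mon V 1 a (by simpa using ha)

lemma tE_mem (a : L) (ha : a ∈ V) : tE V a ha ∈ piece V 1 := mon_mem V _ _ _

lemma tE_ne_zero (a : L) (ha : a ∈ V) (h0 : a ≠ 0) : tE V a ha ≠ 0 := by
  intro h
  have h4 := congrArg (fun z : secAlg V => (z : L[X]).coeff 1) h
  simp [tE, mon] at h4
  exact h0 h4

lemma mon_mul (m n : ℕ) (a b : L) (ha : a ∈ V ^ m) (hb : b ∈ V ^ n) :
    mon V m a ha * mon V n b hb = mon V (m + n) (a * b)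
      (by rw [pow_add]; exact Submodule.mul_mem_mul ha hb) := by
  apply Subtype.ext
  simp only [mon]
  change monomial m a * monomial n b = _
  rw [monomial_mul_monomial]

/-- the algebra is generated over `k` by `V T` -/
lemma adjoin_eq_top : Algebra.adjoin k {z : secAlg V | ∃ a, ∃ ha : a ∈ V, z = tE V a ha} = ⊤ := by
  rw [eq_top_iff]
  have key : ∀ (n : ℕ) (a : L) (ha : a ∈ V ^ n),
      mon V n a ha ∈ Algebra.adjoin k {z : secAlg V | ∃ a, ∃ ha : a ∈ V, z = tE V a ha} := by
    intro n
    induction n with
    | zero =>
      intro a ha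
      have ha' := ha
      rw [pow_zero] at ha'
      obtain ⟨r, rfl⟩ := Submodule.mem_one.1 ha'
      have : mon V 0 (algebraMap k L r) ha = algebraMap k (secAlg V) r := by
        apply Subtype.ext
        rfl
      rw [this]
      exact Subalgebra.algebraMap_mem _ _
    | succ n ih =>
      intro b hb
      have hb' := hb
      rw [pow_succ] at hb'
      induction hb' using Submodule.mul_induction_on' with
      | mem_mul_mem a ha c hc =>
        have : mon V (n + 1) (a * c) hb = mon V n a ha * tE V c hc := by
          rw [tE, mon_mul]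
        rw [this]
        exact Subalgebra.mul_mem _ (ih a ha) (Algebra.subset_adjoin ⟨c, hc, rfl⟩)
      | add a ha c hc iha ihc =>
        have ha' : a ∈ V ^ (n + 1) := by rw [pow_succ]; exact ha
        have hc' : c ∈ V ^ (n + 1) := by rw [pow_succ]; exact hc
        have : mon V (n + 1) (a + c) hb = mon V (n + 1) a ha' + mon V (n + 1) c hc' := by
          apply Subtype.ext
          simp only [mon]
          change _ = Polynomial.monomial (n + 1) a + Polynomial.monomial (n + 1) c
          rw [map_add]
        rw [this]
        exact Subalgebra.add_mem _ (iha ha') (ihc hc')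
  rintro z -
  classical
  rw [← DirectSum.sum_support_decompose (piece V) z]
  refine Subalgebra.sum_mem _ fun i _ => ?_
  rw [eq_mon V (DirectSum.decompose (piece V) z i).2]
  exact key i _ _

lemma finiteType_zero (hV : V.FG) : Algebra.FiniteType (piece V 0) (secAlg V) := by
  classical
  obtain ⟨s, hs⟩ := hV
  have hsV : ∀ a ∈ s, a ∈ V := fun a ha => by rw [← hs]; exact Submodule.subset_span ha
  refine ⟨s.attach.image (fun a => tE V a.1 (hsV a.1 a.2)), ?_⟩
  have hk : ∀ r : k, algebraMap k (secAlg V) r =
      algebraMap (piece V 0) (secAlg V) (toZero V r) := fun r => rfl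
  have h1 : ∀ a (ha : a ∈ V), tE V a ha ∈ Algebra.adjoin (piece V 0)
      ((s.attach.image (fun a => tE V a.1 (hsV a.1 a.2)) : Finset (secAlg V)) :
        Set (secAlg V)) := by
    intro a ha
    have ha' := ha
    rw [← hs] at ha'
    induction ha' using Submodule.span_induction with
    | mem b hb =>
      refine Algebra.subset_adjoin ?_
      rw [Finset.mem_coe, Finset.mem_image]
      exact ⟨⟨b, hb⟩, Finset.mem_attach _ _, rfl⟩
    | zero =>
      have : tE V 0 ha = 0 := by
        apply Subtype.ext
        simp [tE, mon]
      rw [this]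
      exact Subalgebra.zero_mem _
    | add b c hb hc ihb ihc =>
      have hb' : b ∈ V := by rw [← hs]; exact hb
      have hc' : c ∈ V := by rw [← hs]; exact hc
      have : tE V (b + c) ha = tE V b hb' + tE V c hc' := by
        apply Subtype.ext
        simp only [tE, mon]
        change _ = Polynomial.monomial 1 b + Polynomial.monomial 1 c
        rw [map_add]
      rw [this]
      exact Subalgebra.add_mem _ (ihb hb') (ihc hc')
    | smul r b hb ihb =>
      have hb' : b ∈ V := by rw [← hs]; exact hb
      have : tE V (r • b) ha = algebraMap k (secAlg V) r * tE V b hb' := by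
        apply Subtype.ext
        simp only [tE, mon]
        change _ = Polynomial.C (algebraMap k L r) * Polynomial.monomial 1 b
        rw [C_mul_monomial, Algebra.smul_def]
      rw [this, hk]
      exact Subalgebra.mul_mem _ (Subalgebra.algebraMap_mem _ _) (ihb hb')
  rw [eq_top_iff]
  rintro z -
  have hz : z ∈ Algebra.adjoin k {z : secAlg V | ∃ a, ∃ ha : a ∈ V, z = tE V a ha} := by
    rw [adjoin_eq_top]; trivial
  induction hz using Algebra.adjoin_induction with
  | mem x hx =>
    obtain ⟨a, ha, rfl⟩ := hx
    exact h1 a ha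
  | algebraMap r =>
    rw [hk]
    exact Subalgebra.algebraMap_mem _ _
  | add x y _ _ hx hy => exact Subalgebra.add_mem _ hx hy
  | mul x y _ _ hx hy => exact Subalgebra.mul_mem _ hx hy

end Pool.Agent.H935.FF
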