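import Pool.Agent.H935.FF.H0
import Pool.Agent.H935.FF.Quad
import Pool.Agent.H935.FF.IsoK

/-!
Semilinear automorphisms of the surfaces.
-/

set_option autoImplicit false
set_option linter.unusedSimpArgs false

open AlgebraicGeometry CategoryTheory TopologicalSpace
open Pool.Agent.Helper165 KaehlerDifferential

namespace Pool.Agent.H935.FF

variable (t : ℂ)

attribute [local instance] algK

lemma EE_rel1 : EE t 3 ^ 2 = EE t 0 ^ 2 + EE t 1 ^ 2 + EE t 2 ^ 2 := by
  apply jL_injective (VV t)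
  simp only [map_add, map_mul, map_pow, jL_EE]
  have e0 : ee t 0 = 1 := rfl
  have e1 : ee t 1 = uL := rfl
  have e2 : ee t 2 = vL := rfl
  have e3 : ee t 3 = sL := rfl
  rw [e0, e1, e2, e3]
  linear_combination sL_sq

lemma EE_rel2 : EE t 4 ^ 2 = EE t 0 ^ 2 + 2 * EE t 1 ^ 2 +
    algebraMap ℂ (SS t).functionField t * EE t 2 ^ 2 := by
  apply jL_injective (VV t)
  simp only [map_add, map_mul, map_pow, jL_EE, jL_alg, map_ofNat]
  have e0 : ee t 0 = 1 := rfl
  have e1 : ee t 1 = uL := rfl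
  have e2 : ee t 2 = vL := rfl
  have e4 : ee t 4 = rL t := rfl
  rw [e0, e1, e2, e4]
  linear_combination rL_sq t

/-- Matrix form of the quadratic relations. -/
lemma matrix_rel (A : Matrix (Fin 5) (Fin 5) ℂ) (γ : Fin 5 → ℂ) (x : Fin 5 → Luv)
    (hx : ∀ k, x k = ∑ l, algebraMap ℂ Luv (A k l) * ee t l)
    (h : ∑ k, algebraMap ℂ Luv (γ k) * x k ^ 2 = 0) :
    ∃ a b : ℂ, A.transpose * Matrix.diagonal γ * A = a • Matrix.diagonal al +
      b • Matrix.diagonal (be t) := by
  have hB : ∀ i j, (A.transpose * Matrix.diagonal γ * A) i j = ∑ k, γ k * (A k i * A k j) := by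
    intro i j
    rw [Matrix.mul_apply]
    refine Finset.sum_congr rfl fun k _ => ?_
    rw [Matrix.mul_diagonal, Matrix.transpose_apply]
    ring
  apply quadric
  · intro i j
    rw [hB, hB]
    refine Finset.sum_congr rfl fun k _ => ?_
    ring
  · rw [← h]
    have e1 : ∀ k, algebraMap ℂ Luv (γ k) * x k ^ 2 = ∑ i, ∑ j,
        algebraMap ℂ Luv (γ k * (A k i * A k j)) * (ee t i * ee t j) := by
      intro k
      rw [hx k, sq, Finset.sum_mul_sum, Finset.mul_sum]
      refine Finset.sum_congr rfl fun i _ => ?_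
      rw [Finset.mul_sum]
      refine Finset.sum_congr rfl fun j _ => ?_
      simp only [map_mul]
      ring
    simp only [e1, hB, map_sum, Finset.sum_mul]
    rw [Finset.sum_comm (s := Finset.univ (α := Fin 5)) (t := Finset.univ (α := Fin 5))
      (f := fun k i => ∑ j, algebraMap ℂ Luv (γ k * (A k i * A k j)) * (ee t i * ee t j))]
    refine Finset.sum_congr rfl fun i _ => ?_
    rw [Finset.sum_comm]

variable (ht0 : t ≠ 0) (ht1 : t ≠ 1) (ht2 : t ≠ 2)

include ht0 ht1 ht2 in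
lemma EE_reg (k : Fin 5) (y : SS t) :
    SecRegular (differential ℂ (SS t).functionField) 2 (eta t) 1 (EE t k)
      (localRing (𝟙 (SS t)) y) := by
  obtain ⟨i, hi⟩ := exists_e3_notMem t y
  refine ⟨(E3 t i)⁻¹, gen_eta t ht0 ht1 ht2 i y hi, ?_⟩
  rw [pow_one, ← Oy_coe]
  change EE t k * (E3 t i)⁻¹ ∈ Oy t y
  rw [mem_Oy]
  refine ⟨1, ee t k, e3 t i, by simpa using ee_mem t k, by simpa using e3_mem t i, hi, ?_⟩
  rw [map_mul, map_inv₀, jL_EE, jL_E3, div_eq_mul_inv]

include ht0 ht1 ht2 in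
theorem semi (ρ : ℂ ≃+* ℂ) (e : SS t ≅ SS t) (he : e.hom ≫ SSπ t = SSπ t ≫ specAut ρ) :
    t ∈ Subfield.closure {ρ t} := by
  let ψ : (SS t).functionField ≃+* (SS t).functionField := ffEquiv e
  have hψ : ∀ a, ψ (algebraMap ℂ (SS t).functionField a) =
      algebraMap ℂ (SS t).functionField (ρ a) := by
    intro a
    rw [algK_apply, algK_apply]
    change ffEquiv e _ = _
    rw [ffEquiv_constants, he, constants_twist]
  have hO : ∀ y : SS t, ψ '' localRing (𝟙 (SS t)) (e.hom y) = localRing (𝟙 (SS t)) y :=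
    fun y => ffEquiv_localRing e y
  -- the transported form is a multiple of the form
  obtain ⟨h₀, hh₀⟩ : ∃ h₀ : (SS t).functionField, TF ψ ρ hψ 2 (eta t) = h₀ • eta t := by
    let y := genericPoint (SS t)
    obtain ⟨j, hj⟩ := exists_e3_notMem t (e.hom y)
    obtain ⟨i, hi⟩ := exists_e3_notMem t y
    have g1 := isGenerator_transport ψ ρ hψ 2 _ _ (gen_eta t ht0 ht1 ht2 j (e.hom y) hj)
    rw [hO, TF_smul] at g1
    have g2 := gen_eta t ht0 ht1 ht2 i y hi
    have h1 : (1 : (SS t).functionField) ∈ localRing (𝟙 (SS t)) y := by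
      rw [← Oy_coe]
      exact (Oy t y).one_mem
    obtain ⟨g, -, hg'⟩ := (g2.2 _).1 ((g1.2 _).2 ⟨1, h1, by rw [one_smul]⟩)
    have hne : ψ (E3 t j)⁻¹ ≠ 0 := by
      rw [Ne, map_eq_zero_iff ψ ψ.injective]
      exact inv_ne_zero (E3_ne_zero t j)
    refine ⟨(ψ (E3 t j)⁻¹)⁻¹ * (g * (E3 t i)⁻¹), ?_⟩
    rw [mul_smul, ← smul_smul g, ← hg', smul_smul, inv_mul_cancel₀ hne, one_smul]
  have h₀0 : h₀ ≠ 0 := by
    rintro rfl
    rw [zero_smul] at hh₀
    exact TF_ne_zero ψ ρ hψ 2 _ (eta_ne_zero t) hh₀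
  -- transported sections
  have hsec : ∀ k, jL (VV t) (ψ (EE t k) * h₀⁻¹) ∈ VV t := by
    intro k
    apply H0 t ht0 ht1 ht2
    intro y
    have h1 := secRegular_transport ψ ρ hψ 2 (eta t) 1 (EE t k) _
      (EE_reg t ht0 ht1 ht2 k (e.hom y))
    rw [hO, hh₀] at h1
    obtain ⟨a, ha, hb⟩ := h1
    refine ⟨a * h₀, ?_, ?_⟩
    · unfold GeneratesWith
      rw [mul_smul]
      exact ha
    · have : ψ (EE t k) * h₀⁻¹ * (a * h₀) ^ 1 = ψ (EE t k) * a ^ 1 := by
        field_simp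
      rw [this]
      exact hb
  have hsec' : ∀ k, ∃ c : Fin 5 → ℂ, ∑ l, c l • ee t l = jL (VV t) (ψ (EE t k) * h₀⁻¹) := by
    intro k
    exact (Submodule.mem_span_range_iff_exists_fun ℂ).1 (hsec k)
  choose A hA using hsec'
  let M : Matrix (Fin 5) (Fin 5) ℂ := A
  let x : Fin 5 → Luv := fun k => jL (VV t) (ψ (EE t k) * h₀⁻¹)
  have hx : ∀ k, x k = ∑ l, algebraMap ℂ Luv (M k l) * ee t l := by
    intro k
    change jL (VV t) (ψ (EE t k) * h₀⁻¹) = _
    rw [← hA k]
    refine Finset.sum_congr rfl fun l _ => ?_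
    rw [Algebra.smul_def]
  have k2 : algebraMap ℂ Luv 2 = 2 := map_ofNat _ 2
  have r1 : ∑ k, algebraMap ℂ Luv (al k) * x k ^ 2 = 0 := by
    have h1 := congrArg ψ (EE_rel1 t)
    simp only [map_add, map_pow] at h1
    have h2 := congrArg (fun z => jL (VV t) (z * h₀⁻¹ ^ 2)) h1
    simp only [map_add, map_pow, map_mul] at h2
    rw [Fin.sum_univ_five]
    simp only [x, al, map_mul, Matrix.cons_val_zero, Matrix.cons_val_one, Matrix.cons_val, map_one,
      map_neg, map_zero]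
    linear_combination -h2
  have r2 : ∑ k, algebraMap ℂ Luv (be (ρ t) k) * x k ^ 2 = 0 := by
    have h1 := congrArg ψ (EE_rel2 t)
    simp only [map_add, map_mul, map_pow, hψ, map_ofNat] at h1
    have h2 := congrArg (fun z => jL (VV t) (z * h₀⁻¹ ^ 2)) h1
    simp only [map_add, map_pow, map_mul, jL_alg, map_ofNat] at h2
    rw [Fin.sum_univ_five]
    simp only [x, be, map_mul, Matrix.cons_val_zero, Matrix.cons_val_one, Matrix.cons_val,
      map_one, map_neg, map_zero, k2]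
    linear_combination -h2
  obtain ⟨a₁, b₁, q1⟩ := matrix_rel t M al x hx r1
  obtain ⟨a₂, b₂, q2⟩ := matrix_rel t M (be (ρ t)) x hx r2
  refine pencil t (ρ t) ht0 M ?_ a₁ b₁ a₂ b₂ q1 q2
  intro hdet
  obtain ⟨v, hv0, hv⟩ := Matrix.exists_vecMul_eq_zero_iff.2 hdet
  apply hv0
  have h1 : ∑ k, algebraMap ℂ Luv (v k) * x k = 0 := by
    simp only [hx, Finset.mul_sum]
    rw [Finset.sum_comm]
    apply Finset.sum_eq_zero
    intro l _
    have h2 := congrFun hv l
    have h3 : ∑ k, v k * M k l = 0 := h2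
    have h4 := congrArg (algebraMap ℂ Luv) h3
    rw [map_sum, map_zero] at h4
    have h5 : ∑ k, algebraMap ℂ Luv (v k) * (algebraMap ℂ Luv (M k l) * ee t l) =
        (∑ k, algebraMap ℂ Luv (v k * M k l)) * ee t l := by
      rw [Finset.sum_mul]
      refine Finset.sum_congr rfl fun k _ => ?_
      rw [map_mul]
      ring
    rw [h5, h4, zero_mul]
  have h2 : jL (VV t) (ψ (∑ k, algebraMap ℂ (SS t).functionField (ρ.symm (v k)) * EE t k) *
      h₀⁻¹) = 0 := by
    rw [← h1]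
    simp only [map_sum, map_mul, hψ, RingEquiv.apply_symm_apply, jL_alg, Finset.sum_mul, x]
    refine Finset.sum_congr rfl fun k _ => ?_
    ring
  have h3 : ∑ k, algebraMap ℂ (SS t).functionField (ρ.symm (v k)) * EE t k = 0 := by
    have h4 := (map_eq_zero_iff _ (jL_injective (VV t))).1 h2
    rcases mul_eq_zero.1 h4 with h5 | h5
    · exact (map_eq_zero_iff _ ψ.injective).1 h5
    · exact absurd h5 (inv_ne_zero h₀0)
  have h4 := congrArg (jL (VV t)) h3
  simp only [map_sum, map_mul, jL_alg, jL_EE, map_zero] at h4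
  have h5 := lin_indep t (fun k => ρ.symm (v k)) h4
  funext k
  have h6 := congrFun h5 k
  exact (map_eq_zero_iff _ ρ.symm.injective).1 h6

end Pool.Agent.H935.FF
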