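import Pool.Agent.H935.FF.Pj3

/-!
The del Pezzo surfaces `s² = x₀² + x₁² + x₂²`, `r² = x₀² + 2 x₁² + t x₂²` in `ℙ⁴`.
-/

set_option autoImplicit false
set_option linter.unusedSimpArgs false
set_option linter.unnecessarySeqFocus false

open MvPolynomial AlgebraicGeometry CategoryTheory TopologicalSpace
open Pool.Agent.Helper165

namespace Pool.Agent.H935.FF

/-- The field `ℂ(u, v)`. -/
abbrev Fuv : Type := FractionRing (MvPolynomial (Fin 2) ℂ)

/-- An algebraic closure of `ℂ(u, v)`. -/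
abbrev Luv : Type := AlgebraicClosure Fuv

/-- The polynomial `1 + u² + v²`. -/
noncomputable def polS : MvPolynomial (Fin 2) ℂ := 1 + X 0 ^ 2 + X 1 ^ 2

/-- The polynomial `1 + 2 u² + t v²`. -/
noncomputable def polR (t : ℂ) : MvPolynomial (Fin 2) ℂ := 1 + C 2 * X 0 ^ 2 + C t * X 1 ^ 2

/-- The element `u`. -/
noncomputable def uL : Luv := algebraMap Fuv Luv (algebraMap (MvPolynomial (Fin 2) ℂ) Fuv (X 0))

/-- The element `v`. -/
noncomputable def vL : Luv := algebraMap Fuv Luv (algebraMap (MvPolynomial (Fin 2) ℂ) Fuv (X 1))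

/-- A square root `s` of `1 + u² + v²`. -/
noncomputable def sL : Luv :=
  (IsAlgClosed.exists_pow_nat_eq (algebraMap Fuv Luv (algebraMap _ _ polS)) two_pos).choose

/-- A square root `r` of `1 + 2 u² + t v²`. -/
noncomputable def rL (t : ℂ) : Luv :=
  (IsAlgClosed.exists_pow_nat_eq (algebraMap Fuv Luv (algebraMap _ _ (polR t))) two_pos).choose

lemma sL_sq' : sL ^ 2 = algebraMap Fuv Luv (algebraMap _ _ polS) :=
  (IsAlgClosed.exists_pow_nat_eq (algebraMap Fuv Luv (algebraMap _ _ polS)) two_pos).choose_spec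

lemma rL_sq' (t : ℂ) : rL t ^ 2 = algebraMap Fuv Luv (algebraMap _ _ (polR t)) :=
  (IsAlgClosed.exists_pow_nat_eq (algebraMap Fuv Luv (algebraMap _ _ (polR t)))
    two_pos).choose_spec

lemma alg_C (z : ℂ) : algebraMap Fuv Luv (algebraMap (MvPolynomial (Fin 2) ℂ) Fuv (C z)) =
    algebraMap ℂ Luv z := by
  rw [IsScalarTower.algebraMap_apply ℂ Fuv Luv,
    IsScalarTower.algebraMap_apply ℂ (MvPolynomial (Fin 2) ℂ) Fuv]
  rfl

lemma aeval_uv (p : MvPolynomial (Fin 2) ℂ) :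
    aeval ![uL, vL] p = algebraMap Fuv Luv (algebraMap (MvPolynomial (Fin 2) ℂ) Fuv p) := by
  induction p using MvPolynomial.induction_on with
  | C z => rw [alg_C, algHom_C]
  | add p q hp hq => rw [map_add, map_add, map_add, hp, hq]
  | mul_X p i hp =>
    rw [map_mul, map_mul, map_mul, hp, aeval_X]
    congr 1
    fin_cases i <;> rfl

lemma sL_sq : sL ^ 2 = 1 + uL ^ 2 + vL ^ 2 := by
  rw [sL_sq', ← aeval_uv]
  simp [polS]

lemma rL_sq (t : ℂ) : rL t ^ 2 = 1 + 2 * uL ^ 2 + algebraMap ℂ Luv t * vL ^ 2 := by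
  rw [rL_sq', ← aeval_uv]
  have h2 : algebraMap ℂ Luv 2 = 2 := map_ofNat _ 2
  simp [polR, algHom_C, h2]

lemma uv_ind : AlgebraicIndependent ℂ ![uL, vL] := by
  rw [algebraicIndependent_iff]
  intro p hp
  rw [aeval_uv, map_eq_zero] at hp
  exact (map_eq_zero_iff _ (IsFractionRing.injective (MvPolynomial (Fin 2) ℂ) Fuv)).1 hp

lemma uL_ne_zero : uL ≠ 0 := by
  intro h0
  have h1 : aeval ![uL, vL] (X 0 : MvPolynomial (Fin 2) ℂ) = 0 := by simp [h0]
  exact X_ne_zero (R := ℂ) (0 : Fin 2) ((algebraicIndependent_iff.1 uv_ind) _ h1)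

lemma vL_ne_zero : vL ≠ 0 := by
  intro h0
  have h1 : aeval ![uL, vL] (X 1 : MvPolynomial (Fin 2) ℂ) = 0 := by simp [h0]
  exact X_ne_zero (R := ℂ) (1 : Fin 2) ((algebraicIndependent_iff.1 uv_ind) _ h1)

lemma polS_not_sq (f : Fuv) : f ^ 2 ≠ algebraMap _ _ polS := by
  refine not_sq polS ![Complex.I, 0] ?_ ?_ f
  · simp [polS]
  · simp [polS]

lemma polR_not_sq (t : ℂ) (f : Fuv) : f ^ 2 ≠ algebraMap _ _ (polR t) := by
  obtain ⟨z, hz⟩ := IsAlgClosed.exists_pow_nat_eq (-1 / 2 : ℂ) two_pos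
  refine not_sq (polR t) ![z, 0] ?_ ?_ f
  · simp [polR, hz]
    norm_num
  · have : z ≠ 0 := by
      rintro rfl
      norm_num at hz
    simp [polR, this]

lemma polSR_not_sq (t : ℂ) (f : Fuv) :
    f ^ 2 ≠ algebraMap _ _ polS * algebraMap _ _ (polR t) := by
  rw [← map_mul]
  refine not_sq (polS * polR t) ![Complex.I, 0] ?_ ?_ f
  · simp [polS]
  · simp [polS, polR]
    norm_num

/-- The independence of `1, g s, g r, g² s r`. -/
lemma indep_w (t : ℂ) (x y g : Luv) (g' : Fuv) (hg : g = algebraMap Fuv Luv g') (hg0 : g ≠ 0)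
    (hxy : ∀ p : MvPolynomial (Fin 2) ℂ, ∃ q : Fuv, aeval ![x, y] p = algebraMap Fuv Luv q)
    (hind : AlgebraicIndependent ℂ ![x, y]) : Indep ![x, y, sL * g, rL t * g] := by
  intro p0 p1 p2 p3 h
  obtain ⟨q0, h0⟩ := hxy p0
  obtain ⟨q1, h1⟩ := hxy p1
  obtain ⟨q2, h2⟩ := hxy p2
  obtain ⟨q3, h3⟩ := hxy p3
  simp only [Matrix.cons_val_zero, Matrix.cons_val_one, Matrix.cons_val, h0, h1, h2, h3, hg] at h
  have hg'0 : g' ≠ 0 := by
    rintro rfl
    rw [map_zero] at hg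
    exact hg0 hg
  have := indep_four sL_sq' (rL_sq' t) polS_not_sq (polR_not_sq t) (polSR_not_sq t)
    q0 (q1 * g') (q2 * g') (q3 * g' * g') (by
      simp only [map_mul]
      linear_combination h)
  obtain ⟨e0, e1, e2, e3⟩ := this
  have e1' : q1 = 0 := (mul_eq_zero.1 e1).resolve_right hg'0
  have e2' : q2 = 0 := (mul_eq_zero.1 e2).resolve_right hg'0
  have e3' : q3 = 0 := (mul_eq_zero.1 ((mul_eq_zero.1 e3).resolve_right hg'0)).resolve_right hg'0
  subst e0 e1' e2' e3'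
  rw [map_zero] at h0 h1 h2 h3
  have hi := algebraicIndependent_iff.1 hind
  exact ⟨hi _ h0, hi _ h1, hi _ h2, hi _ h3⟩

lemma aeval_mem_F (x y : Luv) (x' y' : Fuv) (hx : x = algebraMap Fuv Luv x')
    (hy : y = algebraMap Fuv Luv y') (p : MvPolynomial (Fin 2) ℂ) :
    ∃ q : Fuv, aeval ![x, y] p = algebraMap Fuv Luv q := by
  induction p using MvPolynomial.induction_on with
  | C z => exact ⟨_, by rw [algHom_C, ← alg_C]⟩
  | add p q hp hq =>
    obtain ⟨p', hp⟩ := hp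
    obtain ⟨q', hq⟩ := hq
    exact ⟨p' + q', by rw [map_add, map_add, hp, hq]⟩
  | mul_X p i hp =>
    obtain ⟨p', hp⟩ := hp
    fin_cases i
    · exact ⟨p' * x', by rw [map_mul, map_mul, hp, aeval_X, ← hx]; rfl⟩
    · exact ⟨p' * y', by rw [map_mul, map_mul, hp, aeval_X, ← hy]; rfl⟩

/-- The anticanonical coordinates `1, u, v, s, r`. -/
noncomputable def ee (t : ℂ) : Fin 5 → Luv := ![1, uL, vL, sL, rL t]

/-- The coordinates on the three charts. -/
noncomputable def ww (t : ℂ) : Fin 3 → Fin 4 → Luv :=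
  ![![uL, vL, sL * 1, rL t * 1], ![uL⁻¹, vL * uL⁻¹, sL * uL⁻¹, rL t * uL⁻¹],
    ![vL⁻¹, uL * vL⁻¹, sL * vL⁻¹, rL t * vL⁻¹]]

/-- The coefficients of the equations of the charts. -/
noncomputable def co (t : ℂ) : Fin 3 → Fin 3 → ℂ := ![![2, t, 1], ![1, t, 2], ![1, 2, t]]

lemma co_nondeg (t : ℂ) (ht0 : t ≠ 0) (ht1 : t ≠ 1) (ht2 : t ≠ 2) (i : Fin 3) :
    Nondeg 1 1 1 (co t i 0) (co t i 1) (co t i 2) := by
  have h1 : t - 2 ≠ 0 := sub_ne_zero.2 ht2
  have h2 : t - 1 ≠ 0 := sub_ne_zero.2 ht1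
  have h3 : 2 - t ≠ 0 := sub_ne_zero.2 (Ne.symm ht2)
  have h4 : 1 - t ≠ 0 := sub_ne_zero.2 (Ne.symm ht1)
  fin_cases i
  · constructor <;> simp [co, ht0, h1, h4] <;> norm_num
  · constructor <;> simp [co, ht0, h2, h3] <;> norm_num
  · constructor <;> simp [co, ht0, h2, h1] <;> norm_num

lemma ww_ind (t : ℂ) (i : Fin 3) : Indep (ww t i) := by
  have hu := algInd_inv uL vL uv_ind
  have hv := algInd_inv vL uL (algInd_swap uL vL uv_ind)
  fin_cases i
  · exact indep_w t uL vL 1 1 (by rw [map_one]) one_ne_zero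
      (aeval_mem_F _ _ _ _ rfl rfl) uv_ind
  · refine indep_w t uL⁻¹ (vL * uL⁻¹) uL⁻¹ (algebraMap (MvPolynomial (Fin 2) ℂ) Fuv (X 0))⁻¹
      (by rw [map_inv₀]; rfl) (inv_ne_zero uL_ne_zero) (aeval_mem_F _ _
        (algebraMap (MvPolynomial (Fin 2) ℂ) Fuv (X 0))⁻¹
        (algebraMap (MvPolynomial (Fin 2) ℂ) Fuv (X 1) *
          (algebraMap (MvPolynomial (Fin 2) ℂ) Fuv (X 0))⁻¹) ?_ ?_) hu
    · rw [map_inv₀]; rfl
    · rw [map_mul, map_inv₀]; rfl
  · refine indep_w t vL⁻¹ (uL * vL⁻¹) vL⁻¹ (algebraMap (MvPolynomial (Fin 2) ℂ) Fuv (X 1))⁻¹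
      (by rw [map_inv₀]; rfl) (inv_ne_zero vL_ne_zero) (aeval_mem_F _ _
        (algebraMap (MvPolynomial (Fin 2) ℂ) Fuv (X 1))⁻¹
        (algebraMap (MvPolynomial (Fin 2) ℂ) Fuv (X 0) *
          (algebraMap (MvPolynomial (Fin 2) ℂ) Fuv (X 1))⁻¹) ?_ ?_) hv
    · rw [map_inv₀]; rfl
    · rw [map_mul, map_inv₀]; rfl

lemma ww_rel1 (t : ℂ) (i : Fin 3) : ww t i 2 ^ 2 = algebraMap ℂ Luv 1 * ww t i 0 ^ 2 +
    algebraMap ℂ Luv 1 * ww t i 1 ^ 2 + algebraMap ℂ Luv 1 := by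
  have hu := uL_ne_zero
  have hv := vL_ne_zero
  rw [map_one]
  fin_cases i
  · simp only [ww, Fin.zero_eta, Matrix.cons_val_zero, Matrix.cons_val_one, Matrix.cons_val]
    linear_combination sL_sq
  · simp only [ww, Fin.mk_one, Matrix.cons_val_zero, Matrix.cons_val_one, Matrix.cons_val]
    field_simp
    linear_combination sL_sq
  · simp only [ww, Fin.reduceFinMk, Matrix.cons_val_zero, Matrix.cons_val_one, Matrix.cons_val]
    field_simp
    linear_combination sL_sq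

lemma ww_rel2 (t : ℂ) (i : Fin 3) : ww t i 3 ^ 2 = algebraMap ℂ Luv (co t i 0) * ww t i 0 ^ 2 +
    algebraMap ℂ Luv (co t i 1) * ww t i 1 ^ 2 + algebraMap ℂ Luv (co t i 2) := by
  have hu := uL_ne_zero
  have hv := vL_ne_zero
  have h2 : algebraMap ℂ Luv 2 = 2 := map_ofNat _ 2
  fin_cases i
  · simp only [ww, co, Fin.zero_eta, Matrix.cons_val_zero, Matrix.cons_val_one, Matrix.cons_val,
      map_one, h2]
    linear_combination rL_sq t
  · simp only [ww, co, Fin.mk_one, Matrix.cons_val_zero, Matrix.cons_val_one, Matrix.cons_val,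
      map_one, h2]
    field_simp
    linear_combination rL_sq t
  · simp only [ww, co, Fin.reduceFinMk, Matrix.cons_val_zero, Matrix.cons_val_one,
      Matrix.cons_val, map_one, h2]
    field_simp
    linear_combination rL_sq t

end Pool.Agent.H935.FF
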