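import Pool.Agent.H935.FF.Surf

/-!
The del Pezzo surfaces `s² = x₀² + x₁² + x₂²`, `r² = x₀² + 2 x₁² + t x₂²`: geometry.
-/

set_option autoImplicit false
set_option linter.unusedSimpArgs false

open MvPolynomial AlgebraicGeometry CategoryTheory TopologicalSpace
open Pool.Agent.Helper165

namespace Pool.Agent.H935.FF

variable (t : ℂ)

/-- The space spanned by `1, u, v, s, r`. -/
noncomputable def VV : Submodule ℂ Luv := Submodule.span ℂ (Set.range (ee t))

lemma ee_mem (j : Fin 5) : ee t j ∈ VV t := Submodule.subset_span ⟨j, rfl⟩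

lemma ee_zero : ee t 0 = 1 := rfl

lemma one_mem_VV : (1 : Luv) ∈ VV t := ee_mem t 0

/-- The surface. -/
noncomputable abbrev SS : Scheme.{0} := PV (VV t)

/-- The structure morphism of the surface. -/
noncomputable abbrev SSπ : SS t ⟶ Spec (CommRingCat.of ℂ) := PVπ (VV t)

instance SS_integral : IsIntegral (SS t) := PV_integral (VV t) 1 (one_mem_VV t) one_ne_zero

lemma SS_proper : IsProper (SSπ t) :=
  PV_proper (VV t) (Submodule.fg_span (Set.finite_range _))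

/-- The three coordinates `1, u, v`. -/
noncomputable def e3 (i : Fin 3) : Luv := ee t (Fin.castLE (by norm_num) i)

lemma e3_mem (i : Fin 3) : e3 t i ∈ VV t := ee_mem t _

lemma e3_ne_zero (i : Fin 3) : e3 t i ≠ 0 := by
  fin_cases i
  · exact one_ne_zero
  · exact uL_ne_zero
  · exact vL_ne_zero

lemma tE_eq_mon (a b : Luv) (ha : a ∈ VV t) (hb : b ∈ VV t) :
    ∀ h, mon (VV t) 2 (a * b) h = tE (VV t) a ha * tE (VV t) b hb := by
  intro h
  rw [tE, tE, mon_mul]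

lemma sq_mem_pid {y : SS t} {a : Luv} (ha : a ∈ VV t) (h : tE (VV t) a ha ∈ pid (VV t) y) :
    tE (VV t) a ha ^ 2 ∈ (pid (VV t) y).toIdeal :=
  Ideal.pow_mem_of_mem _ h 2 two_pos

lemma tE_coe (a : Luv) (ha : a ∈ VV t) :
    ((tE (VV t) a ha : secAlg (VV t)) : Polynomial Luv) = Polynomial.C a * Polynomial.X := by
  simp [tE, mon, Polynomial.C_mul_X_eq_monomial]

/-- The first quadratic relation. -/
lemma rel1 : tE (VV t) (ee t 3) (ee_mem t 3) ^ 2 = tE (VV t) (ee t 0) (ee_mem t 0) ^ 2 +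
    tE (VV t) (ee t 1) (ee_mem t 1) ^ 2 + tE (VV t) (ee t 2) (ee_mem t 2) ^ 2 := by
  apply Subtype.ext
  simp only [Subalgebra.coe_pow, Subalgebra.coe_add, tE_coe]
  have h : ee t 3 ^ 2 = ee t 0 ^ 2 + ee t 1 ^ 2 + ee t 2 ^ 2 := by
    simp only [ee, Matrix.cons_val_zero, Matrix.cons_val_one, Matrix.cons_val]
    linear_combination sL_sq
  have h' := congrArg Polynomial.C h
  simp only [map_add, map_pow] at h'
  linear_combination (Polynomial.X ^ 2) * h'

/-- The second quadratic relation. -/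
lemma rel2 : tE (VV t) (ee t 4) (ee_mem t 4) ^ 2 = tE (VV t) (ee t 0) (ee_mem t 0) ^ 2 +
    algebraMap ℂ _ 2 * tE (VV t) (ee t 1) (ee_mem t 1) ^ 2 +
    algebraMap ℂ _ t * tE (VV t) (ee t 2) (ee_mem t 2) ^ 2 := by
  apply Subtype.ext
  simp only [Subalgebra.coe_pow, Subalgebra.coe_add, Subalgebra.coe_mul, tE_coe,
    Subalgebra.coe_algebraMap]
  have h : ee t 4 ^ 2 = ee t 0 ^ 2 + algebraMap ℂ Luv 2 * ee t 1 ^ 2 +
      algebraMap ℂ Luv t * ee t 2 ^ 2 := by
    have h2 : algebraMap ℂ Luv 2 = 2 := map_ofNat _ 2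
    simp only [ee, Matrix.cons_val_zero, Matrix.cons_val_one, Matrix.cons_val, h2]
    linear_combination rL_sq t
  have h' := congrArg Polynomial.C h
  simp only [map_add, map_pow, map_mul] at h'
  have e : ∀ z : ℂ, algebraMap ℂ (Polynomial Luv) z = Polynomial.C (algebraMap ℂ Luv z) :=
    fun z => rfl
  rw [e, e]
  linear_combination (Polynomial.X ^ 2) * h'

lemma exists_e3_notMem (y : SS t) : ∃ i : Fin 3, tE (VV t) (e3 t i) (e3_mem t i) ∉ pid (VV t) y := by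
  by_contra hcon
  push Not at hcon
  have h0 : tE (VV t) (ee t 0) (ee_mem t 0) ∈ pid (VV t) y := hcon 0
  have h1 : tE (VV t) (ee t 1) (ee_mem t 1) ∈ pid (VV t) y := hcon 1
  have h2 : tE (VV t) (ee t 2) (ee_mem t 2) ∈ pid (VV t) y := hcon 2
  have hP : (pid (VV t) y).toIdeal.IsPrime := inferInstance
  have h3 : tE (VV t) (ee t 3) (ee_mem t 3) ∈ (pid (VV t) y).toIdeal := by
    refine hP.mem_of_pow_mem 2 ?_
    rw [rel1]
    exact Ideal.add_mem _ (Ideal.add_mem _ (sq_mem_pid t _ h0) (sq_mem_pid t _ h1))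
      (sq_mem_pid t _ h2)
  have h4 : tE (VV t) (ee t 4) (ee_mem t 4) ∈ (pid (VV t) y).toIdeal := by
    refine hP.mem_of_pow_mem 2 ?_
    rw [rel2]
    exact Ideal.add_mem _ (Ideal.add_mem _ (sq_mem_pid t _ h0)
      (Ideal.mul_mem_left _ _ (sq_mem_pid t _ h1))) (Ideal.mul_mem_left _ _ (sq_mem_pid t _ h2))
  obtain ⟨i, hi⟩ := exists_gen_notMem (VV t) y (ee t) rfl (ee_mem t)
  apply hi
  fin_cases i
  · exact h0
  · exact h1
  · exact h2
  · exact h3
  · exact h4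

lemma mul_ww (i : Fin 3) : ∃ σ : Fin 4 → Fin 5, (∀ j, e3 t i * ww t i j = ee t (σ j)) ∧
    ∀ l : Fin 5, ee t l = e3 t i ∨ ∃ j, σ j = l := by
  have hu := uL_ne_zero
  have hv := vL_ne_zero
  fin_cases i
  · refine ⟨![1, 2, 3, 4], ?_, ?_⟩
    · intro j
      fin_cases j <;> simp [e3, ee, ww]
    · intro l
      fin_cases l
      · exact Or.inl rfl
      · exact Or.inr ⟨0, rfl⟩
      · exact Or.inr ⟨1, rfl⟩
      · exact Or.inr ⟨2, rfl⟩
      · exact Or.inr ⟨3, rfl⟩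
  · refine ⟨![0, 2, 3, 4], ?_, ?_⟩
    · intro j
      fin_cases j <;> simp [e3, ee, ww] <;> field_simp
    · intro l
      fin_cases l
      · exact Or.inr ⟨0, rfl⟩
      · exact Or.inl rfl
      · exact Or.inr ⟨1, rfl⟩
      · exact Or.inr ⟨2, rfl⟩
      · exact Or.inr ⟨3, rfl⟩
  · refine ⟨![0, 1, 3, 4], ?_, ?_⟩
    · intro j
      fin_cases j <;> simp [e3, ee, ww] <;> field_simp
    · intro l
      fin_cases l
      · exact Or.inr ⟨0, rfl⟩
      · exact Or.inr ⟨1, rfl⟩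
      · exact Or.inl rfl
      · exact Or.inr ⟨2, rfl⟩
      · exact Or.inr ⟨3, rfl⟩

lemma mul_ww_mem (i : Fin 3) (j : Fin 4) : e3 t i * ww t i j ∈ VV t := by
  obtain ⟨σ, h1, -⟩ := mul_ww t i
  rw [h1]
  exact ee_mem t _

lemma VV_le (i : Fin 3) : VV t ≤
    Submodule.span ℂ ({e3 t i} ∪ Set.range fun j => e3 t i * ww t i j) := by
  obtain ⟨σ, h1, h2⟩ := mul_ww t i
  unfold VV
  rw [Submodule.span_le]
  rintro _ ⟨l, rfl⟩
  apply Submodule.subset_span
  rcases h2 l with h | ⟨j, rfl⟩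
  · exact Or.inl h
  · exact Or.inr ⟨j, h1 j⟩

lemma iSup_dPlus : ⨆ i : Fin 3, (chart (VV t) (e3 t i) (e3_mem t i)).opensRange = ⊤ := by
  rw [eq_top_iff]
  intro y _
  rw [Opens.mem_iSup]
  obtain ⟨i, hi⟩ := exists_e3_notMem t y
  refine ⟨i, ?_⟩
  rw [chart_opensRange]
  exact hi

theorem SS_smooth (ht0 : t ≠ 0) (ht1 : t ≠ 1) (ht2 : t ≠ 2) :
    SmoothOfRelativeDimension 2 (SSπ t) := by
  rw [IsZariskiLocalAtSource.iff_of_iSup_eq_top (P := @SmoothOfRelativeDimension 2)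
    (fun i : Fin 3 => (chart (VV t) (e3 t i) (e3_mem t i)).opensRange) (iSup_dPlus t)]
  intro i
  exact smooth_on_chart (VV t) (e3 t i) (e3_mem t i) (e3_ne_zero t i) (ww t i) (mul_ww_mem t i)
    (VV_le t i) (locally_smooth (ww t i) _ _ _ _ _ _ (co_nondeg t ht0 ht1 ht2 i) (ww_ind t i)
    (ww_rel1 t i) (ww_rel2 t i))

end Pool.Agent.H935.FF
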