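import Pool.Graph.R_seed8.Helper165.Defs

/-!
Transport of differential forms along a semilinear isomorphism of fields.
-/

set_option autoImplicit false

open Pool.Agent.Helper165 KaehlerDifferential

namespace Pool.Agent.H935.FF

section tw

variable {K K' : Type} [Field K] [Field K'] (ψ : K →+* K')

/-- A copy of a `K'`-module, seen as a `K`-module through `ψ`. -/
def Tw (_ : K →+* K') (M : Type) : Type := M

instance (M : Type) [AddCommGroup M] : AddCommGroup (Tw ψ M) := inferInstanceAs (AddCommGroup M)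

instance (M : Type) [AddCommGroup M] [Module K' M] : Module K (Tw ψ M) :=
  Module.compHom M ψ

/-- The identity map. -/
def toTw (M : Type) (m : M) : Tw ψ M := m

/-- The identity map. -/
def ofTw (M : Type) (m : Tw ψ M) : M := m

lemma ofTw_smul (M : Type) [AddCommGroup M] [Module K' M] (g : K) (m : Tw ψ M) :
    ofTw ψ M (g • m) = ψ g • ofTw ψ M m := rfl

lemma ofTw_add (M : Type) [AddCommGroup M] [Module K' M] (m m' : Tw ψ M) :
    ofTw ψ M (m + m') = ofTw ψ M m + ofTw ψ M m' := rfl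

end tw

section transport

variable {k K k' K' : Type} [Field k] [Field K] [Algebra k K] [Field k'] [Field K'] [Algebra k' K']
  (ψ : K ≃+* K') (σ : k ≃+* k') (h : ∀ a, ψ (algebraMap k K a) = algebraMap k' K' (σ a))

/-- The module of differentials of `K'` as a module over `K`. -/
abbrev TwO (ψ : K ≃+* K') : Type := Tw (ψ : K →+* K') (Ω[K'⁄k'])

noncomputable instance TwO_mod : Module k (TwO (k' := k') ψ) := Module.compHom _ (algebraMap k K)

instance TwO_tower : IsScalarTower k K (TwO (k' := k') ψ) where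
  smul_assoc x y z := by
    change (x • y) • z = algebraMap k K x • (y • z)
    rw [Algebra.smul_def, mul_smul]

/-- The derivation `x ↦ D (ψ x)`. -/
noncomputable def dTw : Derivation k K (TwO (k' := k') ψ) where
  toFun x := toTw _ _ (D k' K' (ψ x))
  map_add' x y := by rw [map_add, map_add]; rfl
  map_smul' c x := by
    rw [Algebra.smul_def, map_mul, h, Derivation.leibniz, Derivation.map_algebraMap, smul_zero,
      add_zero, ← h]
    rfl
  map_one_eq_zero' := by
    change D k' K' (ψ 1) = 0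
    rw [map_one, Derivation.map_one_eq_zero]
  leibniz' x y := by
    change D k' K' (ψ (x * y)) = ψ x • D k' K' (ψ y) + ψ y • D k' K' (ψ x)
    rw [map_mul, Derivation.leibniz]

/-- The induced map on differentials. -/
noncomputable def theta : Ω[K⁄k] →ₗ[K] TwO (k' := k') ψ := (dTw ψ σ h).liftKaehlerDifferential

lemma theta_D (x : K) : theta ψ σ h (D k K x) = toTw _ _ (D k' K' (ψ x)) := by
  unfold theta
  rw [Derivation.liftKaehlerDifferential_comp_D]
  rfl

/-- The underlying additive map. -/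
noncomputable def th (m : Ω[K⁄k]) : Ω[K'⁄k'] := ofTw _ _ (theta ψ σ h m)

lemma th_add (x y : Ω[K⁄k]) : th ψ σ h (x + y) = th ψ σ h x + th ψ σ h y := by
  unfold th
  rw [map_add]
  rfl

lemma th_smul (c : K) (x : Ω[K⁄k]) : th ψ σ h (c • x) = ψ c • th ψ σ h x := by
  unfold th
  rw [map_smul]
  rfl

lemma th_D (x : K) : th ψ σ h (D k K x) = D k' K' (ψ x) := by
  unfold th
  rw [theta_D]
  rfl

lemma th_update {n : ℕ} [DecidableEq (Fin n)] (m : Fin n → Ω[K⁄k]) (i : Fin n) (x : Ω[K⁄k]) :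
    (fun l => th ψ σ h (Function.update m i x l)) =
      Function.update (fun l => th ψ σ h (m l)) i (th ψ σ h x) :=
  Function.comp_update (th ψ σ h) m i x

/-- The induced map on forms, as an alternating map. -/
noncomputable def altTw (n : ℕ) :
    (Ω[K⁄k]) [⋀^Fin n]→ₗ[K] (Tw (ψ : K →+* K') (⋀[K']^n (Ω[K'⁄k']))) where
  toFun m := toTw _ _ (exteriorPower.ιMulti K' n fun i => th ψ σ h (m i))
  map_update_add' m i x y := by
    rw [th_update, th_update, th_update, th_add, AlternatingMap.map_update_add]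
    rfl
  map_update_smul' m i c x := by
    rw [th_update, th_update, th_smul, AlternatingMap.map_update_smul]
    rfl
  map_eq_zero_of_eq' m i j hm hij := by
    refine (exteriorPower.ιMulti K' n).map_eq_zero_of_eq _ ?_ hij
    rw [hm]

/-- The induced map on forms, with values in the twisted module. -/
noncomputable def TL (n : ℕ) :
    (⋀[K]^n (Ω[K⁄k])) →ₗ[K] (Tw (ψ : K →+* K') (⋀[K']^n (Ω[K'⁄k']))) :=
  exteriorPower.alternatingMapLinearEquiv (altTw ψ σ h n)

/-- The induced map on forms. -/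
noncomputable def TF (n : ℕ) (ω : ⋀[K]^n (Ω[K⁄k])) : ⋀[K']^n (Ω[K'⁄k']) :=
  ofTw _ _ (TL ψ σ h n ω)

lemma TF_add (n : ℕ) (x y : ⋀[K]^n (Ω[K⁄k])) :
    TF ψ σ h n (x + y) = TF ψ σ h n x + TF ψ σ h n y := by
  unfold TF
  rw [map_add]
  rfl

lemma TF_neg (n : ℕ) (x : ⋀[K]^n (Ω[K⁄k])) : TF ψ σ h n (-x) = -TF ψ σ h n x := by
  unfold TF
  rw [map_neg]
  rfl

lemma TF_zero (n : ℕ) : TF ψ σ h n 0 = 0 := by
  unfold TF
  rw [map_zero]
  rfl

lemma TF_smul (n : ℕ) (c : K) (x : ⋀[K]^n (Ω[K⁄k])) :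
    TF ψ σ h n (c • x) = ψ c • TF ψ σ h n x := by
  unfold TF
  rw [map_smul]
  rfl

lemma TF_ιMulti (n : ℕ) (m : Fin n → Ω[K⁄k]) :
    TF ψ σ h n (exteriorPower.ιMulti K n m) =
      exteriorPower.ιMulti K' n fun i => th ψ σ h (m i) := by
  unfold TF TL
  rw [exteriorPower.alternatingMapLinearEquiv_apply_ιMulti]
  rfl

include h in
lemma symm_h : ∀ a, ψ.symm (algebraMap k' K' a) = algebraMap k K (σ.symm a) := by
  intro a
  rw [RingEquiv.symm_apply_eq, h, RingEquiv.apply_symm_apply]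

lemma th_th (m : Ω[K⁄k]) : th ψ.symm σ.symm (symm_h ψ σ h) (th ψ σ h m) = m := by
  have hm : m ∈ Submodule.span K (Set.range (D k K)) := by
    rw [KaehlerDifferential.span_range_derivation]
    trivial
  induction hm using Submodule.span_induction with
  | mem x hx =>
    obtain ⟨y, rfl⟩ := hx
    rw [th_D, th_D, RingEquiv.symm_apply_apply]
  | zero =>
    have h0 : th ψ σ h 0 = 0 := by
      have := th_smul ψ σ h 0 (0 : Ω[K⁄k])
      rwa [smul_zero, map_zero, zero_smul] at this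
    have h0' : th ψ.symm σ.symm (symm_h ψ σ h) 0 = 0 := by
      have := th_smul ψ.symm σ.symm (symm_h ψ σ h) 0 (0 : Ω[K'⁄k'])
      rwa [smul_zero, map_zero, zero_smul] at this
    rw [h0, h0']
  | add x y _ _ hx hy => rw [th_add, th_add, hx, hy]
  | smul c x _ hx => rw [th_smul, th_smul, hx, RingEquiv.symm_apply_apply]

/-- The composite of the two transports. -/
noncomputable def TT2 (n : ℕ) : (⋀[K]^n (Ω[K⁄k])) →ₗ[K] (⋀[K]^n (Ω[K⁄k])) where
  toFun ω := TF ψ.symm σ.symm (symm_h ψ σ h) n (TF ψ σ h n ω)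
  map_add' x y := by rw [TF_add, TF_add]
  map_smul' c x := by rw [TF_smul, TF_smul, RingEquiv.symm_apply_apply]; rfl

lemma TF_TF (n : ℕ) (ω : ⋀[K]^n (Ω[K⁄k])) :
    TF ψ.symm σ.symm (symm_h ψ σ h) n (TF ψ σ h n ω) = ω := by
  have : TT2 ψ σ h n = LinearMap.id := by
    apply exteriorPower.linearMap_ext
    refine AlternatingMap.ext fun m => ?_
    change TF ψ.symm σ.symm (symm_h ψ σ h) n (TF ψ σ h n (exteriorPower.ιMulti K n m)) =
      exteriorPower.ιMulti K n m
    rw [TF_ιMulti, TF_ιMulti]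
    congr 1
    funext i
    exact th_th ψ σ h (m i)
  exact congrArg (fun f => f ω) this

lemma TF_ne_zero (n : ℕ) (ω : ⋀[K]^n (Ω[K⁄k])) (h0 : ω ≠ 0) : TF ψ σ h n ω ≠ 0 := by
  intro h1
  apply h0
  rw [← TF_TF ψ σ h n ω, h1, TF_zero]

lemma regularForms_transport (n : ℕ) (O : Set K) (ω : ⋀[K]^n (Ω[K⁄k]))
    (hω : ω ∈ regularForms (differential k K) n O) :
    TF ψ σ h n ω ∈ regularForms (differential k' K') n (ψ '' O) := by
  unfold regularForms at hω
  induction hω using AddSubgroup.closure_induction with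
  | mem x hx =>
    obtain ⟨g, hg, v, hv, rfl⟩ := hx
    refine AddSubgroup.subset_closure ⟨ψ g, ⟨g, hg, rfl⟩, fun i => ψ (v i),
      fun i => ⟨v i, hv i, rfl⟩, ?_⟩
    rw [TF_smul, TF_ιMulti]
    congr 2
    funext i
    exact th_D ψ σ h (v i)
  | zero => rw [TF_zero]; exact AddSubgroup.zero_mem _
  | add x y _ _ hx hy => rw [TF_add]; exact AddSubgroup.add_mem _ hx hy
  | neg x _ hx => rw [TF_neg]; exact AddSubgroup.neg_mem _ hx

lemma regularForms_surj (n : ℕ) (O : Set K) (ω' : ⋀[K']^n (Ω[K'⁄k']))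
    (hω : ω' ∈ regularForms (differential k' K') n (ψ '' O)) :
    ∃ ω ∈ regularForms (differential k K) n O, TF ψ σ h n ω = ω' := by
  unfold regularForms at hω
  induction hω using AddSubgroup.closure_induction with
  | mem x hx =>
    obtain ⟨_, ⟨g, hg, rfl⟩, v', hv', rfl⟩ := hx
    choose v hv hvv using hv'
    refine ⟨_, AddSubgroup.subset_closure ⟨g, hg, v, hv, rfl⟩, ?_⟩
    rw [TF_smul, TF_ιMulti]
    congr 2
    funext i
    rw [← hvv i]
    exact th_D ψ σ h (v i)
  | zero => exact ⟨0, AddSubgroup.zero_mem _, TF_zero ψ σ h n⟩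
  | add x y _ _ hx hy =>
    obtain ⟨a, ha, rfl⟩ := hx
    obtain ⟨b, hb, rfl⟩ := hy
    exact ⟨a + b, AddSubgroup.add_mem _ ha hb, TF_add ψ σ h n a b⟩
  | neg x _ hx =>
    obtain ⟨a, ha, rfl⟩ := hx
    exact ⟨-a, AddSubgroup.neg_mem _ ha, TF_neg ψ σ h n a⟩

/-- Transport of generators. -/
theorem isGenerator_transport (n : ℕ) (O : Set K) (ω : ⋀[K]^n (Ω[K⁄k]))
    (hω : IsGenerator (differential k K) n O ω) :
    IsGenerator (differential k' K') n (ψ '' O) (TF ψ σ h n ω) := by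
  refine ⟨TF_ne_zero ψ σ h n ω hω.1, fun η' => ?_⟩
  constructor
  · intro hη'
    obtain ⟨η, hη, rfl⟩ := regularForms_surj ψ σ h n O η' hη'
    obtain ⟨g, hg, rfl⟩ := (hω.2 η).1 hη
    exact ⟨ψ g, ⟨g, hg, rfl⟩, TF_smul ψ σ h n g ω⟩
  · rintro ⟨_, ⟨g, hg, rfl⟩, rfl⟩
    rw [← TF_smul]
    exact regularForms_transport ψ σ h n O _ ((hω.2 _).2 ⟨g, hg, rfl⟩)

end transport

end Pool.Agent.H935.FF
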