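import Pool.Agent.H935.FF.Defs
import Pool.Agent.H935.FF.Transp
import Pool.Graph.R_seed8.Helper165.Const
import Pool.Graph.R_seed8.Helper165.Geom3

/-!
Invariance of the Fano function under automorphisms of the field `ℂ`.
-/

set_option autoImplicit false

open CategoryTheory Limits AlgebraicGeometry TopologicalSpace Pretriangulated
open Pool.Agent.Helper165 Pool.Agent.TH215.TM

namespace Pool.Agent.H935.FF

/-- The automorphism of `Spec ℂ` defined by an automorphism `σ` of the field `ℂ`. -/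
noncomputable def specAut (σ : ℂ ≃+* ℂ) : SpecC ⟶ SpecC :=
  Spec.map (CommRingCat.ofHom (σ : ℂ →+* ℂ))

lemma specAut_comp (σ τ : ℂ ≃+* ℂ) : specAut σ ≫ specAut τ = specAut (τ.trans σ) := by
  unfold specAut
  rw [← Spec.map_comp]
  rfl

lemma specAut_symm (σ : ℂ ≃+* ℂ) : specAut σ ≫ specAut σ.symm = 𝟙 _ := by
  unfold specAut
  rw [← Spec.map_comp, ← CommRingCat.ofHom_comp]
  have : (σ : ℂ →+* ℂ).comp (σ.symm : ℂ →+* ℂ) = RingHom.id ℂ := by
    ext x
    simp
  rw [this]
  exact Spec.map_id _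

lemma specAut_symm' (σ : ℂ ≃+* ℂ) : specAut σ.symm ≫ specAut σ = 𝟙 _ := by
  have := specAut_symm σ.symm
  rwa [RingEquiv.symm_symm] at this

instance (σ : ℂ ≃+* ℂ) : IsIso (specAut σ) :=
  ⟨specAut σ.symm, specAut_symm σ, specAut_symm' σ⟩

/-- The variety obtained from `X` by composing its structure morphism with the automorphism of
`Spec ℂ` defined by `σ`. -/
noncomputable def twist (σ : ℂ ≃+* ℂ) (X : Over SpecC) : Over SpecC :=
  Over.mk (X.hom ≫ specAut σ)

lemma twist_twist (σ : ℂ ≃+* ℂ) (X : Over SpecC) : twist σ.symm (twist σ X) = X := by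
  have h : (X.hom ≫ specAut σ) ≫ specAut σ.symm = X.hom := by
    rw [Category.assoc, specAut_symm, Category.comp_id]
  unfold twist
  change Over.mk ((X.hom ≫ specAut σ) ≫ specAut σ.symm) = X
  rw [h]
  rfl

lemma twist_twist' (σ : ℂ ≃+* ℂ) (X : Over SpecC) : twist σ (twist σ.symm X) = X := by
  have := twist_twist σ.symm X
  rwa [RingEquiv.symm_symm] at this

lemma strMap_twist {X : Scheme.{0}} (π : X ⟶ SpecC) (σ : ℂ ≃+* ℂ) (c : ℂ) :
    strMap (π ≫ specAut σ) c = strMap π (σ c) := by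
  have h : (Scheme.ΓSpecIso (CommRingCat.of ℂ)).inv ≫ (π ≫ specAut σ).appTop =
      CommRingCat.ofHom (σ : ℂ →+* ℂ) ≫ (Scheme.ΓSpecIso (CommRingCat.of ℂ)).inv ≫ π.appTop := by
    rw [Scheme.Hom.comp_appTop, ← Category.assoc, ← Category.assoc]
    unfold specAut
    rw [Scheme.ΓSpecIso_inv_naturality]
  exact congrArg (fun g => g.hom c) h

lemma constants_twist {X : Scheme.{0}} [IsIntegral X] (π : X ⟶ SpecC) (σ : ℂ ≃+* ℂ) (c : ℂ) :
    constants (π ≫ specAut σ) c = constants π (σ c) := by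
  have h1 : ∀ ρ : X ⟶ SpecC, ∀ c, constants ρ c =
      (X.presheaf.germ ⊤ (genericPoint X) trivial).hom (strMap ρ c) := by
    intro ρ c
    rw [constants_eq_germ]
    rfl
  rw [h1, h1, strMap_twist]

section host

attribute [local instance] HasDerivedCategory.standard

lemma embeds_twist (σ : ℂ ≃+* ℂ) (Y X : Over SpecC) (h : Embeds Y X) :
    Embeds (twist σ Y) (twist σ X) := by
  obtain ⟨F, h1, h2, h3, h4⟩ := h
  have h5 : IsLinearOver (Y.hom ≫ specAut σ) (X.hom ≫ specAut σ) F := by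
    intro c E ψ hψ
    rw [strMap_twist] at hψ ⊢
    exact h4 (σ c) E ψ hψ
  exact ⟨F, h1, h2, h3, h5⟩

lemma embedsNonlinear_twist (σ : ℂ ≃+* ℂ) (Y X : Over SpecC) (h : EmbedsNonlinear Y X) :
    EmbedsNonlinear (twist σ Y) (twist σ X) := h

end host

section fano

open KaehlerDifferential

variable {K K' : Type} [Field K] [Algebra ℂ K] [Field K'] [Algebra ℂ K']
  (ψ : K ≃+* K') (σ : ℂ ≃+* ℂ) (h : ∀ a, ψ (algebraMap ℂ K a) = algebraMap ℂ K' (σ a)) (n : ℕ)

lemma secRegular_transport (η : ⋀[K]^n (Ω[K⁄ℂ])) (m : ℕ) (g : K) (O : Set K)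
    (hs : SecRegular (differential ℂ K) n η m g O) : SecRegular (differential ℂ K') n (TF ψ σ h n η) m (ψ g) (ψ '' O) := by
  obtain ⟨a, ha, hb⟩ := hs
  refine ⟨ψ a, ?_, ⟨g * a ^ m, hb, by rw [map_mul, map_pow]⟩⟩
  unfold GeneratesWith
  rw [← TF_smul]
  exact isGenerator_transport ψ σ h n O _ ha

lemma secNonvanishing_transport (η : ⋀[K]^n (Ω[K⁄ℂ])) (m : ℕ) (g : K) (O : Set K)
    (hs : SecNonvanishing (differential ℂ K) n η m g O) :
    SecNonvanishing (differential ℂ K') n (TF ψ σ h n η) m (ψ g) (ψ '' O) := by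
  obtain ⟨a, ha, hb, c, hc, hd⟩ := hs
  refine ⟨ψ a, ?_, ⟨g * a ^ m, hb, by rw [map_mul, map_pow]⟩, ψ c, ⟨c, hc, rfl⟩, ?_⟩
  · unfold GeneratesWith
    rw [← TF_smul]
    exact isGenerator_transport ψ σ h n O _ ha
  · rw [← map_pow, ← map_mul, ← map_mul, hd, map_one]

lemma secNonvanishing_iff (η : ⋀[K]^n (Ω[K⁄ℂ])) (m : ℕ) (g : K) (O : Set K) :
    SecNonvanishing (differential ℂ K') n (TF ψ σ h n η) m (ψ g) (ψ '' O) ↔ SecNonvanishing (differential ℂ K) n η m g O := by
  refine ⟨fun hs => ?_, secNonvanishing_transport ψ σ h n η m g O⟩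
  have h1 := secNonvanishing_transport ψ.symm σ.symm (symm_h ψ σ h) n _ m _ _ hs
  rw [TF_TF, RingEquiv.symm_apply_apply] at h1
  have h2 : ψ.symm '' (ψ '' O) = O := by
    ext x
    constructor
    · rintro ⟨_, ⟨y, hy, rfl⟩, rfl⟩
      rwa [RingEquiv.symm_apply_apply]
    · intro hx
      exact ⟨ψ x, ⟨x, hx, rfl⟩, RingEquiv.symm_apply_apply _ _⟩
  rwa [h2] at h1

end fano

lemma antiAmple_twist (n : ℕ) {X : Scheme.{0}} [IsIntegral X] (π : X ⟶ SpecC) (σ : ℂ ≃+* ℂ)
    (hX : AntiAmple n π) : AntiAmple n (π ≫ specAut σ) := by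
  obtain ⟨η, hA⟩ := hX
  let A₁ : Algebra ℂ X.functionField := (constants π).toAlgebra
  let A₂ : Algebra ℂ X.functionField := (constants (π ≫ specAut σ)).toAlgebra
  have h : ∀ a, (RingEquiv.refl X.functionField) (@algebraMap ℂ X.functionField _ _ A₁ a) =
      @algebraMap ℂ X.functionField _ _ A₂ (σ.symm a) := by
    intro a
    change constants π a = constants (π ≫ specAut σ) (σ.symm a)
    rw [constants_twist, RingEquiv.apply_symm_apply]
  have him : ∀ O : Set X.functionField, (RingEquiv.refl X.functionField) '' O = O := by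
    intro O
    exact Set.image_id O
  refine ⟨@TF ℂ X.functionField ℂ X.functionField _ _ A₁ _ _ A₂ (RingEquiv.refl _) σ.symm h n η,
    ?_⟩
  intro x
  obtain ⟨m, hm, g, hg, U, hU, hxU, hU'⟩ := hA x
  refine ⟨m, hm, g, ?_, U, hU, hxU, ?_⟩
  · intro y
    have := @secRegular_transport X.functionField X.functionField _ A₁ _ A₂ (RingEquiv.refl _)
      σ.symm h n η m g _ (hg y)
    rwa [him] at this
  · intro y
    rw [hU' y]
    have := @secNonvanishing_iff X.functionField X.functionField _ A₁ _ A₂ (RingEquiv.refl _)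
      σ.symm h n η m g (localRing (𝟙 X) y)
    rw [him] at this
    exact this.symm

lemma isFano_twist (n : ℕ) (X : Over SpecC) (σ : ℂ ≃+* ℂ) (hX : IsFano n X) :
    IsFano n (twist σ X) := by
  obtain ⟨h0, h1, h2, h3⟩ := hX
  refine ⟨h0, ?_, ?_, antiAmple_twist n X.hom σ h3⟩
  · change SmoothOfRelativeDimension n (X.hom ≫ specAut σ)
    exact (MorphismProperty.cancel_right_of_respectsIso (P := @SmoothOfRelativeDimension n)
      X.hom (specAut σ)).2 h1
  · change IsProper (X.hom ≫ specAut σ)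
    exact (MorphismProperty.cancel_right_of_respectsIso (P := @IsProper)
      X.hom (specAut σ)).2 h2

lemma isFibre_twist {E B : Scheme.{0}} (p : E ⟶ B) (b : SpecC ⟶ B) (X : Over SpecC)
    (σ : ℂ ≃+* ℂ) (h : IsFibre p b X) : IsFibre p (specAut σ.symm ≫ b) (twist σ X) := by
  obtain ⟨j, hj⟩ := h
  refine ⟨j, ?_⟩
  change IsPullback j (X.hom ≫ specAut σ) p (specAut σ.symm ≫ b)
  refine IsPullback.of_iso hj (Iso.refl _) (Iso.refl _) (asIso (specAut σ)) (Iso.refl _)
    ?_ ?_ ?_ ?_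
  · simp
  · simp
  · simp
  · simp only [Iso.refl_hom, Category.comp_id, asIso_hom]
    rw [← Category.assoc, specAut_symm, Category.id_comp]

lemma deformStep_twist (n : ℕ) (X₁ X₂ : Over SpecC) (σ : ℂ ≃+* ℂ) (h : DeformStep n X₁ X₂) :
    DeformStep n (twist σ X₁) (twist σ X₂) := by
  obtain ⟨B, E, q, p, h1, h2, h3, h4, h5, b₁, b₂, h6, h7, h8, h9⟩ := h
  have hq : ∀ b : SpecC ⟶ B, b ≫ q = 𝟙 _ → (specAut σ.symm ≫ b) ≫ q ≫ specAut σ = 𝟙 _ := by
    intro b hb
    rw [Category.assoc, ← Category.assoc b, hb, Category.id_comp, specAut_symm']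
  refine ⟨B, E, q ≫ specAut σ, p, h1, ?_, h3, h4, ?_, specAut σ.symm ≫ b₁, specAut σ.symm ≫ b₂,
    hq b₁ h6, hq b₂ h7, isFibre_twist p b₁ X₁ σ h8, isFibre_twist p b₂ X₂ σ h9⟩
  · infer_instance
  · intro b X hb hX
    have hbq : b ≫ q = specAut σ.symm := by
      rw [← cancel_mono (specAut σ), specAut_symm', Category.assoc, hb]
    have h10 := isFibre_twist p b X σ.symm hX
    rw [RingEquiv.symm_symm] at h10
    have h11 := h5 (specAut σ ≫ b) (twist σ.symm X) (by
      rw [Category.assoc, hbq, specAut_symm]) h10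
    have h12 := isFano_twist n _ σ h11
    rwa [twist_twist'] at h12

/-- The action of `σ` on deformation classes. -/
noncomputable def twistQuot (n : ℕ) (σ : ℂ ≃+* ℂ) : Quot (DeformStep n) → Quot (DeformStep n) :=
  Quot.map (twist σ) fun X₁ X₂ h => deformStep_twist n X₁ X₂ σ h

lemma twistQuot_symm (n : ℕ) (σ : ℂ ≃+* ℂ) (c : Quot (DeformStep n)) :
    twistQuot n σ.symm (twistQuot n σ c) = c := by
  induction c using Quot.ind with
  | mk X =>
    change Quot.mk _ (twist σ.symm (twist σ X)) = _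
    rw [twist_twist]

lemma twistQuot_symm' (n : ℕ) (σ : ℂ ≃+* ℂ) (c : Quot (DeformStep n)) :
    twistQuot n σ (twistQuot n σ.symm c) = c := by
  have := twistQuot_symm n σ.symm c
  rwa [RingEquiv.symm_symm] at this

lemma countClasses_twist (n : ℕ) (H H' : Over SpecC → Prop) (σ : ℂ ≃+* ℂ)
    (h : ∀ X, H X → H' (twist σ X)) (h' : ∀ X, H' X → H (twist σ.symm X)) :
    countClasses n H = countClasses n H' := by
  unfold countClasses
  refine Cardinal.mk_congr
    { toFun := fun c => ⟨twistQuot n σ c.1, ?_⟩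
      invFun := fun c => ⟨twistQuot n σ.symm c.1, ?_⟩
      left_inv := fun c => Subtype.ext (twistQuot_symm n σ c.1)
      right_inv := fun c => Subtype.ext (twistQuot_symm' n σ c.1) }
  · obtain ⟨X, h1, h2, h3⟩ := c.2
    exact ⟨twist σ X, isFano_twist n X σ h1, h X h2, by rw [← h3]; rfl⟩
  · obtain ⟨X, h1, h2, h3⟩ := c.2
    exact ⟨twist σ.symm X, isFano_twist n X σ.symm h1, h' X h2, by rw [← h3]; rfl⟩

/-- The Fano function is invariant under automorphisms of the field `ℂ`. -/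
theorem fanoFunction_twist (σ : ℂ ≃+* ℂ) (Y : Over SpecC) (n : ℕ) :
    fanoFunction (twist σ Y) n = fanoFunction Y n := by
  symm
  refine countClasses_twist n _ _ σ (fun X hX => embeds_twist σ Y X hX) (fun X hX => ?_)
  have h := embeds_twist σ.symm (twist σ Y) X hX
  rwa [twist_twist] at h

/-- The nonlinear Fano function is invariant under automorphisms of the field `ℂ`. -/
theorem fanoFunctionNonlinear_twist (σ : ℂ ≃+* ℂ) (Y : Over SpecC) (n : ℕ) :
    fanoFunctionNonlinear (twist σ Y) n = fanoFunctionNonlinear Y n := by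
  symm
  refine countClasses_twist n _ _ σ (fun X hX => embedsNonlinear_twist σ Y X hX)
    (fun X hX => ?_)
  have h := embedsNonlinear_twist σ.symm (twist σ Y) X hX
  rwa [twist_twist] at h

end Pool.Agent.H935.FF
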